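import Mathlib

/-!
# The algebraic part: from the two orthogonality relations to the moment functional equations
-/

set_option autoImplicit false
open Polynomial

namespace Pool.Agent.W2helper99.Kr

lemma lin_zero (p : ℕ → ℝ[X]) (hp : ∀ n, (p n).degree = (n : WithBot ℕ)) (T : ℝ[X] →ₗ[ℝ] ℝ)
    (hT : ∀ n, T (p n) = 0) : T = 0 := by
  let S : Polynomial.Sequence ℝ := ⟨p, hp⟩
  have hS : Submodule.span ℝ (Set.range S) = ⊤ := by
    apply S.span
    intro i
    exact isUnit_iff_ne_zero.2 (leadingCoeff_ne_zero.2 (S.ne_zero i))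
  apply LinearMap.ext_on hS
  rintro _ ⟨n, rfl⟩
  rw [LinearMap.zero_apply]
  exact hT n

lemma exists_G (Φ : ℝ[X] →ₗ[ℝ] ℝ) (S : ℝ[X] →ₗ[ℝ] ℝ[X] →ₗ[ℝ] ℝ)
    (p : ℕ → ℝ[X]) (hp : ∀ n, (p n).degree = (n : WithBot ℕ))
    (ho : ∀ n m, n ≠ m → Φ (p n * p m) = 0) (hn : ∀ n, Φ (p n * p n) ≠ 0)
    (hS : ∀ n m, n ≠ m → S (p n) (p m) = 0) (n : ℕ) :
    ∀ f : ℝ[X], f.natDegree ≤ n → ∃ G : ℝ[X], G.natDegree ≤ n ∧ ∀ g, Φ (G * g) = S f g := by
  have hbase : ∀ k, ∃ l : ℝ, ∀ g, Φ ((C l * p k) * g) = S (p k) g := by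
    intro k
    refine ⟨S (p k) (p k) / Φ (p k * p k), ?_⟩
    set l := S (p k) (p k) / Φ (p k * p k) with hl
    set T : ℝ[X] →ₗ[ℝ] ℝ := Φ ∘ₗ (LinearMap.mulLeft ℝ (C l * p k)) - S (p k) with hTdef
    have hT : T = 0 := by
      apply lin_zero p hp
      intro m
      rw [hTdef, LinearMap.sub_apply, LinearMap.comp_apply, LinearMap.mulLeft_apply, mul_assoc,
        ← smul_eq_C_mul, map_smul, smul_eq_mul]
      rcases eq_or_ne k m with h | h
      · subst h
        rw [hl, div_mul_cancel₀ _ (hn k), sub_self]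
      · rw [ho k m h, hS k m h, mul_zero, sub_zero]
    intro g
    have := LinearMap.congr_fun hT g
    rw [hTdef, LinearMap.sub_apply, LinearMap.comp_apply, LinearMap.mulLeft_apply,
      LinearMap.zero_apply] at this
    linarith
  have hpn : ∀ k, (p k).natDegree = k := fun k => natDegree_eq_of_degree_eq_some (hp k)
  have hpc : ∀ k, (p k).coeff k ≠ 0 := by
    intro k
    have h0 : p k ≠ 0 := by
      intro h0
      have := hp k
      rw [h0, degree_zero] at this
      exact absurd this.symm (WithBot.coe_ne_bot)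
    have := leadingCoeff_ne_zero.2 h0
    rwa [leadingCoeff, hpn k] at this
  induction n with
  | zero =>
    intro f hf
    obtain ⟨l, hl⟩ := hbase 0
    have hf' := eq_C_of_natDegree_le_zero hf
    have hp0 := eq_C_of_natDegree_le_zero (hpn 0).le
    refine ⟨C (f.coeff 0 / (p 0).coeff 0) * (C l * p 0), ?_, ?_⟩
    · refine (natDegree_C_mul_le _ _).trans ((natDegree_C_mul_le _ _).trans (hpn 0).le)
    · intro g
      have e : f = (f.coeff 0 / (p 0).coeff 0) • p 0 := by
        rw [smul_eq_C_mul]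
        conv_lhs => rw [hf']
        conv_rhs => rw [hp0]
        rw [← C_mul, coeff_C_zero, div_mul_cancel₀ _ (hpc 0)]
      conv_rhs => rw [e]
      rw [mul_assoc, ← smul_eq_C_mul, map_smul, hl, map_smul, LinearMap.smul_apply]
  | succ n ih =>
    intro f hf
    obtain ⟨l, hl⟩ := hbase (n + 1)
    set c := f.coeff (n + 1) / (p (n + 1)).coeff (n + 1) with hc
    have h1 : (f - C c * p (n + 1)).natDegree ≤ n := by
      rw [natDegree_le_iff_coeff_eq_zero]
      intro N hN
      rw [coeff_sub, coeff_C_mul]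
      rcases eq_or_lt_of_le (Nat.succ_le_of_lt hN) with h | h
      · rw [← h]
        rw [hc, Nat.succ_eq_add_one, div_mul_cancel₀ _ (hpc (n + 1)), sub_self]
      · rw [coeff_eq_zero_of_natDegree_lt (lt_of_le_of_lt hf h),
          coeff_eq_zero_of_natDegree_lt (by rw [hpn]; exact h)]
        simp
    obtain ⟨G, hG, hGS⟩ := ih _ h1
    refine ⟨G + C c * (C l * p (n + 1)), ?_, ?_⟩
    · refine (natDegree_add_le _ _).trans (max_le (hG.trans (Nat.le_succ n)) ?_)
      exact (natDegree_C_mul_le _ _).trans ((natDegree_C_mul_le _ _).trans (hpn _).le)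
    · intro g
      have e1 : Φ (C c * (C l * p (n + 1)) * g) = c * S (p (n + 1)) g := by
        rw [mul_assoc, ← smul_eq_C_mul, map_smul, hl, smul_eq_mul]
      have e2 : S (C c * p (n + 1)) g = c * S (p (n + 1)) g := by
        rw [← smul_eq_C_mul, map_smul, LinearMap.smul_apply, smul_eq_mul]
      rw [add_mul, map_add, hGS, e1, map_sub, LinearMap.sub_apply, e2]
      ring

lemma C_mul_half (c : ℝ) (hc : c ≠ 0) (P : ℝ[X]) : C c * (C (1 / c) * P) = P := by
  rw [← mul_assoc, ← C_mul, mul_one_div_cancel hc, C_1, one_mul]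

theorem alg (Φ Ψ H : ℝ[X] →ₗ[ℝ] ℝ)
    (p : ℕ → ℝ[X]) (hp : ∀ n, (p n).degree = (n : WithBot ℕ))
    (ho : ∀ n m, n ≠ m → Φ (p n * p m) = 0) (hn : ∀ n, Φ (p n * p n) ≠ 0)
    (hS : ∀ n m, n ≠ m → Φ (p n * p m) + Ψ (derivative (p n) * derivative (p m)) +
      H (derivative (derivative (p n)) * derivative (derivative (p m))) = 0) :
    ∃ a1 a2 a3 a4 : ℝ[X], a1.natDegree ≤ 1 ∧ a2.natDegree ≤ 2 ∧ a3.natDegree ≤ 3 ∧
      a4.natDegree ≤ 4 ∧ (∀ g, Φ (a3 * g + 2 * a4 * derivative g) = 0) ∧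
      (∀ g, Φ (a3 * derivative (derivative g) + 2 * a2 * derivative g + 2 * a1 * g) = 0) ∧
      (∀ g, H g = Φ (a4 * g)) := by
  set D : ℝ[X] →ₗ[ℝ] ℝ[X] := derivative with hD
  set S : ℝ[X] →ₗ[ℝ] ℝ[X] →ₗ[ℝ] ℝ :=
    (LinearMap.mul ℝ ℝ[X]).compr₂ Φ + ((LinearMap.mul ℝ ℝ[X]).compl₁₂ D D).compr₂ Ψ +
      ((LinearMap.mul ℝ ℝ[X]).compl₁₂ (D ∘ₗ D) (D ∘ₗ D)).compr₂ H with hSdef
  have hSe : ∀ f g, S f g = Φ (f * g) + Ψ (derivative f * derivative g) +
      H (derivative (derivative f) * derivative (derivative g)) := by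
    intro f g
    rfl
  have hG := exists_G Φ S p hp ho hn (fun n m h => by rw [hSe]; exact hS n m h)
  obtain ⟨G1, hG1d, hG1⟩ := hG 1 X (by simp)
  obtain ⟨G2, hG2d, hG2⟩ := hG 2 (X ^ 2) (by simp)
  obtain ⟨G3, hG3d, hG3⟩ := hG 3 (X ^ 3) (by simp)
  obtain ⟨G4, hG4d, hG4⟩ := hG 4 (X ^ 4) (by simp)
  simp only [hSe] at hG1 hG2 hG3 hG4
  set a1 := G1 - X with ha1
  set a2 := C (1 / 2 : ℝ) * (G2 - X ^ 2 - C 2 * (X * a1)) with ha2
  set a3 := C (1 / 6 : ℝ) * (G3 - X ^ 3 - C 3 * (a1 * X ^ 2) - C 6 * (a2 * X)) with ha3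
  set a4 := C (1 / 24 : ℝ) * (G4 - X ^ 4 - C 4 * (a1 * X ^ 3) - C 12 * (a2 * X ^ 2) -
    C 24 * (a3 * X)) with ha4
  have d1 : a1.natDegree ≤ 1 := by
    rw [ha1]
    refine (natDegree_sub_le _ _).trans (max_le hG1d (by simp))
  have d2 : a2.natDegree ≤ 2 := by
    rw [ha2]
    refine (natDegree_C_mul_le _ _).trans ?_
    refine (natDegree_sub_le _ _).trans (max_le ?_ ?_)
    · exact (natDegree_sub_le _ _).trans (max_le hG2d (by simp))
    · refine (natDegree_C_mul_le _ _).trans ?_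
      exact (natDegree_mul_le_of_le (natDegree_X_le) d1).trans (by norm_num)
  have d3 : a3.natDegree ≤ 3 := by
    rw [ha3]
    refine (natDegree_C_mul_le _ _).trans ?_
    refine (natDegree_sub_le _ _).trans (max_le ?_ ?_)
    · refine (natDegree_sub_le _ _).trans (max_le ?_ ?_)
      · exact (natDegree_sub_le _ _).trans (max_le hG3d (by simp))
      · refine (natDegree_C_mul_le _ _).trans ?_
        exact (natDegree_mul_le_of_le d1 (natDegree_X_pow_le 2)).trans (by norm_num)
    · refine (natDegree_C_mul_le _ _).trans ?_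
      exact (natDegree_mul_le_of_le d2 natDegree_X_le).trans (by norm_num)
  have d4 : a4.natDegree ≤ 4 := by
    rw [ha4]
    refine (natDegree_C_mul_le _ _).trans ?_
    refine (natDegree_sub_le _ _).trans (max_le ?_ ?_)
    · refine (natDegree_sub_le _ _).trans (max_le ?_ ?_)
      · refine (natDegree_sub_le _ _).trans (max_le ?_ ?_)
        · exact (natDegree_sub_le _ _).trans (max_le hG4d (by simp))
        · refine (natDegree_C_mul_le _ _).trans ?_
          exact (natDegree_mul_le_of_le d1 (natDegree_X_pow_le 3)).trans (by norm_num)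
      · refine (natDegree_C_mul_le _ _).trans ?_
        exact (natDegree_mul_le_of_le d2 (natDegree_X_pow_le 2)).trans (by norm_num)
    · refine (natDegree_C_mul_le _ _).trans ?_
      exact (natDegree_mul_le_of_le d3 natDegree_X_le).trans (by norm_num)
  have eG1 : G1 = X + a1 := by rw [ha1]; ring
  have eG2 : G2 = X ^ 2 + C 2 * (X * a1) + C 2 * a2 := by
    rw [ha2, C_mul_half 2 (by norm_num)]; ring
  have eG3 : G3 = X ^ 3 + C 3 * (a1 * X ^ 2) + C 6 * (a2 * X) + C 6 * a3 := by
    rw [ha3, C_mul_half 6 (by norm_num)]; ring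
  have eG4 : G4 = X ^ 4 + C 4 * (a1 * X ^ 3) + C 12 * (a2 * X ^ 2) + C 24 * (a3 * X) +
      C 24 * a4 := by
    rw [ha4, C_mul_half 24 (by norm_num)]; ring
  clear_value a1 a2 a3 a4
  have cm : ∀ (L : ℝ[X] →ₗ[ℝ] ℝ) (c : ℝ) (P : ℝ[X]), L (C c * P) = c * L P := by
    intro L c P
    rw [← smul_eq_C_mul, map_smul, smul_eq_mul]
  have I1 : ∀ g, Ψ (derivative g) = Φ (a1 * g) := by
    intro g
    have h := hG1 g
    rw [eG1, add_mul, map_add, derivative_X, one_mul, derivative_one, zero_mul, map_zero] at h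
    linarith
  have I2 : ∀ g, H (derivative (derivative g)) = Φ (a2 * g) + Ψ g := by
    intro g
    have h := hG2 g
    have e1 : (X ^ 2 + C 2 * (X * a1) + C 2 * a2) * g =
        X ^ 2 * g + C 2 * (a1 * (X * g)) + C 2 * (a2 * g) := by ring
    have e2 : derivative (X ^ 2 : ℝ[X]) * derivative g =
        C 2 * derivative (X * g) - C 2 * g := by
      simp only [derivative_X_pow, derivative_mul, derivative_X, map_ofNat, Nat.cast_ofNat]
      ring
    have e3 : derivative (derivative (X ^ 2 : ℝ[X])) * derivative (derivative g) =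
        C 2 * derivative (derivative g) := by
      simp only [derivative_X_pow, derivative_mul, derivative_X, map_ofNat, Nat.cast_ofNat]
      simp
    rw [eG2, e1, e2, e3, map_add, map_add, map_sub, cm, cm, cm, cm, cm, I1] at h
    linarith
  have I3 : ∀ g, -2 * H (derivative g) = Φ (a3 * g) := by
    intro g
    have h := hG3 g
    have e1 : (X ^ 3 + C 3 * (a1 * X ^ 2) + C 6 * (a2 * X) + C 6 * a3) * g =
        X ^ 3 * g + C 3 * (a1 * (X ^ 2 * g)) + C 6 * (a2 * (X * g)) + C 6 * (a3 * g) := by ring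
    have e2 : derivative (X ^ 3 : ℝ[X]) * derivative g =
        C 3 * derivative (X ^ 2 * g) - C 6 * (X * g) := by
      simp only [derivative_X_pow, derivative_mul, map_ofNat, Nat.cast_ofNat]
      ring
    have e3 : derivative (derivative (X ^ 3 : ℝ[X])) * derivative (derivative g) =
        C 6 * derivative (derivative (X * g)) - C 12 * derivative g := by
      simp only [derivative_X_pow, derivative_mul, derivative_add, derivative_X, map_ofNat,
        Nat.cast_ofNat, derivative_ofNat, zero_mul, zero_add, one_mul, Nat.add_one_sub_one]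
      norm_num
      ring
    rw [eG3, e1, e2, e3] at h
    simp only [map_add, map_sub, cm, I1, I2] at h
    linarith
  have I4 : ∀ g, H g = Φ (a4 * g) := by
    intro g
    have h := hG4 g
    have e1 : (X ^ 4 + C 4 * (a1 * X ^ 3) + C 12 * (a2 * X ^ 2) + C 24 * (a3 * X) + C 24 * a4) * g =
        X ^ 4 * g + C 4 * (a1 * (X ^ 3 * g)) + C 12 * (a2 * (X ^ 2 * g)) + C 24 * (a3 * (X * g)) +
        C 24 * (a4 * g) := by ring
    have e2 : derivative (X ^ 4 : ℝ[X]) * derivative g =
        C 4 * derivative (X ^ 3 * g) - C 12 * (X ^ 2 * g) := by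
      simp only [derivative_X_pow, derivative_mul, map_ofNat, Nat.cast_ofNat]
      ring
    have e3 : derivative (derivative (X ^ 4 : ℝ[X])) * derivative (derivative g) =
        C 12 * derivative (derivative (X ^ 2 * g)) - C 48 * derivative (X * g) + C 24 * g := by
      simp only [derivative_X_pow, derivative_mul, derivative_add, derivative_X, map_ofNat,
        Nat.cast_ofNat, derivative_ofNat, zero_mul, zero_add, one_mul, Nat.add_one_sub_one]
      norm_num
      ring
    rw [eG4, e1, e2, e3] at h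
    have h3 := I3 (X * g)
    simp only [map_add, map_sub, cm, I1, I2] at h
    linarith
  have two : (2 : ℝ[X]) = C 2 := (map_ofNat C 2).symm
  refine ⟨a1, a2, a3, a4, d1, d2, d3, d4, fun g => ?_, fun g => ?_, I4⟩
  · rw [two, map_add, mul_assoc, cm, ← I3, ← I4]
    ring
  · rw [two, map_add, map_add, mul_assoc, mul_assoc, cm, cm, ← I3, ← I1]
    have := I2 (derivative g)
    linarith

end Pool.Agent.W2helper99.Kr
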