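import Pool.Agent.W2helper99.Kr.Reflect
import Pool.Agent.W2helper99.Kr.Alg

/-!
# Growth of the moments, exponential integrability, positivity
-/

set_option autoImplicit false
open MeasureTheory Set Filter Topology Polynomial

namespace Pool.Agent.W2helper99.Kr

/-- factorial bounds from a linear recursive inequality -/
lemma rec_growth (m : ℕ → ℝ) (J N0 : ℕ) (C : ℝ) (hC : 0 ≤ C) (hN0 : J + 1 ≤ N0)
    (h : ∀ N, N0 ≤ N → |m N| ≤ C * N * ∑ j ∈ Finset.range (J + 1), |m (N - 1 - j)|) :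
    ∃ D K : ℝ, 0 ≤ D ∧ 1 ≤ K ∧ ∀ n, |m n| ≤ D * K ^ n * (Nat.factorial n : ℝ) := by
  set D : ℝ := ∑ i ∈ Finset.range N0, |m i| with hD
  have hD0 : 0 ≤ D := Finset.sum_nonneg fun i _ => abs_nonneg _
  set K : ℝ := max 1 (C * (J + 1)) with hK
  have hK1 : 1 ≤ K := le_max_left _ _
  refine ⟨D, K, hD0, hK1, fun n => ?_⟩
  induction n using Nat.strong_induction_on with
  | _ N ih =>
    rcases lt_or_ge N N0 with hN | hN
    · have h1 : |m N| ≤ D := Finset.single_le_sum (f := fun i => |m i|) (fun i _ => abs_nonneg _)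
        (Finset.mem_range.2 hN)
      have h2 : (1 : ℝ) ≤ K ^ N := one_le_pow₀ hK1
      have h3 : (1 : ℝ) ≤ (Nat.factorial N : ℝ) := by exact_mod_cast Nat.one_le_iff_ne_zero.2 (Nat.factorial_ne_zero N)
      calc |m N| ≤ D := h1
        _ = D * 1 * 1 := by ring
        _ ≤ D * K ^ N * (Nat.factorial N : ℝ) := by gcongr
    · obtain ⟨M, rfl⟩ : ∃ M, N = M + 1 := ⟨N - 1, by omega⟩
      have h1 := h (M + 1) hN
      have h2 : ∀ j ∈ Finset.range (J + 1), |m (M + 1 - 1 - j)| ≤ D * K ^ M * (Nat.factorial M : ℝ) := by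
        intro j hj
        have h3 := ih (M + 1 - 1 - j) (by omega)
        refine h3.trans ?_
        have h4 : K ^ (M + 1 - 1 - j) ≤ K ^ M := pow_le_pow_right₀ hK1 (by omega)
        have h5 : (Nat.factorial (M + 1 - 1 - j) : ℝ) ≤ (Nat.factorial M : ℝ) := by
          exact_mod_cast Nat.factorial_le (by omega)
        gcongr
      have h3 := Finset.sum_le_sum h2
      rw [Finset.sum_const, Finset.card_range, nsmul_eq_mul] at h3
      have h4 : 0 ≤ D * K ^ M * (Nat.factorial M : ℝ) := by positivity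
      calc |m (M + 1)| ≤ C * ((M + 1 : ℕ) : ℝ) * ∑ j ∈ Finset.range (J + 1), |m (M + 1 - 1 - j)| := h1
        _ ≤ C * ((M + 1 : ℕ) : ℝ) * (((J + 1 : ℕ) : ℝ) * (D * K ^ M * (Nat.factorial M : ℝ))) := by
            apply mul_le_mul_of_nonneg_left h3
            positivity
        _ = (C * (J + 1)) * (D * K ^ M * (((M + 1 : ℕ) : ℝ) * (Nat.factorial M : ℝ))) := by
            push_cast; ring
        _ ≤ K * (D * K ^ M * (((M + 1 : ℕ) : ℝ) * (Nat.factorial M : ℝ))) := by
            apply mul_le_mul_of_nonneg_right (le_max_right _ _)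
            positivity
        _ = D * K ^ (M + 1) * (Nat.factorial (M + 1) : ℝ) := by
            rw [Nat.factorial_succ]; push_cast; ring

/-- lower bound for `b + 2 n c` -/
lemma lead_bound (b c : ℝ) (h : b ≠ 0 ∨ c ≠ 0) :
    ∃ κ : ℝ, 0 < κ ∧ ∃ n0 : ℕ, ∀ n : ℕ, n0 ≤ n → κ ≤ |b + 2 * n * c| := by
  rcases eq_or_ne c 0 with hc | hc
  · subst hc
    have hb : b ≠ 0 := by tauto
    refine ⟨|b|, abs_pos.2 hb, 0, fun n _ => ?_⟩
    simp
  · refine ⟨|c|, abs_pos.2 hc, ⌈(|b| + |c|) / (2 * |c|)⌉₊, fun n hn => ?_⟩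
    have h1 : (|b| + |c|) / (2 * |c|) ≤ n := (Nat.le_ceil _).trans (by exact_mod_cast hn)
    have hc' : 0 < |c| := abs_pos.2 hc
    rw [div_le_iff₀ (by positivity)] at h1
    have h2 : |2 * n * c| = 2 * n * |c| := by
      rw [abs_mul, abs_of_nonneg (by positivity : (0 : ℝ) ≤ 2 * n)]
    have h3 : |2 * n * c| - |b| ≤ |b + 2 * n * c| := by
      have := abs_sub_abs_le_abs_sub (2 * n * c) (-b)
      rw [abs_neg] at this
      have e : 2 * n * c - -b = b + 2 * n * c := by ring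
      rw [e] at this
      exact this
    rw [h2] at h3
    linarith

lemma mom_growth (m b c : ℕ → ℝ) (J : ℕ) (hne : b J ≠ 0 ∨ c (J + 1) ≠ 0)
    (hrec : ∀ n, 1 ≤ n → ∑ j ∈ Finset.range (J + 1), (b j + 2 * n * c (j + 1)) * m (n + j) +
      2 * n * c 0 * m (n - 1) = 0) :
    ∃ D K : ℝ, 0 ≤ D ∧ 1 ≤ K ∧ ∀ n, |m n| ≤ D * K ^ n * (Nat.factorial n : ℝ) := by
  obtain ⟨κ, hκ, n0, hn0⟩ := lead_bound (b J) (c (J + 1)) hne
  set U : ℝ := ∑ j ∈ Finset.range (J + 1), (|b j| + 2 * |c j| + 2 * |c (j + 1)|) with hU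
  have hU0 : 0 ≤ U := Finset.sum_nonneg fun i _ => by positivity
  have hUj : ∀ j ∈ Finset.range (J + 1), |b j| + 2 * |c j| + 2 * |c (j + 1)| ≤ U := fun j hj =>
    Finset.single_le_sum (f := fun j => |b j| + 2 * |c j| + 2 * |c (j + 1)|)
      (fun i _ => by positivity) hj
  apply rec_growth m J (n0 + 1 + J) (U / κ) (by positivity) (by omega)
  intro N hN
  obtain ⟨n, rfl⟩ : ∃ n, N = n + J := ⟨N - J, by omega⟩
  have hn1 : 1 ≤ n := by omega
  have hn : n0 ≤ n := by omega
  have hnR : (1 : ℝ) ≤ n := by exact_mod_cast hn1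
  have h1 := hrec n hn1
  rw [Finset.sum_range_succ] at h1
  have h2 := hn0 n hn
  have h3 : (b J + 2 * n * c (J + 1)) * m (n + J) =
      -(∑ j ∈ Finset.range J, (b j + 2 * n * c (j + 1)) * m (n + j) + 2 * n * c 0 * m (n - 1)) := by
    linarith
  have h4 : |b J + 2 * n * c (J + 1)| * |m (n + J)| ≤
      ∑ j ∈ Finset.range J, U * n * |m (n + j)| + U * n * |m (n - 1)| := by
    rw [← abs_mul, h3, abs_neg]
    refine (abs_add_le _ _).trans (add_le_add ?_ ?_)
    · refine (Finset.abs_sum_le_sum_abs _ _).trans (Finset.sum_le_sum fun j hj => ?_)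
      rw [abs_mul]
      apply mul_le_mul_of_nonneg_right _ (abs_nonneg _)
      have hj' := hUj j (Finset.mem_range.2 (by have := Finset.mem_range.1 hj; omega))
      calc |b j + 2 * n * c (j + 1)| ≤ |b j| + |2 * n * c (j + 1)| := abs_add_le _ _
        _ = |b j| + 2 * n * |c (j + 1)| := by
            rw [abs_mul (2 * (n : ℝ)), abs_of_nonneg (by positivity : (0 : ℝ) ≤ 2 * n)]
        _ ≤ |b j| * n + 2 * n * |c (j + 1)| := by
            have : |b j| * 1 ≤ |b j| * n := mul_le_mul_of_nonneg_left hnR (abs_nonneg _)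
            linarith
        _ ≤ (|b j| + 2 * |c j| + 2 * |c (j + 1)|) * n := by
            have : 0 ≤ 2 * |c j| * n := by positivity
            nlinarith
        _ ≤ U * n := mul_le_mul_of_nonneg_right hj' (by positivity)
    · rw [abs_mul]
      apply mul_le_mul_of_nonneg_right _ (abs_nonneg _)
      have hj' := hUj 0 (Finset.mem_range.2 (by omega))
      rw [abs_mul, abs_of_nonneg (by positivity : (0 : ℝ) ≤ 2 * n)]
      calc 2 * n * |c 0| ≤ (|b 0| + 2 * |c 0| + 2 * |c (0 + 1)|) * n := by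
            have h5 : 0 ≤ |b 0| * n := by positivity
            have h6 : 0 ≤ 2 * |c (0 + 1)| * n := by positivity
            nlinarith
        _ ≤ U * n := mul_le_mul_of_nonneg_right hj' (by positivity)
  have h5 : ∑ j ∈ Finset.range J, U * n * |m (n + j)| + U * n * |m (n - 1)| =
      U * n * ∑ j ∈ Finset.range (J + 1), |m (n + J - 1 - j)| := by
    rw [Finset.mul_sum, Finset.sum_range_succ]
    congr 1
    · rw [← Finset.sum_range_reflect]
      apply Finset.sum_congr rfl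
      intro j hj
      have := Finset.mem_range.1 hj
      congr 3
      omega
    · congr 3
      omega
  rw [h5] at h4
  have h6 : 0 ≤ ∑ j ∈ Finset.range (J + 1), |m (n + J - 1 - j)| :=
    Finset.sum_nonneg fun i _ => abs_nonneg _
  have h7 : κ * |m (n + J)| ≤ |b J + 2 * n * c (J + 1)| * |m (n + J)| :=
    mul_le_mul_of_nonneg_right h2 (abs_nonneg _)
  have h8 : κ * |m (n + J)| ≤ U * n * ∑ j ∈ Finset.range (J + 1), |m (n + J - 1 - j)| := h7.trans h4
  have h9 : |m (n + J)| ≤ (U * n * ∑ j ∈ Finset.range (J + 1), |m (n + J - 1 - j)|) / κ := by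
    rw [le_div_iff₀ hκ, mul_comm]
    exact h8
  refine h9.trans ?_
  have h10 : (n : ℝ) ≤ ((n + J : ℕ) : ℝ) := by exact_mod_cast Nat.le_add_right n J
  calc (U * n * ∑ j ∈ Finset.range (J + 1), |m (n + J - 1 - j)|) / κ
      = U / κ * n * ∑ j ∈ Finset.range (J + 1), |m (n + J - 1 - j)| := by ring
    _ ≤ U / κ * ((n + J : ℕ) : ℝ) * ∑ j ∈ Finset.range (J + 1), |m (n + J - 1 - j)| := by
        apply mul_le_mul_of_nonneg_right _ h6
        apply mul_le_mul_of_nonneg_left h10
        positivity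

/-- values of a linear functional on `P * X ^ n` -/
lemma lin_mul_pow (Φ : ℝ[X] →ₗ[ℝ] ℝ) (P : ℝ[X]) (N : ℕ) (hP : P.natDegree < N) (n : ℕ) :
    Φ (P * X ^ n) = ∑ j ∈ Finset.range N, P.coeff j * Φ (X ^ (n + j)) := by
  conv_lhs => rw [P.as_sum_range_C_mul_X_pow' hP]
  rw [Finset.sum_mul, map_sum]
  apply Finset.sum_congr rfl
  intro j _
  rw [mul_assoc, ← pow_add, ← smul_eq_C_mul, map_smul, smul_eq_mul, add_comm j n]

lemma func_growth (Φ : ℝ[X] →ₗ[ℝ] ℝ) (a3 a4 : ℝ[X]) (h0 : Φ 1 ≠ 0) (h4 : a4 ≠ 0)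
    (hE : ∀ g, Φ (a3 * g + 2 * a4 * derivative g) = 0) :
    ∃ D K : ℝ, 0 ≤ D ∧ 1 ≤ K ∧ ∀ n, |Φ (X ^ n)| ≤ D * K ^ n * (Nat.factorial n : ℝ) := by
  have key : ∃ J : ℕ, a3.natDegree ≤ J ∧ a4.natDegree ≤ J + 1 ∧ (a3.coeff J ≠ 0 ∨ a4.coeff (J + 1) ≠ 0) := by
    rcases le_or_gt a4.natDegree a3.natDegree with hle | hlt
    · rcases eq_or_ne a3 0 with h3 | h3
      · exfalso
        rw [h3, natDegree_zero] at hle
        have e4 := eq_C_of_natDegree_le_zero hle
        have h1 := hE X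
        have two : (2 : ℝ[X]) = C 2 := (map_ofNat C 2).symm
        rw [h3, zero_mul, zero_add, derivative_X, mul_one, e4, two, ← C_mul] at h1
        have e1 : (C (2 * a4.coeff 0) : ℝ[X]) = (2 * a4.coeff 0) • 1 := by
          rw [smul_eq_C_mul, mul_one]
        rw [e1, map_smul, smul_eq_mul] at h1
        have h5 : a4.coeff 0 ≠ 0 := fun h => h4 (by rw [e4, h, C_0])
        rcases mul_eq_zero.1 h1 with h | h
        · exact h5 (by linarith)
        · exact h0 h
      · exact ⟨a3.natDegree, le_rfl, by omega, Or.inl (leadingCoeff_ne_zero.2 h3)⟩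
    · refine ⟨a4.natDegree - 1, by omega, by omega, Or.inr ?_⟩
      rw [show a4.natDegree - 1 + 1 = a4.natDegree by omega]
      exact leadingCoeff_ne_zero.2 h4
  obtain ⟨J, hJ3, hJ4, hJ⟩ := key
  apply mom_growth (fun n => Φ (X ^ n)) a3.coeff a4.coeff J hJ
  intro n hn
  have h1 := hE (X ^ n)
  have two : (2 : ℝ[X]) = C 2 := (map_ofNat C 2).symm
  have e1 : 2 * a4 * derivative (X ^ n : ℝ[X]) = (2 * (n : ℝ)) • (a4 * X ^ (n - 1)) := by
    rw [derivative_X_pow, two, smul_eq_C_mul, C_mul]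
    ring
  rw [map_add, e1, map_smul, lin_mul_pow Φ a3 (J + 1) (by omega) n,
    lin_mul_pow Φ a4 (J + 1 + 1) (by omega) (n - 1), Finset.sum_range_succ' _ (J + 1), smul_eq_mul,
    mul_add, Finset.mul_sum, ← add_assoc, ← Finset.sum_add_distrib] at h1
  rw [← h1]
  simp only [add_zero]
  congr 1
  · apply Finset.sum_congr rfl
    intro j _
    rw [show n - 1 + (j + 1) = n + j by omega]
    ring
  · ring

lemma growth_mul (Φ : ℝ[X] →ₗ[ℝ] ℝ) (P : ℝ[X]) (D K : ℝ) (hD : 0 ≤ D) (hK : 1 ≤ K)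
    (h : ∀ n, |Φ (X ^ n)| ≤ D * K ^ n * (Nat.factorial n : ℝ)) :
    ∃ D' K' : ℝ, 0 ≤ D' ∧ 1 ≤ K' ∧ ∀ n, |Φ (P * X ^ n)| ≤ D' * K' ^ n * (Nat.factorial n : ℝ) := by
  refine ⟨∑ j ∈ Finset.range (P.natDegree + 1), |P.coeff j| * (D * (2 * K) ^ j * (Nat.factorial j : ℝ)),
    2 * K, Finset.sum_nonneg fun i _ => by positivity, by linarith, fun n => ?_⟩
  rw [lin_mul_pow Φ P (P.natDegree + 1) (Nat.lt_succ_self _) n]
  refine (Finset.abs_sum_le_sum_abs _ _).trans ?_
  rw [Finset.sum_mul, Finset.sum_mul]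
  apply Finset.sum_le_sum
  intro j _
  rw [abs_mul, mul_assoc, mul_assoc]
  apply mul_le_mul_of_nonneg_left _ (abs_nonneg _)
  refine (h (n + j)).trans ?_
  have h1 : (Nat.factorial (n + j) : ℝ) ≤ 2 ^ (n + j) * (Nat.factorial n : ℝ) * (Nat.factorial j : ℝ) := by
    rw [← Nat.add_choose_mul_factorial_mul_factorial n j]
    push_cast
    gcongr
    exact_mod_cast Nat.choose_le_two_pow (n + j) j
  calc D * K ^ (n + j) * (Nat.factorial (n + j) : ℝ)
      ≤ D * K ^ (n + j) * (2 ^ (n + j) * (Nat.factorial n : ℝ) * (Nat.factorial j : ℝ)) := by gcongr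
    _ = D * (2 * K) ^ j * (Nat.factorial j : ℝ) * ((2 * K) ^ n * (Nat.factorial n : ℝ)) := by
        rw [mul_pow, mul_pow, pow_add, pow_add]
        ring

/-- integration against a measure with finite moments, as a linear functional -/
noncomputable def Lf (μ : Measure ℝ) (hμ : ∀ k : ℕ, Integrable (fun x : ℝ => x ^ k) μ) :
    ℝ[X] →ₗ[ℝ] ℝ where
  toFun P := ∫ x, P.eval x ∂μ
  map_add' P Q := by
    have hi : ∀ P : ℝ[X], Integrable (fun x => P.eval x) μ := by
      intro P
      induction P using Polynomial.induction_on' with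
      | add p q hp hq =>
        refine (hp.add hq).congr (Eventually.of_forall fun x => ?_)
        simp [eval_add]
      | monomial n a =>
        simp only [eval_monomial]
        exact (hμ n).const_mul a
    simp only [eval_add]
    exact integral_add (hi P) (hi Q)
  map_smul' c P := by
    simp only [eval_smul, smul_eq_mul, RingHom.id_apply]
    rw [integral_const_mul]

lemma poly_integrable (μ : Measure ℝ) (hμ : ∀ k : ℕ, Integrable (fun x : ℝ => x ^ k) μ) (P : ℝ[X]) :
    Integrable (fun x => P.eval x) μ := by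
  induction P using Polynomial.induction_on' with
  | add p q hp hq =>
    refine (hp.add hq).congr (Eventually.of_forall fun x => ?_)
    simp [eval_add]
  | monomial n a =>
    simp only [eval_monomial]
    exact (hμ n).const_mul a

lemma Lf_apply (μ : Measure ℝ) (hμ : ∀ k : ℕ, Integrable (fun x : ℝ => x ^ k) μ) (P : ℝ[X]) :
    Lf μ hμ P = ∫ x, P.eval x ∂μ := rfl

lemma fin_of_mom (μ : Measure ℝ) (hμ : ∀ k : ℕ, Integrable (fun x : ℝ => x ^ k) μ) :
    IsFiniteMeasure μ := by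
  have h := hμ 0
  simp only [pow_zero] at h
  rcases integrable_const_iff.1 h with h | h
  · simp at h
  · exact h

/-- the two orthogonality relations give the data -/
theorem exists_KD (φ ψ η : Measure ℝ) (p : ℕ → ℝ[X])
    (hφ : ∀ k : ℕ, Integrable (fun x : ℝ => x ^ k) φ)
    (hψ : ∀ k : ℕ, Integrable (fun x : ℝ => x ^ k) ψ)
    (hη : ∀ k : ℕ, Integrable (fun x : ℝ => x ^ k) η)
    (hinf : ∀ s : Finset ℝ, φ ((↑s : Set ℝ)ᶜ) ≠ 0) (hη0 : η ≠ 0)
    (hp : ∀ n, (p n).degree = (n : WithBot ℕ))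
    (ho : ∀ n m, n ≠ m → ∫ x, (p n).eval x * (p m).eval x ∂φ = 0)
    (hn : ∀ n, ∫ x, (p n).eval x * (p n).eval x ∂φ ≠ 0)
    (hS : ∀ n m, n ≠ m → ∫ x, (p n).eval x * (p m).eval x ∂φ +
      ∫ x, (derivative (p n)).eval x * (derivative (p m)).eval x ∂ψ +
      ∫ x, (derivative (derivative (p n))).eval x * (derivative (derivative (p m))).eval x ∂η = 0) :
    ∃ a1 a2 a3 a4 : ℝ[X], KD φ a1 a2 a3 a4 := by
  have hφf := fin_of_mom φ hφ
  have hηf := fin_of_mom η hη
  obtain ⟨a1, a2, a3, a4, d1, d2, d3, d4, hE, hF, hH⟩ := alg (Lf φ hφ) (Lf ψ hψ) (Lf η hη) p hp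
    (fun n m h => by simpa [Lf_apply] using ho n m h)
    (fun n => by simpa [Lf_apply] using hn n)
    (fun n m h => by simpa [Lf_apply] using hS n m h)
  have hφ0 : Lf φ hφ 1 ≠ 0 := by
    rw [Lf_apply]
    simp only [eval_one, integral_const, smul_eq_mul, mul_one]
    have h1 := hinf ∅
    simp only [Finset.coe_empty, compl_empty] at h1
    rw [Measure.real, ENNReal.toReal_ne_zero]
    exact ⟨h1, measure_ne_top _ _⟩
  have h4 : a4 ≠ 0 := by
    intro h0
    have h1 := hH 1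
    rw [h0, zero_mul, map_zero, Lf_apply] at h1
    simp only [eval_one, integral_const, smul_eq_mul, mul_one] at h1
    rw [Measure.real, ENNReal.toReal_eq_zero_iff] at h1
    rcases h1 with h1 | h1
    · exact hη0 (Measure.measure_univ_eq_zero.1 h1)
    · exact measure_ne_top _ _ h1
  obtain ⟨D, K, hD, hK, hg⟩ := func_growth (Lf φ hφ) a3 a4 hφ0 h4 hE
  obtain ⟨D', K', hD', hK', hg'⟩ := growth_mul (Lf φ hφ) a4 D K hD hK hg
  have hexp := expmom φ hφ D K hD (by linarith) (fun n => by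
    have := (le_abs_self _).trans (hg (2 * n))
    simpa [Lf_apply] using this)
  have hexp' := expmom η hη D' K' hD' (by linarith) (fun n => by
    have h1 := hH (X ^ (2 * n))
    have := (le_abs_self _).trans (hg' (2 * n))
    rw [← h1] at this
    simpa [Lf_apply] using this)
  set δ1 := 1 / (2 * K) with hδ1
  set δ2 := 1 / (2 * K') with hδ2
  have hδ1' : 0 < δ1 := by positivity
  have hδ2' : 0 < δ2 := by positivity
  set δ := min (δ1 / 2) δ2 with hδ
  have hδ' : 0 < δ := lt_min (by positivity) hδ2'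
  have hpos : ∀ᵐ x ∂φ, 0 ≤ a4.eval x := by
    apply ae_nonneg_of_forall_setIntegral_nonneg (poly_integrable φ hφ a4)
    intro E hE' _
    have h1 := det2 φ η (fun x => a4.eval x) (fun _ => 1) δ hδ' (by fun_prop) (by fun_prop) ?_ ?_ ?_ E hE'
    · rw [h1]
      exact integral_nonneg fun _ => zero_le_one
    · refine (poly_exp_int φ δ1 hδ1' hexp a4).mono (by fun_prop) (Eventually.of_forall fun y => ?_)
      rw [norm_mul, norm_mul, Real.norm_eq_abs, Real.norm_eq_abs, Real.norm_eq_abs,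
        abs_of_pos (Real.exp_pos _), abs_of_pos (Real.exp_pos _)]
      apply mul_le_mul_of_nonneg_right _ (abs_nonneg _)
      apply Real.exp_le_exp.2
      exact mul_le_mul_of_nonneg_right (min_le_left _ _) (abs_nonneg _)
    · refine hexp'.mono (by fun_prop) (Eventually.of_forall fun y => ?_)
      rw [norm_mul, norm_one, mul_one, Real.norm_eq_abs, Real.norm_eq_abs,
        abs_of_pos (Real.exp_pos _), abs_of_pos (Real.exp_pos _)]
      apply Real.exp_le_exp.2
      exact mul_le_mul_of_nonneg_right (min_le_right _ _) (abs_nonneg _)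
    · intro n
      have h2 := hH (X ^ n)
      rw [Lf_apply, Lf_apply] at h2
      simp only [eval_mul, eval_pow, eval_X] at h2
      simp only [mul_one]
      rw [h2]
      congr 1
      ext x
      ring
  exact ⟨a1, a2, a3, a4, hφf, ⟨δ1, hδ1', hexp⟩, hinf, d1, d2, d3, d4, h4, hpos, hE, hF⟩

end Pool.Agent.W2helper99.Kr
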