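import Pool.Agent.W2helper99.Kr.Inf

/-!
# The four shapes of `a4`
-/

set_option autoImplicit false
open MeasureTheory Set Filter Topology Polynomial

namespace Pool.Agent.W2helper99.Kr

lemma isolate (P : ℝ[X]) (hP : P ≠ 0) (c : ℝ) :
    ∃ ε > 0, ∀ x ∈ Ioo (c - ε) (c + ε), x ≠ c → P.eval x ≠ 0 := by
  have hfin : ({x | P.eval x = 0} \ {c} : Set ℝ).Finite := by
    apply Set.Finite.subset (s := {x | P.IsRoot x})
    · exact P.finite_setOfPred_isRoot hP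
    · intro x hx; exact hx.1
  have hopen : IsOpen ({x | P.eval x = 0} \ {c} : Set ℝ)ᶜ := hfin.isClosed.isOpen_compl
  have hmem : c ∈ ({x | P.eval x = 0} \ {c} : Set ℝ)ᶜ := by simp
  obtain ⟨ε, hε, hb⟩ := Metric.isOpen_iff.1 hopen c hmem
  refine ⟨ε, hε, fun x hx hxc h0 => ?_⟩
  have h1 : x ∈ Metric.ball c ε := by
    rw [Metric.mem_ball, Real.dist_eq, abs_lt]
    constructor <;> linarith [hx.1, hx.2]
  exact hb h1 ⟨h0, hxc⟩

lemma double_root (P : ℝ[X]) (c : ℝ) (h0 : P.eval c = 0) (h1 : (derivative P).eval c = 0) :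
    (X - C c) ^ 2 ∣ P := by
  obtain ⟨q, hq⟩ := dvd_iff_isRoot.2 h0
  have h2 : q.eval c = 0 := by
    rw [hq] at h1
    simpa using h1
  obtain ⟨r, hr⟩ := dvd_iff_isRoot.2 h2
  exact ⟨r, by rw [hq, hr]; ring⟩

variable {φ : Measure ℝ} {a1 a2 a3 a4 : ℝ[X]}

lemma KD.right_end (h : KD φ a1 a2 a3 a4) (hz : ∃ M, ∀ x, M < x → AA φ a1 a2 x = 0) :
    ∃ β, (X - C β) ^ 2 ∣ a4 ∧ (NN a3 a4).eval β = 0 ∧ (∀ x, β ≤ x → AA φ a1 a2 x = 0) ∧
      (∀ ε > 0, ∃ x ∈ Ioo (β - ε) β, AA φ a1 a2 x ≠ 0) := by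
  obtain ⟨M, hM⟩ := hz
  set S : Set ℝ := {x | AA φ a1 a2 x ≠ 0} with hS
  have hSne : S.Nonempty := by obtain ⟨x, _, hx⟩ := h.exists_A; exact ⟨x, hx⟩
  have hSb : BddAbove S := ⟨M, fun x hx => by
    by_contra hcon
    exact hx (hM x (not_le.1 hcon))⟩
  have hSo : IsOpen S := isOpen_ne_fun h.A_cont continuous_const
  set β := sSup S with hβ
  have hβ0 : AA φ a1 a2 β = 0 := by
    by_contra hcon
    obtain ⟨ε, hε, hb⟩ := Metric.isOpen_iff.1 hSo β hcon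
    have h1 : β + ε / 2 ∈ S := hb (by
      rw [Metric.mem_ball, Real.dist_eq, abs_lt]; constructor <;> linarith)
    have := le_csSup hSb h1
    linarith
  have hge : ∀ x, β ≤ x → AA φ a1 a2 x = 0 := by
    intro x hx
    by_contra hcon
    have h1 := le_csSup hSb (show x ∈ S from hcon)
    exact hcon (by rw [le_antisymm h1 hx]; exact hβ0)
  have happ : ∀ ε > 0, ∃ x ∈ Ioo (β - ε) β, AA φ a1 a2 x ≠ 0 := by
    intro ε hε
    obtain ⟨x, hx, hlt⟩ := exists_lt_of_lt_csSup hSne (show β - ε < sSup S by rw [← hβ]; linarith)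
    refine ⟨x, ⟨hlt, lt_of_le_of_ne (le_csSup hSb hx) ?_⟩, hx⟩
    intro heq
    exact hx (by rw [heq]; exact hβ0)
  have ha4 : a4.eval β = 0 := by
    by_contra hcon
    obtain ⟨ε, hε, hb⟩ := nhd_of_ne a4 β hcon
    obtain ⟨x, hx, hxA⟩ := happ ε hε
    have := h.W_ne_prop (Ioo (β - ε) (β + ε)) isOpen_Ioo ordConnected_Ioo
      (fun y hy => hb y ⟨hy.1.le, hy.2.le⟩) x ⟨hx.1, by linarith [hx.2]⟩ hxA β
      ⟨by linarith, by linarith⟩
    apply this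
    unfold WW
    rw [hβ0, zero_div]
  obtain ⟨ε, hε, hiso⟩ := isolate a4 h.ne β
  obtain ⟨hd, hN⟩ := h.E3 β ε hε (Ioo (β - ε) β) (Ioo β (β + ε)) (Or.inr ⟨rfl, rfl⟩) hiso
    (fun x hx => hge x hx.1.le) (happ ε hε) ha4
  exact ⟨β, double_root a4 β ha4 hd, hN, hge, happ⟩

lemma KD.left_end (h : KD φ a1 a2 a3 a4) (hz : ∃ M, ∀ x, x < M → AA φ a1 a2 x = 0) :
    ∃ α, (X - C α) ^ 2 ∣ a4 ∧ (NN a3 a4).eval α = 0 ∧ (∀ x, x ≤ α → AA φ a1 a2 x = 0) ∧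
      (∀ ε > 0, ∃ x ∈ Ioo α (α + ε), AA φ a1 a2 x ≠ 0) := by
  obtain ⟨M, hM⟩ := hz
  set S : Set ℝ := {x | AA φ a1 a2 x ≠ 0} with hS
  have hSne : S.Nonempty := by obtain ⟨x, _, hx⟩ := h.exists_A; exact ⟨x, hx⟩
  have hSb : BddBelow S := ⟨M, fun x hx => by
    by_contra hcon
    exact hx (hM x (not_le.1 hcon))⟩
  have hSo : IsOpen S := isOpen_ne_fun h.A_cont continuous_const
  set α := sInf S with hα
  have hα0 : AA φ a1 a2 α = 0 := by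
    by_contra hcon
    obtain ⟨ε, hε, hb⟩ := Metric.isOpen_iff.1 hSo α hcon
    have h1 : α - ε / 2 ∈ S := hb (by
      rw [Metric.mem_ball, Real.dist_eq, abs_lt]; constructor <;> linarith)
    have := csInf_le hSb h1
    linarith
  have hle : ∀ x, x ≤ α → AA φ a1 a2 x = 0 := by
    intro x hx
    by_contra hcon
    have h1 := csInf_le hSb (show x ∈ S from hcon)
    exact hcon (by rw [le_antisymm hx h1]; exact hα0)
  have happ : ∀ ε > 0, ∃ x ∈ Ioo α (α + ε), AA φ a1 a2 x ≠ 0 := by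
    intro ε hε
    obtain ⟨x, hx, hlt⟩ := exists_lt_of_csInf_lt hSne (show sInf S < α + ε by rw [← hα]; linarith)
    refine ⟨x, ⟨lt_of_le_of_ne (csInf_le hSb hx) ?_, hlt⟩, hx⟩
    intro heq
    exact hx (by rw [← heq]; exact hα0)
  have ha4 : a4.eval α = 0 := by
    by_contra hcon
    obtain ⟨ε, hε, hb⟩ := nhd_of_ne a4 α hcon
    obtain ⟨x, hx, hxA⟩ := happ ε hε
    have := h.W_ne_prop (Ioo (α - ε) (α + ε)) isOpen_Ioo ordConnected_Ioo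
      (fun y hy => hb y ⟨hy.1.le, hy.2.le⟩) x ⟨by linarith [hx.1], hx.2⟩ hxA α
      ⟨by linarith, by linarith⟩
    apply this
    unfold WW
    rw [hα0, zero_div]
  obtain ⟨ε, hε, hiso⟩ := isolate a4 h.ne α
  obtain ⟨hd, hN⟩ := h.E3 α ε hε (Ioo α (α + ε)) (Ioo (α - ε) α) (Or.inl ⟨rfl, rfl⟩) hiso
    (fun x hx => hle x hx.2.le) (happ ε hε) ha4
  exact ⟨α, double_root a4 α ha4 hd, hN, hle, happ⟩

lemma const_of_dvd (P D : ℝ[X]) (hP : P ≠ 0) (hD : D.Monic) (hdvd : D ∣ P)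
    (hdeg : P.natDegree ≤ D.natDegree) : ∃ k : ℝ, k ≠ 0 ∧ P = C k * D := by
  obtain ⟨q, hq⟩ := hdvd
  have hq0 : q ≠ 0 := by rintro rfl; exact hP (by rw [hq, mul_zero])
  have h1 : P.natDegree = D.natDegree + q.natDegree := by
    rw [hq, hD.natDegree_mul' hq0]
  have h2 : q.natDegree = 0 := by omega
  rw [eq_C_of_natDegree_eq_zero h2] at hq hq0
  exact ⟨q.coeff 0, fun h0 => hq0 (by rw [h0, C_0]), by rw [hq, mul_comm]⟩

/-- the four shapes -/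
theorem KD.cases (h : KD φ a1 a2 a3 a4) :
    (∃ α β k : ℝ, α < β ∧ k ≠ 0 ∧ a4 = C k * ((X - C α) ^ 2 * (X - C β) ^ 2) ∧
      (NN a3 a4).eval α = 0 ∧ (NN a3 a4).eval β = 0 ∧ (∀ x, x ≤ α → AA φ a1 a2 x = 0) ∧
      (∀ x, β ≤ x → AA φ a1 a2 x = 0) ∧ (∀ x ∈ Ioo α β, AA φ a1 a2 x ≠ 0)) ∨
    (∃ α k : ℝ, k ≠ 0 ∧ a4 = C k * (X - C α) ^ 2 ∧ (NN a3 a4).eval α = 0 ∧ a3.natDegree ≤ 2 ∧
      (NN a3 a4).natDegree ≤ 2 ∧ (∀ x, x ≤ α → AA φ a1 a2 x = 0) ∧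
      (∀ x, α < x → AA φ a1 a2 x ≠ 0) ∧ GT a3 a4) ∨
    (∃ β k : ℝ, k ≠ 0 ∧ a4 = C k * (X - C β) ^ 2 ∧ (NN a3 a4).eval β = 0 ∧ a3.natDegree ≤ 2 ∧
      (NN a3 a4).natDegree ≤ 2 ∧ (∀ x, β ≤ x → AA φ a1 a2 x = 0) ∧
      (∀ x, x < β → AA φ a1 a2 x ≠ 0) ∧ GB a3 a4) ∨
    (∃ k : ℝ, k ≠ 0 ∧ a4 = C k ∧ (NN a3 a4).natDegree ≤ 1 ∧ (∀ x, AA φ a1 a2 x ≠ 0) ∧
      GT a3 a4 ∧ GB a3 a4) := by
  obtain ⟨M1, hM1⟩ := eventually_atTop.1 (eventually_atTop_not_isRoot a4 h.ne)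
  obtain ⟨M2, hM2⟩ := eventually_atBot.1 (eventually_atBot_not_isRoot a4 h.ne)
  have hr : ∀ x, M1 < x → a4.eval x ≠ 0 := fun x hx => hM1 x hx.le
  have hl : ∀ x, x < -(-M2) → a4.eval x ≠ 0 := fun x hx => hM2 x (by linarith)
  have hAw : ∀ x, WW φ a1 a2 a4 x ≠ 0 → AA φ a1 a2 x ≠ 0 := fun x hx h0 => hx (by
    unfold WW; rw [h0, zero_div])
  have hRz : (¬ ∃ x, M1 < x ∧ AA φ a1 a2 x ≠ 0) → ∃ M, ∀ x, M < x → AA φ a1 a2 x = 0 := by
    intro hcon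
    push Not at hcon
    exact ⟨M1, hcon⟩
  have hLz : (¬ ∃ x, x < -(-M2) ∧ AA φ a1 a2 x ≠ 0) → ∃ M, ∀ x, x < M → AA φ a1 a2 x = 0 := by
    intro hcon
    push Not at hcon
    exact ⟨_, hcon⟩
  by_cases hR : ∃ x, M1 < x ∧ AA φ a1 a2 x ≠ 0 <;> by_cases hL : ∃ x, x < -(-M2) ∧ AA φ a1 a2 x ≠ 0
  · -- both infinite
    right; right; right
    obtain ⟨x1, hx1, hA1⟩ := hR
    obtain ⟨x2, hx2, hA2⟩ := hL
    have ht := h.gt M1 hr x1 hx1 hA1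
    have hb := h.gb (-M2) hl x2 hx2 hA2
    have hlt := two_sided h.ne ht hb
    obtain ⟨hc1, hc2⟩ := h.deg_constraint hlt.le
    have hn : a4.natDegree < a3.natDegree := by
      apply natDegree_lt_natDegree h.ne hlt
    have hd0 : a4.natDegree = 0 := by omega
    have he1 : a3.natDegree ≤ 1 := by omega
    have e4 := eq_C_of_natDegree_eq_zero hd0
    have hk : a4.coeff 0 ≠ 0 := fun h0 => h.ne (by rw [e4, h0, C_0])
    have hne : ∀ x, a4.eval x ≠ 0 := fun x => by rw [e4, eval_C]; exact hk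
    refine ⟨a4.coeff 0, hk, e4, hc2.trans he1, fun x => ?_, ht, hb⟩
    exact hAw x (h.W_ne_prop univ isOpen_univ ordConnected_univ (fun y _ => hne y) x1 (mem_univ _) hA1 x
      (mem_univ _))
  · -- right infinite
    right; left
    obtain ⟨x1, hx1, hA1⟩ := hR
    have ht := h.gt M1 hr x1 hx1 hA1
    obtain ⟨α, hdvd, hN, hz, happ⟩ := h.left_end (hLz hL)
    obtain ⟨hc1, hc2⟩ := h.deg_constraint (ht.deg h.ne)
    have hdn : a4.natDegree ≤ a3.natDegree := natDegree_le_natDegree (ht.deg h.ne)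
    have hmon : ((X - C α) ^ 2 : ℝ[X]).Monic := (monic_X_sub_C α).pow 2
    have hnd : ((X - C α) ^ 2 : ℝ[X]).natDegree = 2 := by
      rw [(monic_X_sub_C α).natDegree_pow, natDegree_X_sub_C]
    obtain ⟨k, hk, e4⟩ := const_of_dvd a4 _ h.ne hmon hdvd (by rw [hnd]; omega)
    have hne : ∀ x, α < x → a4.eval x ≠ 0 := by
      intro x hx
      rw [e4]
      simp only [eval_mul, eval_C, eval_pow, eval_sub, eval_X]
      exact mul_ne_zero hk (pow_ne_zero 2 (sub_ne_zero.2 hx.ne'))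
    obtain ⟨x0, hx0, hA0⟩ := happ 1 one_pos
    refine ⟨α, k, hk, e4, hN, by omega, by omega, hz, fun x hx => ?_, ht⟩
    exact hAw x (h.W_ne_prop (Ioi α) isOpen_Ioi ordConnected_Ioi (fun y hy => hne y hy) x0 hx0.1 hA0 x hx)
  · right; right; left
    obtain ⟨x1, hx1, hA1⟩ := hL
    have ht := h.gb (-M2) hl x1 hx1 hA1
    obtain ⟨β, hdvd, hN, hz, happ⟩ := h.right_end (hRz hR)
    obtain ⟨hc1, hc2⟩ := h.deg_constraint (ht.deg h.ne)
    have hdn : a4.natDegree ≤ a3.natDegree := natDegree_le_natDegree (ht.deg h.ne)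
    have hmon : ((X - C β) ^ 2 : ℝ[X]).Monic := (monic_X_sub_C β).pow 2
    have hnd : ((X - C β) ^ 2 : ℝ[X]).natDegree = 2 := by
      rw [(monic_X_sub_C β).natDegree_pow, natDegree_X_sub_C]
    obtain ⟨k, hk, e4⟩ := const_of_dvd a4 _ h.ne hmon hdvd (by rw [hnd]; omega)
    have hne : ∀ x, x < β → a4.eval x ≠ 0 := by
      intro x hx
      rw [e4]
      simp only [eval_mul, eval_C, eval_pow, eval_sub, eval_X]
      exact mul_ne_zero hk (pow_ne_zero 2 (sub_ne_zero.2 hx.ne))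
    obtain ⟨x0, hx0, hA0⟩ := happ 1 one_pos
    refine ⟨β, k, hk, e4, hN, by omega, by omega, hz, fun x hx => ?_, ht⟩
    exact hAw x (h.W_ne_prop (Iio β) isOpen_Iio ordConnected_Iio (fun y hy => hne y hy) x0 hx0.2 hA0 x hx)
  · left
    obtain ⟨α, hdvd1, hN1, hz1, happ1⟩ := h.left_end (hLz hL)
    obtain ⟨β, hdvd2, hN2, hz2, happ2⟩ := h.right_end (hRz hR)
    have hlt : α < β := by
      by_contra hcon
      obtain ⟨x0, hx0, hA0⟩ := happ1 1 one_pos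
      exact hA0 (hz2 x0 ((not_lt.1 hcon).trans hx0.1.le))
    have hcop : IsCoprime ((X - C α) ^ 2 : ℝ[X]) ((X - C β) ^ 2) :=
      (isCoprime_X_sub_C_of_isUnit_sub (sub_ne_zero.2 hlt.ne).isUnit).pow
    have hdvd := hcop.mul_dvd hdvd1 hdvd2
    have hmon : ((X - C α) ^ 2 * (X - C β) ^ 2 : ℝ[X]).Monic :=
      ((monic_X_sub_C α).pow 2).mul ((monic_X_sub_C β).pow 2)
    have hnd : ((X - C α) ^ 2 * (X - C β) ^ 2 : ℝ[X]).natDegree = 4 := by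
      rw [((monic_X_sub_C α).pow 2).natDegree_mul ((monic_X_sub_C β).pow 2),
        (monic_X_sub_C α).natDegree_pow, (monic_X_sub_C β).natDegree_pow, natDegree_X_sub_C,
        natDegree_X_sub_C]
    obtain ⟨k, hk, e4⟩ := const_of_dvd a4 _ h.ne hmon hdvd (by rw [hnd]; exact h.d4)
    have hne : ∀ x ∈ Ioo α β, a4.eval x ≠ 0 := by
      intro x hx
      rw [e4]
      simp only [eval_mul, eval_C, eval_pow, eval_sub, eval_X]
      exact mul_ne_zero hk (mul_ne_zero (pow_ne_zero 2 (sub_ne_zero.2 hx.1.ne'))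
        (pow_ne_zero 2 (sub_ne_zero.2 hx.2.ne)))
    obtain ⟨x0, hx0, hA0⟩ := happ1 1 one_pos
    have hx0' : x0 ∈ Ioo α β := by
      refine ⟨hx0.1, ?_⟩
      by_contra hcon
      exact hA0 (hz2 x0 (not_lt.1 hcon))
    refine ⟨α, β, k, hlt, hk, e4, hN1, hN2, hz1, hz2, fun x hx => ?_⟩
    exact hAw x (h.W_ne_prop (Ioo α β) isOpen_Ioo ordConnected_Ioo (fun y hy => hne y hy) x0 hx0' hA0 x hx)

end Pool.Agent.W2helper99.Kr
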