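import Pool.Agent.W2helper99.Kr.Dens

/-!
# The conclusion, and the Hermite and Laguerre cases
-/

set_option autoImplicit false
open MeasureTheory Set Filter Topology Polynomial

namespace Pool.Agent.W2helper99.Kr

/-- the classical and Krall measures -/
def Fam (μ : Measure ℝ) : Prop :=
  ((∃ α β : ℝ, -1 < α ∧ -1 < β ∧
      μ = MeasureTheory.volume.withDensity (fun x : ℝ => ENNReal.ofReal
        ((Set.Icc (-1 : ℝ) 1).indicator (fun y : ℝ => (1 - y) ^ α * (1 + y) ^ β) x)))
    ∨ (∃ α : ℝ, -1 < α ∧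
      μ = MeasureTheory.volume.withDensity (fun x : ℝ => ENNReal.ofReal
        ((Set.Ioi (0 : ℝ)).indicator (fun y : ℝ => y ^ α * Real.exp (-y)) x)))
    ∨ (μ = MeasureTheory.volume.withDensity (fun x : ℝ => ENNReal.ofReal
        (Real.exp (-(x ^ 2)))))
    ∨ (∃ A : ℝ, 0 < A ∧
      μ = MeasureTheory.volume.restrict (Set.Icc (-1 : ℝ) 1)
        + ENNReal.ofReal (1 / A) • (MeasureTheory.Measure.dirac (-1 : ℝ)
            + MeasureTheory.Measure.dirac (1 : ℝ)))
    ∨ (∃ R : ℝ, 0 < R ∧
      μ = MeasureTheory.volume.withDensity (fun x : ℝ => ENNReal.ofReal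
        ((Set.Ioi (0 : ℝ)).indicator (fun y : ℝ => Real.exp (-y)) x))
        + ENNReal.ofReal (1 / R) • MeasureTheory.Measure.dirac (0 : ℝ))
    ∨ (∃ α M : ℝ, -1 < α ∧ 0 < M ∧
      μ = MeasureTheory.volume.withDensity (fun x : ℝ => ENNReal.ofReal
        ((Set.Ico (0 : ℝ) 1).indicator (fun y : ℝ => (1 - y) ^ α) x))
        + ENNReal.ofReal (1 / M) • MeasureTheory.Measure.dirac (0 : ℝ)))

/-- the conclusion -/
def Concl (φ : Measure ℝ) : Prop :=
  ∃ μ : Measure ℝ, Fam μ ∧ ∃ a b c : ℝ, a ≠ 0 ∧ c ≠ 0 ∧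
    ∀ f : ℝ[X], ∫ x, f.eval (a * x + b) ∂μ = c * ∫ x, f.eval x ∂φ

lemma ac_map (W w1 : ℝ → ℝ) (hWm : Measurable W) (hW0 : ∀ y, 0 ≤ W y) (a b κ : ℝ) (ha : a ≠ 0)
    (hW : ∀ᵐ y, W y = κ * w1 (a * y + b))
    (hint : ∀ f : ℝ[X], Integrable (fun x => f.eval x * w1 x) volume) (f : ℝ[X]) :
    Integrable (fun y => f.eval (a * y + b)) (volume.withDensity (fun y => ENNReal.ofReal (W y))) ∧
    ∫ y, f.eval (a * y + b) ∂(volume.withDensity (fun y => ENNReal.ofReal (W y))) =
      κ * |a⁻¹| * ∫ x, f.eval x * w1 x := by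
  have hg : Integrable (fun y => f.eval (a * y + b) * w1 (a * y + b)) volume :=
    ((hint f).comp_add_right b).comp_mul_left' ha
  constructor
  · rw [integrable_withDensity_iff (by fun_prop) (Eventually.of_forall fun y => ENNReal.ofReal_lt_top)]
    refine (hg.const_mul κ).congr ?_
    filter_upwards [hW] with y hy
    rw [ENNReal.toReal_ofReal (hW0 y), hy]
    ring
  · rw [integral_withDensity_eq_integral_toReal_smul (by fun_prop)
      (Eventually.of_forall fun y => ENNReal.ofReal_lt_top)]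
    have e1 : ∫ y, (ENNReal.ofReal (W y)).toReal • f.eval (a * y + b) =
        ∫ y, κ * (f.eval (a * y + b) * w1 (a * y + b)) := by
      apply integral_congr_ae
      filter_upwards [hW] with y hy
      rw [ENNReal.toReal_ofReal (hW0 y), smul_eq_mul, hy]
      ring
    rw [e1, integral_const_mul]
    have e2 := Measure.integral_comp_mul_left (fun x => f.eval (x + b) * w1 (x + b)) a
    have e3 := integral_add_right_eq_self (μ := (volume : Measure ℝ)) (fun x => f.eval x * w1 x) b
    rw [e2, e3, smul_eq_mul]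
    ring

lemma ode_unique (S : Set ℝ) (hS : IsOpen S) (hc : S.OrdConnected) (r G G0 : ℝ → ℝ)
    (hr : ContinuousOn r S) (hG : ∀ x ∈ S, HasDerivAt G (r x * G x) x)
    (hG0 : ∀ x ∈ S, HasDerivAt G0 (r x * G0 x) x) (x0 : ℝ) (hx0 : x0 ∈ S) (h0 : G0 x0 ≠ 0) :
    ∀ x ∈ S, G x = (G x0 / G0 x0) * G0 x := by
  intro x hx
  rw [ode_sol S hS hc r G hr hG x0 hx0 x hx, ode_sol S hS hc r G0 hr hG0 x0 hx0 x hx]
  field_simp

variable {φ : Measure ℝ} {a1 a2 a3 a4 : ℝ[X]}

lemma uA_eq (x : ℝ) : uA a3 a4 x = ((NN a3 a4).eval x + (derivative a4).eval x) / a4.eval x := by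
  unfold uA NN
  simp only [eval_sub, eval_mul, eval_C]
  rw [show (1 / 2 * a3.eval x - (derivative a4).eval x + (derivative a4).eval x) = a3.eval x / 2 by ring]
  rw [div_div]

/-- the Hermite case -/
theorem KD.hermite (h : KD φ a1 a2 a3 a4) (k : ℝ) (hk : k ≠ 0) (e4 : a4 = C k)
    (hN : (NN a3 a4).natDegree ≤ 1) (hA : ∀ x, AA φ a1 a2 x ≠ 0) (ht : GT a3 a4) (hb : GB a3 a4) :
    Concl φ := by
  obtain ⟨n1, n0, hNe⟩ := exists_eq_X_add_C_of_natDegree_le_one hN
  have hNx : ∀ x, (NN a3 a4).eval x = n1 * x + n0 := fun x => by rw [hNe]; simp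
  have h4x : ∀ x, a4.eval x = k := fun x => by rw [e4]; simp
  have h4ne : ∀ x, a4.eval x ≠ 0 := fun x => by rw [h4x]; exact hk
  set p := n1 / k with hp
  set q := n0 / k with hq
  have hu : ∀ x, uA a3 a4 x = p * x + q := by
    intro x
    rw [uA_eq, hNx, h4x, e4, derivative_C, eval_zero, add_zero, hp, hq]
    field_simp
  -- p < 0
  have hp0 : p < 0 := by
    by_contra hcon
    push Not at hcon
    rcases hcon.eq_or_lt with h0 | h0
    · rcases le_total 0 q with hq0 | hq0
      · apply ht 0 1 one_pos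
        intro x hx
        rw [hu, ← h0]
        simpa using hq0
      · apply hb 0 1 one_pos
        intro x hx
        rw [hu, ← h0]
        simpa using hq0
    · apply ht 0 (|q| / p + 1) (by positivity)
      intro x hx
      rw [hu]
      have h1 : |q| / p < x := by linarith
      rw [div_lt_iff₀ h0] at h1
      have := neg_abs_le q
      simp only [neg_zero, zero_div]
      nlinarith
  set w0 : ℝ → ℝ := fun x => Real.exp (p / 2 * x ^ 2 + q * x) with hw0
  have hw0d : ∀ x, HasDerivAt w0 ((NN a3 a4).eval x / a4.eval x * w0 x) x := by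
    intro x
    have h1 : HasDerivAt (fun x : ℝ => p / 2 * x ^ 2 + q * x) (p * x + q) x := by
      have := ((hasDerivAt_pow 2 x).const_mul (p / 2)).add ((hasDerivAt_id x).const_mul q)
      convert! this using 1
      simp
      ring
    have h2 := h1.exp
    have e : (NN a3 a4).eval x / a4.eval x = p * x + q := by
      rw [hNx, h4x, hp, hq]
      field_simp
    rw [e, mul_comm]
    exact h2
  have hw := ode_unique univ isOpen_univ ordConnected_univ
    (fun x => (NN a3 a4).eval x / a4.eval x) (WW φ a1 a2 a4) w0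
    (ContinuousOn.div (by fun_prop) (by fun_prop) (fun x _ => h4ne x))
    (fun x _ => h.W_deriv x (h4ne x)) (fun x _ => hw0d x) 0 (mem_univ _) (Real.exp_pos _).ne'
  set K := WW φ a1 a2 a4 0 / w0 0 with hK
  have hKpos : 0 < K := by
    have h1 : 0 ≤ K := div_nonneg (h.W_nonneg 0) (Real.exp_pos _).le
    have h2 : K ≠ 0 := div_ne_zero (div_ne_zero (hA 0) (h4ne 0)) (Real.exp_pos _).ne'
    exact lt_of_le_of_ne h1 h2.symm
  have hwx : ∀ x, WW φ a1 a2 a4 x = K * w0 x := fun x => hw x (mem_univ x)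
  have hUuniv : {x : ℝ | a4.eval x ≠ 0} = univ := by ext x; simp [h4ne x]
  have hUc : {x : ℝ | a4.eval x = 0} = ∅ := by ext x; simp [h4ne x]
  have hfi : ∀ f : ℝ[X], Integrable (fun x => f.eval x * WW φ a1 a2 a4 x) volume := by
    intro f
    have := h.fw_int f
    rwa [hUuniv, integrableOn_univ] at this
  have hdec : ∀ f : ℝ[X], ∫ x, f.eval x ∂φ = ∫ x, f.eval x * WW φ a1 a2 a4 x := by
    intro f
    rw [h.decomp f, hUuniv, hUc, setIntegral_univ, setIntegral_empty, add_zero]
  -- the affine map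
  set a : ℝ := Real.sqrt (-2 / p) with ha
  have hpp : 0 < -2 / p := div_pos_of_neg_of_neg (by norm_num) hp0
  have ha0 : 0 < a := Real.sqrt_pos.2 hpp
  have ha2 : a ^ 2 = -2 / p := Real.sq_sqrt hpp.le
  set b : ℝ := -q / p with hb'
  set c0 : ℝ := -(q ^ 2 / (2 * p)) with hc0
  set κ : ℝ := (K * Real.exp c0)⁻¹ with hκ
  have hκ0 : κ ≠ 0 := by rw [hκ]; positivity
  refine ⟨_, Or.inr (Or.inr (Or.inl rfl)), a, b, κ * |a⁻¹|, ha0.ne', ?_, ?_⟩
  · exact mul_ne_zero hκ0 (abs_ne_zero.2 (inv_ne_zero ha0.ne'))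
  · intro f
    rw [hdec]
    refine (ac_map (fun y => Real.exp (-(y ^ 2))) (WW φ a1 a2 a4) (by fun_prop)
      (fun y => (Real.exp_pos _).le) a b κ ha0.ne' (Eventually.of_forall fun y => ?_) hfi f).2
    rw [hwx, hκ, hw0]
    simp only
    have e1 : p / 2 * (a * y + b) ^ 2 + q * (a * y + b) = c0 + -(y ^ 2) := by
      have hpne : p ≠ 0 := hp0.ne
      have e2 : p / 2 * (a * y + b) ^ 2 + q * (a * y + b) =
          p / 2 * a ^ 2 * y ^ 2 + (p * b + q) * a * y + (p / 2 * b ^ 2 + q * b) := by ring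
      rw [e2, ha2, hb', hc0]
      field_simp
      ring
    rw [e1, Real.exp_add]
    have : K * Real.exp c0 ≠ 0 := by positivity
    field_simp

/-- the Laguerre case -/
theorem KD.laguerre (h : KD φ a1 a2 a3 a4) (α k : ℝ) (hk : k ≠ 0) (e4 : a4 = C k * (X - C α) ^ 2)
    (hNα : (NN a3 a4).eval α = 0) (hN2 : (NN a3 a4).natDegree ≤ 2)
    (hz : ∀ x, x ≤ α → AA φ a1 a2 x = 0) (hA : ∀ x, α < x → AA φ a1 a2 x ≠ 0) (ht : GT a3 a4) :
    Concl φ := by
  have hfin := h.fin
  obtain ⟨N1, hN1⟩ := dvd_iff_isRoot.2 (show (NN a3 a4).IsRoot α from hNα)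
  have hN1d : N1.natDegree ≤ 1 := by
    rcases eq_or_ne N1 0 with h0 | h0
    · rw [h0]; simp
    · have := (monic_X_sub_C α).natDegree_mul' h0
      rw [← hN1, natDegree_X_sub_C] at this
      omega
  obtain ⟨n1, n0', hN1e⟩ := exists_eq_X_add_C_of_natDegree_le_one hN1d
  have hNx : ∀ x, (NN a3 a4).eval x = (x - α) * (n1 * (x - α) + (n1 * α + n0')) := fun x => by
    rw [hN1, hN1e]
    simp only [eval_mul, eval_sub, eval_X, eval_C, eval_add]
    ring
  set n0 := n1 * α + n0' with hn0
  have hN1α : N1.eval α = n0 := by rw [hN1e]; simp [hn0]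
  have h4x : ∀ x, a4.eval x = k * (x - α) ^ 2 := fun x => by rw [e4]; simp
  have h4ne : ∀ x, x ≠ α → a4.eval x ≠ 0 := fun x hx => by
    rw [h4x]; exact mul_ne_zero hk (pow_ne_zero 2 (sub_ne_zero.2 hx))
  set s' := n1 / k with hs'
  set ρ := n0 / k with hρ
  have hd4 : ∀ x, (derivative a4).eval x = 2 * k * (x - α) := fun x => by
    rw [e4, derivative_C_mul, derivative_pow, derivative_sub, derivative_X, derivative_C]
    simp
    ring
  have hux : ∀ x, x ≠ α → uA a3 a4 x = s' + (ρ + 2) / (x - α) := by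
    intro x hx
    have hx' := sub_ne_zero.2 hx
    rw [uA_eq, hNx, h4x, hd4, hs', hρ]
    field_simp
    ring
  -- s' < 0
  have hs0 : s' < 0 := by
    by_contra hcon
    push Not at hcon
    apply ht (2 * |ρ + 2|) (2 * |α| + 1) (by positivity)
    intro x hx
    have h1 := le_abs_self α
    have h2 := abs_nonneg α
    have hxα : 0 < x - α := by linarith
    have hx0 : 0 < x := by linarith
    rw [hux x (by intro h0; rw [h0] at hxα; simp at hxα)]
    have h3 : x / 2 ≤ x - α := by linarith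
    have h4 : -(|ρ + 2| / (x - α)) ≤ (ρ + 2) / (x - α) := by
      rw [← neg_div]
      exact div_le_div_of_nonneg_right (neg_abs_le _) hxα.le
    have h5 : |ρ + 2| / (x - α) ≤ |ρ + 2| / (x / 2) :=
      div_le_div_of_nonneg_left (abs_nonneg _) (by positivity) h3
    have h6 : |ρ + 2| / (x / 2) = 2 * |ρ + 2| / x := by field_simp
    have h7 : -(2 * |ρ + 2|) / x = -(2 * |ρ + 2| / x) := by ring
    rw [h7]
    linarith
  set s := -s' with hs
  have hspos : 0 < s := by rw [hs]; linarith
  set w0 : ℝ → ℝ := fun x => (x - α) ^ ρ * Real.exp (-(s * (x - α))) with hw0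
  have hw0d : ∀ x, α < x → HasDerivAt w0 ((NN a3 a4).eval x / a4.eval x * w0 x) x := by
    intro x hx
    have hx' : 0 < x - α := by linarith
    have h1 : HasDerivAt (fun y : ℝ => (y - α) ^ ρ) (1 * ρ * (x - α) ^ (ρ - 1)) x :=
      ((hasDerivAt_id x).sub_const α).rpow_const (Or.inl hx'.ne')
    have h2 : HasDerivAt (fun y : ℝ => Real.exp (-(s * (y - α)))) (Real.exp (-(s * (x - α))) * -(s * 1)) x :=
      ((((hasDerivAt_id x).sub_const α).const_mul s).neg).exp
    have h3 := h1.mul h2
    convert! h3 using 1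
    rw [hNx, h4x, hw0, Real.rpow_sub_one hx'.ne', hs, hs', hρ]
    field_simp
    ring
  have hw := ode_unique (Ioi α) isOpen_Ioi ordConnected_Ioi
    (fun x => (NN a3 a4).eval x / a4.eval x) (WW φ a1 a2 a4) w0
    (ContinuousOn.div (by fun_prop) (by fun_prop) (fun x hx => h4ne x (ne_of_gt hx)))
    (fun x hx => h.W_deriv x (h4ne x (ne_of_gt hx))) (fun x hx => hw0d x hx) (α + 1) (by simp)
    (by rw [hw0]; simp only; rw [add_sub_cancel_left, Real.one_rpow]; positivity)
  set K := WW φ a1 a2 a4 (α + 1) / w0 (α + 1) with hK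
  have hw01 : 0 < w0 (α + 1) := by
    rw [hw0]; simp only; rw [add_sub_cancel_left, Real.one_rpow]; positivity
  have hKpos : 0 < K := by
    have h1 : 0 ≤ K := div_nonneg (h.W_nonneg _) hw01.le
    have h2 : K ≠ 0 := div_ne_zero (div_ne_zero (hA _ (by linarith)) (h4ne _ (by linarith))) hw01.ne'
    exact lt_of_le_of_ne h1 h2.symm
  have hwx : ∀ x, α < x → WW φ a1 a2 a4 x = K * w0 x := fun x hx => hw x hx
  have hwz : ∀ x, x ≤ α → WW φ a1 a2 a4 x = 0 := fun x hx => by unfold WW; rw [hz x hx, zero_div]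
  have hU : {x : ℝ | a4.eval x ≠ 0} = {α}ᶜ := by
    ext x
    simp only [mem_ofPred_eq, mem_compl_iff, mem_singleton_iff]
    exact ⟨fun h1 h2 => h1 (by rw [h4x, h2]; simp), h4ne x⟩
  have hUc : {x : ℝ | a4.eval x = 0} = {α} := by
    ext x
    simp only [mem_ofPred_eq, mem_singleton_iff]
    constructor
    · intro h1
      by_contra h2
      exact h4ne x h2 h1
    · intro h1
      rw [h4x, h1]; simp
  have hae : (volume : Measure ℝ).restrict ({α}ᶜ : Set ℝ) = volume := by
    have : ({α}ᶜ : Set ℝ) =ᵐ[volume] univ := by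
      rw [ae_eq_univ, compl_compl]
      simp
    rw [Measure.restrict_congr_set this, Measure.restrict_univ]
  have hfi : ∀ f : ℝ[X], Integrable (fun x => f.eval x * WW φ a1 a2 a4 x) volume := by
    intro f
    have := h.fw_int f
    rw [hU] at this
    unfold IntegrableOn at this
    rwa [hae] at this
  set m : ℝ := (φ {α}).toReal with hm
  have hdec : ∀ f : ℝ[X], ∫ x, f.eval x ∂φ = (∫ x, f.eval x * WW φ a1 a2 a4 x) + f.eval α * m := by
    intro f
    rw [h.decomp f, hU, hUc, hae, integral_singleton, smul_eq_mul]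
    simp only [Measure.real, hm]
    ring
  -- ρ > -1
  have hρ1 : -1 < ρ := by
    have h1 : IntegrableOn (WW φ a1 a2 a4) (Ioo α (α + 1)) volume := by
      have := (hfi 1).integrableOn (s := Ioo α (α + 1))
      simpa using this
    have h2 : IntegrableOn (fun x => (x - α) ^ ρ) (Ioo α (α + 1)) volume := by
      have h3 := h1.const_mul (K * Real.exp (-s))⁻¹
      refine Integrable.mono' h3 ((measurable_id.sub_const α).pow_const ρ).aestronglyMeasurable ?_
      refine (ae_restrict_iff' measurableSet_Ioo).2 (Eventually.of_forall fun x hx => ?_)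
      have hx' : 0 < x - α := by linarith [hx.1]
      rw [Real.norm_of_nonneg (Real.rpow_nonneg hx'.le _), hwx x hx.1, hw0]
      simp only
      have h4 : Real.exp (-s) ≤ Real.exp (-(s * (x - α))) := by
        apply Real.exp_le_exp.2
        have : x - α ≤ 1 := by linarith [hx.2]
        nlinarith
      have h5 : 0 < (x - α) ^ ρ := Real.rpow_pos_of_pos hx' _
      have h6 : 0 < Real.exp (-s) := Real.exp_pos _
      rw [inv_mul_eq_div, le_div_iff₀ (by positivity)]
      calc (x - α) ^ ρ * (K * Real.exp (-s)) = K * ((x - α) ^ ρ * Real.exp (-s)) := by ring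
        _ ≤ K * ((x - α) ^ ρ * Real.exp (-(s * (x - α)))) := by
            apply mul_le_mul_of_nonneg_left _ hKpos.le
            exact mul_le_mul_of_nonneg_left h4 h5.le
    have h3 : IntegrableOn (fun x : ℝ => x ^ ρ) (Ioo 0 1) volume := by
      rw [← integrable_indicator_iff measurableSet_Ioo] at h2 ⊢
      have := h2.comp_add_right α
      refine this.congr (Eventually.of_forall fun x => ?_)
      simp only
      by_cases hx : x ∈ Ioo (0 : ℝ) 1
      · rw [indicator_of_mem hx, indicator_of_mem (show x + α ∈ Ioo α (α + 1) from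
          ⟨by linarith [hx.1], by linarith [hx.2]⟩)]
        congr 1; ring
      · rw [indicator_of_notMem hx, indicator_of_notMem]
        rintro ⟨h5, h6⟩
        exact hx ⟨by linarith, by linarith⟩
    exact (intervalIntegral.integrableOn_Ioo_rpow_iff one_pos).1 h3
  -- mass
  have hlim : Tendsto (fun x => (x - α) * WW φ a1 a2 a4 x) (𝓝[Ioo α (α + 1)] α) (𝓝 0) := by
    have h1 : Tendsto (fun x : ℝ => K * ((x - α) ^ (ρ + 1) * Real.exp (-(s * (x - α))))) (𝓝 α)
        (𝓝 (K * ((α - α) ^ (ρ + 1) * Real.exp (-(s * (α - α)))))) := by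
      apply Tendsto.const_mul
      apply Tendsto.mul
      · have h2 : ContinuousAt (fun x : ℝ => x ^ (ρ + 1)) (α - α) :=
          Real.continuousAt_rpow_const _ _ (Or.inr (by linarith))
        have h3 : Tendsto (fun x : ℝ => x - α) (𝓝 α) (𝓝 (α - α)) :=
          (continuous_id.sub continuous_const).tendsto α
        exact h2.tendsto.comp h3
      · exact (Continuous.tendsto (by fun_prop) α)
    rw [sub_self, Real.zero_rpow (by linarith), zero_mul, mul_zero] at h1
    refine (h1.mono_left nhdsWithin_le_nhds).congr' ?_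
    filter_upwards [self_mem_nhdsWithin] with x hx
    have hx' : 0 < x - α := by linarith [hx.1]
    rw [hwx x hx.1, hw0, Real.rpow_add_one hx'.ne']
    ring
  have hmass := h.mass α 1 one_pos (Ioo α (α + 1)) (Ioo (α - 1) α) (Or.inl ⟨rfl, rfl⟩)
    (fun x _ hx => h4ne x hx) (fun x hx => hz x hx.2.le) (C k) N1 (by rw [e4]; ring) hN1 hlim
  have hind := h.indicial α (C k) N1 (by rw [e4]; ring) hN1
  rw [hN1α, eval_C] at hind
  rw [← hm] at hmass
  have hn0k : n0 = ρ * k := by rw [hρ]; field_simp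
  have hρ0 : m ≠ 0 → ρ = 0 := by
    intro hm0
    have ha2 : a2.eval α = 0 := (mul_eq_zero.1 hmass).resolve_right hm0
    rw [ha2, hn0k] at hind
    have h1 : ρ * ((ρ + 2) * (ρ + 1)) * k ^ 3 = 0 := by linear_combination hind
    rcases mul_eq_zero.1 h1 with h2 | h2
    · rcases mul_eq_zero.1 h2 with h3 | h3
      · exact h3
      · have : 0 < (ρ + 2) * (ρ + 1) := mul_pos (by linarith) (by linarith)
        exact absurd h3 this.ne'
    · exact absurd h2 (pow_ne_zero 3 hk)
  have hm0 : 0 ≤ m := ENNReal.toReal_nonneg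
  set a : ℝ := 1 / s with ha
  have ha0 : 0 < a := by rw [ha]; positivity
  have hWW1 : ∀ y, WW φ a1 a2 a4 (a * y + α) = (Ioi (0 : ℝ)).indicator
      (fun y => K * ((a * y) ^ ρ * Real.exp (-y))) y := by
    intro y
    by_cases hy : 0 < y
    · rw [indicator_of_mem (show y ∈ Ioi (0 : ℝ) from hy), hwx _ (by
        have := mul_pos ha0 hy; linarith), hw0]
      simp only
      rw [show a * y + α - α = a * y by ring, show s * (a * y) = y by rw [ha]; field_simp]
    · rw [indicator_of_notMem (show y ∉ Ioi (0 : ℝ) from hy), hwz]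
      have : a * y ≤ 0 := mul_nonpos_of_nonneg_of_nonpos ha0.le (not_lt.1 hy)
      linarith
  rcases hm0.eq_or_lt with hm1 | hm1
  · -- no mass
    set κ : ℝ := (K * a ^ ρ)⁻¹ with hκ
    have haρ : 0 < a ^ ρ := Real.rpow_pos_of_pos ha0 _
    have hκ0 : κ ≠ 0 := by rw [hκ]; positivity
    refine ⟨_, Or.inr (Or.inl ⟨ρ, hρ1, rfl⟩), a, α, κ * |a⁻¹|, ha0.ne', ?_, ?_⟩
    · exact mul_ne_zero hκ0 (abs_ne_zero.2 (inv_ne_zero ha0.ne'))
    · intro f
      rw [hdec, ← hm1, mul_zero, add_zero]
      refine (ac_map ((Ioi (0 : ℝ)).indicator (fun y : ℝ => y ^ ρ * Real.exp (-y))) (WW φ a1 a2 a4)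
        ?_ ?_ a α κ ha0.ne' (Eventually.of_forall fun y => ?_) hfi f).2
      · exact Measurable.indicator (by fun_prop) measurableSet_Ioi
      · intro y
        apply indicator_nonneg
        intro z hz'
        have hz'' : (0 : ℝ) < z := hz'
        positivity
      · rw [hWW1]
        by_cases hy : 0 < y
        · rw [indicator_of_mem (show y ∈ Ioi (0 : ℝ) from hy),
            indicator_of_mem (show y ∈ Ioi (0 : ℝ) from hy), Real.mul_rpow ha0.le hy.le, hκ]
          field_simp
        · rw [indicator_of_notMem (show y ∉ Ioi (0 : ℝ) from hy),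
            indicator_of_notMem (show y ∉ Ioi (0 : ℝ) from hy), mul_zero]
  · -- mass
    have hρz := hρ0 hm1.ne'
    set κ : ℝ := K⁻¹ with hκ
    have hκ0 : 0 < κ := by rw [hκ]; positivity
    have hai : 0 < |a⁻¹| := abs_pos.2 (inv_ne_zero ha0.ne')
    set c : ℝ := κ * |a⁻¹| with hc
    have hc0 : 0 < c := by positivity
    refine ⟨_, Or.inr (Or.inr (Or.inr (Or.inr (Or.inl ⟨1 / (c * m), by positivity, rfl⟩)))),
      a, α, c, ha0.ne', hc0.ne', ?_⟩
    intro f
    have hac := ac_map ((Ioi (0 : ℝ)).indicator (fun y : ℝ => Real.exp (-y))) (WW φ a1 a2 a4)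
        (Measurable.indicator (by fun_prop) measurableSet_Ioi)
        (fun y => indicator_nonneg (fun z _ => (Real.exp_pos _).le) y) a α κ ha0.ne'
        (Eventually.of_forall fun y => by
          rw [hWW1, hρz]
          by_cases hy : 0 < y
          · rw [indicator_of_mem (show y ∈ Ioi (0 : ℝ) from hy),
              indicator_of_mem (show y ∈ Ioi (0 : ℝ) from hy), Real.rpow_zero, hκ]
            field_simp
          · rw [indicator_of_notMem (show y ∉ Ioi (0 : ℝ) from hy),
              indicator_of_notMem (show y ∉ Ioi (0 : ℝ) from hy), mul_zero]) hfi f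
    rw [integral_add_measure hac.1, hac.2, integral_smul_measure, integral_dirac, hdec, smul_eq_mul,
      ENNReal.toReal_ofReal (by positivity), mul_zero, zero_add, one_div_one_div]
    · ring
    · apply Integrable.smul_measure _ ENNReal.ofReal_ne_top
      exact integrable_dirac (by simp)

end Pool.Agent.W2helper99.Kr
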