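import Pool.Agent.W2helper99.Kr.Tail

/-!
# The functions `A`, `V`, `B`
-/

set_option autoImplicit false
open MeasureTheory Set Filter Topology Polynomial

namespace Pool.Agent.W2helper99.Kr

/-- the data -/
structure KD (φ : Measure ℝ) (a1 a2 a3 a4 : ℝ[X]) : Prop where
  fin : IsFiniteMeasure φ
  expi : ∃ δ : ℝ, 0 < δ ∧ Integrable (fun y : ℝ => Real.exp (δ * |y|)) φ
  inf : ∀ s : Finset ℝ, φ ((↑s : Set ℝ)ᶜ) ≠ 0
  d1 : a1.natDegree ≤ 1
  d2 : a2.natDegree ≤ 2
  d3 : a3.natDegree ≤ 3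
  d4 : a4.natDegree ≤ 4
  ne : a4 ≠ 0
  pos : ∀ᵐ x ∂φ, 0 ≤ a4.eval x
  hE : ∀ g : ℝ[X], ∫ x, (a3 * g + 2 * a4 * derivative g).eval x ∂φ = 0
  hF : ∀ g : ℝ[X], ∫ x, (a3 * derivative (derivative g) + 2 * a2 * derivative g
    + 2 * a1 * g).eval x ∂φ = 0

lemma poly_bound (P : ℝ[X]) (ε : ℝ) (hε : 0 < ε) :
    ∃ C : ℝ, ∀ x : ℝ, |P.eval x| ≤ C * Real.exp (ε * |x|) := by
  induction P using Polynomial.induction_on' with
  | add p q hp hq =>
    obtain ⟨C1, h1⟩ := hp
    obtain ⟨C2, h2⟩ := hq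
    refine ⟨C1 + C2, fun x => ?_⟩
    rw [eval_add, add_mul]
    exact (abs_add_le _ _).trans (add_le_add (h1 x) (h2 x))
  | monomial n a =>
    refine ⟨|a| * ((Nat.factorial n : ℝ) / ε ^ n), fun x => ?_⟩
    rw [eval_monomial, abs_mul, abs_pow, mul_assoc]
    apply mul_le_mul_of_nonneg_left _ (abs_nonneg _)
    have h1 := Real.pow_div_factorial_le_exp (ε * |x|) (by positivity) n
    rw [mul_pow] at h1
    have hf0 : (0 : ℝ) < (Nat.factorial n : ℝ) := by positivity
    rw [div_le_iff₀ hf0] at h1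
    have hd : 0 < ε ^ n := by positivity
    rw [div_mul_eq_mul_div, le_div_iff₀ hd]
    linarith

lemma poly_exp_int (φ : Measure ℝ) (δ : ℝ) (hδ : 0 < δ)
    (hi : Integrable (fun y : ℝ => Real.exp (δ * |y|)) φ) (P : ℝ[X]) :
    Integrable (fun y : ℝ => Real.exp ((δ / 2) * |y|) * P.eval y) φ := by
  obtain ⟨C, hC⟩ := poly_bound P (δ / 2) (by positivity)
  refine (hi.const_mul C).mono' (by fun_prop) (Eventually.of_forall fun y => ?_)
  rw [norm_mul, Real.norm_eq_abs, Real.norm_eq_abs, abs_of_pos (Real.exp_pos _)]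
  calc Real.exp (δ / 2 * |y|) * |P.eval y| ≤ Real.exp (δ / 2 * |y|) * (C * Real.exp (δ / 2 * |y|)) :=
        mul_le_mul_of_nonneg_left (hC y) (Real.exp_pos _).le
    _ = C * Real.exp (δ * |y|) := by
        rw [mul_left_comm, ← Real.exp_add]
        ring_nf

lemma TT_eq_tail (ρ : Measure ℝ) (f : ℝ → ℝ) (hf : Integrable f ρ) (x : ℝ) :
    TT ρ f x = tail ρ f x - (if x < 0 then ∫ y, f y ∂ρ else 0) := by
  unfold TT tail
  split_ifs with hx
  · have := integral_add_compl (measurableSet_Iic (a := x)) hf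
    rw [compl_Iic] at this
    linarith
  · ring

lemma pow_bound (n : ℕ) (δ : ℝ) (hδ : 0 < δ) : ∃ C : ℝ, ∀ x : ℝ, |x ^ n| ≤ C * Real.exp (δ * |x|) := by
  obtain ⟨C, hC⟩ := poly_bound (X ^ n) δ hδ
  exact ⟨C, fun x => by simpa using hC x⟩

lemma mom_TT (ρ : Measure ℝ) [SFinite ρ] (f : ℝ → ℝ) (hfm : Measurable f) (δ : ℝ) (hδ : 0 < δ)
    (hf : Integrable (fun y => Real.exp (δ * |y|) * f y) ρ) (n : ℕ) :
    ∫ x, x ^ n * TT ρ f x = ∫ y, f y * (y ^ (n + 1) / ((n : ℝ) + 1)) ∂ρ := by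
  obtain ⟨C, hC⟩ := pow_bound n δ hδ
  rw [(ibp ρ f hfm δ hδ hf (fun x => x ^ n) (by fun_prop) C hC).2]
  congr 1
  ext y
  rw [integral_pow]
  simp

lemma exp_TT (ρ : Measure ℝ) [SFinite ρ] (f : ℝ → ℝ) (hfm : Measurable f) (δ : ℝ) (hδ : 0 < δ)
    (hf : Integrable (fun y => Real.exp (δ * |y|) * f y) ρ) :
    Integrable (fun x => Real.exp (δ * |x|) * TT ρ f x) volume := by
  refine (ibp ρ f hfm δ hδ hf (fun x => Real.exp (δ * |x|)) (by fun_prop) 1 (fun x => ?_)).1
  rw [abs_of_pos (Real.exp_pos _), one_mul]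

lemma int_of_exp (ρ : Measure ℝ) (f : ℝ → ℝ) (hfm : Measurable f) (δ : ℝ) (hδ : 0 < δ)
    (hf : Integrable (fun y => Real.exp (δ * |y|) * f y) ρ) (P : ℝ[X]) :
    Integrable (fun y => P.eval y * f y) ρ := by
  obtain ⟨C, hC⟩ := poly_bound P δ hδ
  refine (hf.norm.const_mul C).mono' (by fun_prop) (Eventually.of_forall fun y => ?_)
  rw [norm_mul, norm_mul, Real.norm_eq_abs, Real.norm_eq_abs, Real.norm_eq_abs,
    abs_of_pos (Real.exp_pos _), ← mul_assoc]
  exact mul_le_mul_of_nonneg_right (hC y) (abs_nonneg _)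

lemma int_of_exp' (ρ : Measure ℝ) (f : ℝ → ℝ) (hfm : Measurable f) (δ : ℝ) (hδ : 0 < δ)
    (hf : Integrable (fun y => Real.exp (δ * |y|) * f y) ρ) : Integrable f ρ := by
  simpa using int_of_exp ρ f hfm δ hδ hf 1

section

variable {φ : Measure ℝ} {a1 a2 a3 a4 : ℝ[X]}

lemma KD.poly_int (h : KD φ a1 a2 a3 a4) (P : ℝ[X]) : Integrable (fun x => P.eval x) φ := by
  obtain ⟨δ, hδ, hi⟩ := h.expi
  exact int_of_exp' φ _ (by fun_prop) (δ / 2) (by positivity) (poly_exp_int φ δ hδ hi P)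

/-- `B` -/
noncomputable def BB (φ : Measure ℝ) (a1 : ℝ[X]) : ℝ → ℝ := tail φ (fun y => a1.eval y)

/-- `V` -/
noncomputable def VV (φ : Measure ℝ) (a1 a2 : ℝ[X]) : ℝ → ℝ :=
  fun x => tail φ (fun y => a2.eval y) x + tail volume (BB φ a1) x

/-- `A` -/
noncomputable def AA (φ : Measure ℝ) (a1 a2 : ℝ[X]) : ℝ → ℝ := tail volume (VV φ a1 a2)

/-- collected facts about `A`, `V`, `B` -/
theorem KD.basic (h : KD φ a1 a2 a3 a4) :
    Measurable (BB φ a1) ∧ Measurable (VV φ a1 a2) ∧ Measurable (AA φ a1 a2) ∧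
    Integrable (BB φ a1) volume ∧ Integrable (VV φ a1 a2) volume ∧
    (∀ P : ℝ[X], Integrable (fun x => P.eval x * AA φ a1 a2 x) volume) ∧
    (∀ E, MeasurableSet E → ∫ x in E, (-(1 / 2) * a3.eval x) ∂φ = ∫ x in E, VV φ a1 a2 x) ∧
    (∀ E, MeasurableSet E → ∫ x in E, a4.eval x ∂φ = ∫ x in E, AA φ a1 a2 x) := by
  have := h.fin
  obtain ⟨δ0, hδ0, hi⟩ := h.expi
  set δ := δ0 / 2 with hδdef
  have hδ : 0 < δ := by positivity
  have hp : ∀ P : ℝ[X], Integrable (fun y : ℝ => Real.exp (δ * |y|) * P.eval y) φ :=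
    fun P => poly_exp_int φ δ0 hδ0 hi P
  have hpi := h.poly_int
  -- B
  have m1 : ∫ y, a1.eval y ∂φ = 0 := by
    have := h.hF 1
    simp only [derivative_one, derivative_zero, mul_zero, zero_add, mul_one] at this
    have e : ∀ x : ℝ, (2 * a1).eval x = 2 * a1.eval x := fun x => by simp
    simp_rw [e] at this
    rw [integral_const_mul] at this
    linarith
  have hB : BB φ a1 = TT φ (fun y => a1.eval y) := by
    ext x
    rw [TT_eq_tail _ _ (hpi a1), m1]
    simp [BB]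
  have hBm : Measurable (BB φ a1) := by rw [hB]; exact TT_measurable φ _ (by fun_prop)
  have hBe : Integrable (fun x => Real.exp (δ * |x|) * BB φ a1 x) volume := by
    rw [hB]; exact exp_TT φ _ (by fun_prop) δ hδ (hp a1)
  have hBi : Integrable (BB φ a1) volume := int_of_exp' _ _ hBm δ hδ hBe
  have hBmom : ∀ n : ℕ, ∫ x, x ^ n * BB φ a1 x = ∫ y, a1.eval y * (y ^ (n + 1) / ((n : ℝ) + 1)) ∂φ := by
    intro n
    rw [hB]; exact mom_TT φ _ (by fun_prop) δ hδ (hp a1) n
  -- V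
  have hV0 : ∫ y, a2.eval y ∂φ + ∫ x, BB φ a1 x = 0 := by
    have e1 := hBmom 0
    simp only [pow_zero, one_mul, zero_add, pow_one, Nat.cast_zero, div_one] at e1
    rw [e1, ← integral_add (hpi a2)]
    · have := h.hF X
      simp only [derivative_X, derivative_one, mul_zero, zero_add, mul_one] at this
      have e : ∀ x : ℝ, (2 * a2 + 2 * a1 * X).eval x = 2 * (a2.eval x + a1.eval x * x) := fun x => by
        simp; ring
      simp_rw [e] at this
      rw [integral_const_mul] at this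
      linarith
    · have := hpi (a1 * X)
      simpa using this
  have hVeq : VV φ a1 a2 = fun x => TT φ (fun y => a2.eval y) x + TT volume (BB φ a1) x := by
    ext x
    rw [TT_eq_tail _ _ (hpi a2), TT_eq_tail _ _ hBi]
    unfold VV
    split_ifs
    · linarith
    · ring
  have hVm : Measurable (VV φ a1 a2) := by
    rw [hVeq]
    exact (TT_measurable φ _ (by fun_prop)).add (TT_measurable volume _ hBm)
  have hVe : Integrable (fun x => Real.exp (δ * |x|) * VV φ a1 a2 x) volume := by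
    rw [hVeq]
    have i1 := exp_TT φ (fun y => a2.eval y) (by fun_prop) δ hδ (hp a2)
    have i2 := exp_TT volume (BB φ a1) hBm δ hδ hBe
    refine (i1.add i2).congr (Eventually.of_forall fun x => ?_)
    simp only [Pi.add_apply]
    ring
  have hVi : Integrable (VV φ a1 a2) volume := int_of_exp' _ _ hVm δ hδ hVe
  have hVmom : ∀ n : ℕ, ∫ x, x ^ n * VV φ a1 a2 x = ∫ y, y ^ n * (-(1 / 2) * a3.eval y) ∂φ := by
    intro n
    have hn1 : ((n : ℝ) + 1) ≠ 0 := by positivity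
    have hn2 : ((n : ℝ) + 1 + 1) ≠ 0 := by positivity
    have i1 : Integrable (fun x => x ^ n * TT φ (fun y => a2.eval y) x) volume := by
      have := int_of_exp volume _ (TT_measurable φ _ (by fun_prop)) δ hδ
        (exp_TT φ (fun y => a2.eval y) (by fun_prop) δ hδ (hp a2)) (X ^ n)
      simpa using this
    have i2 : Integrable (fun x => x ^ n * TT volume (BB φ a1) x) volume := by
      have := int_of_exp volume _ (TT_measurable volume _ hBm) δ hδ
        (exp_TT volume (BB φ a1) hBm δ hδ hBe) (X ^ n)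
      simpa using this
    rw [hVeq]
    simp only [mul_add]
    rw [integral_add i1 i2, mom_TT φ _ (by fun_prop) δ hδ (hp a2), mom_TT volume _ hBm δ hδ hBe]
    have e1 : ∫ y, BB φ a1 y * (y ^ (n + 1) / ((n : ℝ) + 1)) =
        (1 / ((n : ℝ) + 1)) * ∫ y, a1.eval y * (y ^ (n + 1 + 1) / (((n + 1 : ℕ) : ℝ) + 1)) ∂φ := by
      rw [← hBmom, ← integral_const_mul]
      congr 1
      ext y
      ring
    rw [e1]
    have hF := h.hF (X ^ (n + 2))
    have e2 : ∀ x : ℝ, (a3 * derivative (derivative (X ^ (n + 2))) + 2 * a2 * derivative (X ^ (n + 2))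
        + 2 * a1 * X ^ (n + 2)).eval x =
        (-2 * ((n : ℝ) + 1) * ((n : ℝ) + 2)) * (x ^ n * (-(1 / 2) * a3.eval x))
        + ((2 * ((n : ℝ) + 1) * ((n : ℝ) + 2)) * (a2.eval x * (x ^ (n + 1) / ((n : ℝ) + 1)))
        + (2 * ((n : ℝ) + 2)) * (a1.eval x * (x ^ (n + 1 + 1) / (((n + 1 : ℕ) : ℝ) + 1)))) := by
      intro x
      simp
      field_simp
      ring
    simp_rw [e2] at hF
    have j1 : Integrable (fun x : ℝ => x ^ n * (-(1 / 2) * a3.eval x)) φ := by
      have := hpi (X ^ n * (C (-(1 / 2)) * a3))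
      simpa using this
    have j2 : Integrable (fun x : ℝ => a2.eval x * (x ^ (n + 1) / ((n : ℝ) + 1))) φ := by
      have := hpi (a2 * (X ^ (n + 1) * C (1 / ((n : ℝ) + 1))))
      refine this.congr (Eventually.of_forall fun x => ?_)
      simp only [eval_mul, eval_pow, eval_X, eval_C]
      ring
    have j3 : Integrable (fun x : ℝ => a1.eval x * (x ^ (n + 1 + 1) / (((n + 1 : ℕ) : ℝ) + 1))) φ := by
      have := hpi (a1 * (X ^ (n + 1 + 1) * C (1 / (((n + 1 : ℕ) : ℝ) + 1))))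
      refine this.congr (Eventually.of_forall fun x => ?_)
      simp only [eval_mul, eval_pow, eval_X, eval_C]
      ring
    have k := integral_add (j1.const_mul (-2 * ((n : ℝ) + 1) * ((n : ℝ) + 2)))
      ((j2.const_mul (2 * ((n : ℝ) + 1) * ((n : ℝ) + 2))).add (j3.const_mul (2 * ((n : ℝ) + 2))))
    have k' := integral_add (j2.const_mul (2 * ((n : ℝ) + 1) * ((n : ℝ) + 2)))
      (j3.const_mul (2 * ((n : ℝ) + 2)))
    simp only [Pi.add_apply] at k
    rw [k', integral_const_mul, integral_const_mul, integral_const_mul] at k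
    rw [k] at hF
    have hn2' : ((n : ℝ) + 2) ≠ 0 := by positivity
    generalize (∫ y, y ^ n * (-(1 / 2) * a3.eval y) ∂φ) = I1 at hF ⊢
    generalize (∫ y, a2.eval y * (y ^ (n + 1) / ((n : ℝ) + 1)) ∂φ) = I2 at hF ⊢
    generalize (∫ y, a1.eval y * (y ^ (n + 1 + 1) / (((n + 1 : ℕ) : ℝ) + 1)) ∂φ) = I3 at hF ⊢
    have hF2 : (2 * ((n : ℝ) + 2)) * (-(((n : ℝ) + 1) * I1) + ((n : ℝ) + 1) * I2 + I3) = 0 := by
      linarith
    have hF3 := (mul_eq_zero.1 hF2).resolve_left (by positivity)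
    field_simp
    linarith
  -- A
  have hV00 : ∫ x, VV φ a1 a2 x = 0 := by
    have := hVmom 0
    simp only [pow_zero, one_mul] at this
    rw [this, integral_const_mul]
    have h2 := h.hE 1
    simp only [derivative_one, mul_zero, add_zero, mul_one] at h2
    rw [h2, mul_zero]
  have hAeq : AA φ a1 a2 = TT volume (VV φ a1 a2) := by
    ext x
    rw [TT_eq_tail _ _ hVi, hV00]
    simp [AA]
  have hAm : Measurable (AA φ a1 a2) := by rw [hAeq]; exact TT_measurable volume _ hVm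
  have hAe : Integrable (fun x => Real.exp (δ * |x|) * AA φ a1 a2 x) volume := by
    rw [hAeq]; exact exp_TT volume _ hVm δ hδ hVe
  have hAmom : ∀ n : ℕ, ∫ x, x ^ n * AA φ a1 a2 x = ∫ y, y ^ n * a4.eval y ∂φ := by
    intro n
    have hn1 : ((n : ℝ) + 1) ≠ 0 := by positivity
    rw [hAeq, mom_TT volume _ hVm δ hδ hVe]
    have e1 : ∫ y, VV φ a1 a2 y * (y ^ (n + 1) / ((n : ℝ) + 1)) =
        (1 / ((n : ℝ) + 1)) * ∫ y, y ^ (n + 1) * (-(1 / 2) * a3.eval y) ∂φ := by
      rw [← hVmom, ← integral_const_mul]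
      congr 1
      ext y
      ring
    rw [e1]
    have hE := h.hE (X ^ (n + 1))
    have e2 : ∀ x : ℝ, (a3 * X ^ (n + 1) + 2 * a4 * derivative (X ^ (n + 1))).eval x =
        (-2) * (x ^ (n + 1) * (-(1 / 2) * a3.eval x)) + (2 * ((n : ℝ) + 1)) * (x ^ n * a4.eval x) := by
      intro x
      simp
      ring
    simp_rw [e2] at hE
    have j1 : Integrable (fun x : ℝ => x ^ (n + 1) * (-(1 / 2) * a3.eval x)) φ := by
      have := hpi (X ^ (n + 1) * (C (-(1 / 2)) * a3))
      simpa using this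
    have j2 : Integrable (fun x : ℝ => x ^ n * a4.eval x) φ := by
      have := hpi (X ^ n * a4)
      simpa using this
    rw [integral_add (j1.const_mul _) (j2.const_mul _), integral_const_mul, integral_const_mul] at hE
    generalize (∫ y, y ^ (n + 1) * (-(1 / 2) * a3.eval y) ∂φ) = I1 at hE ⊢
    generalize (∫ y, y ^ n * a4.eval y ∂φ) = I2 at hE ⊢
    field_simp
    linarith
  refine ⟨hBm, hVm, hAm, hBi, hVi, ?_, ?_, ?_⟩
  · intro P
    exact int_of_exp volume _ hAm δ hδ hAe P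
  · intro E hE
    apply det2 φ volume (fun x => -(1 / 2) * a3.eval x) (VV φ a1 a2) δ hδ (by fun_prop) hVm _ hVe
      (fun n => (hVmom n).symm) E hE
    have := hp (C (-(1 / 2)) * a3)
    simpa using this
  · intro E hE
    exact det2 φ volume (fun x => a4.eval x) (AA φ a1 a2) δ hδ (by fun_prop) hAm (hp a4) hAe
      (fun n => (hAmom n).symm) E hE

end

end Pool.Agent.W2helper99.Kr
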