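import Pool.Agent.W2helper99.Kr.Cases

/-!
# The density of `φ` off the zeros of `a4`, and the masses
-/

set_option autoImplicit false
open MeasureTheory Set Filter Topology Polynomial

namespace Pool.Agent.W2helper99.Kr

variable {φ : Measure ℝ} {a1 a2 a3 a4 : ℝ[X]}

lemma KD.A_zero_of_null (h : KD φ a1 a2 a3 a4) (O : Set ℝ) (hO : IsOpen O) (hφ : φ O = 0) :
    ∀ x ∈ O, AA φ a1 a2 x = 0 := by
  have e := h.M1 O hO.measurableSet
  rw [setIntegral_measure_zero _ hφ] at e
  have h1 := (setIntegral_eq_zero_iff_of_nonneg_ae (Eventually.of_forall fun x => h.A_nonneg x)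
    h.A_int.integrableOn).1 e.symm
  intro x hx
  by_contra hcon
  have h2 : O ∩ {y | AA φ a1 a2 y ≠ 0} ∈ 𝓝 x :=
    inter_mem (hO.mem_nhds hx) (h.A_cont.continuousAt.eventually_ne hcon)
  have h3 : volume (O ∩ {y | AA φ a1 a2 y ≠ 0}) = 0 := by
    rw [Filter.EventuallyEq, ae_restrict_iff' hO.measurableSet] at h1
    refine measure_mono_null ?_ h1
    rintro y ⟨hy1, hy2⟩ hy3
    exact hy2 (hy3 hy1)
  exact (Measure.measure_pos_of_mem_nhds volume h2).ne' h3

lemma KD.A_zero_of_neg (h : KD φ a1 a2 a3 a4) (x : ℝ) (hx : a4.eval x < 0) : AA φ a1 a2 x = 0 := by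
  apply h.A_zero_of_null {y | a4.eval y < 0} (isOpen_lt a4.continuous continuous_const) _ x hx
  have := h.pos
  rw [ae_iff] at this
  convert! this using 2
  ext y
  simp

lemma KD.W_nonneg (h : KD φ a1 a2 a3 a4) (x : ℝ) : 0 ≤ WW φ a1 a2 a4 x := by
  unfold WW
  rcases lt_or_ge (a4.eval x) 0 with hx | hx
  · rw [h.A_zero_of_neg x hx, zero_div]
  · exact div_nonneg (h.A_nonneg x) hx

lemma KD.dens (h : KD φ a1 a2 a3 a4) :
    φ.restrict {x | a4.eval x ≠ 0} =
      (volume.restrict {x | a4.eval x ≠ 0}).withDensity (fun x => ENNReal.ofReal (WW φ a1 a2 a4 x)) := by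
  have hUm : MeasurableSet {x : ℝ | a4.eval x ≠ 0} :=
    (isOpen_ne_fun a4.continuous continuous_const).measurableSet
  ext E hE
  rw [Measure.restrict_apply hE, withDensity_apply _ hE, Measure.restrict_restrict hE]
  set F := E ∩ {x : ℝ | a4.eval x ≠ 0} with hF
  have hFm : MeasurableSet F := hE.inter hUm
  have hgm : Measurable (fun x : ℝ => ENNReal.ofReal (a4.eval x)) := by fun_prop
  have hGm : Measurable (fun x : ℝ => ENNReal.ofReal (AA φ a1 a2 x)) := by
    have := h.A_meas; fun_prop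
  have e1 := setLIntegral_withDensity_eq_setLIntegral_mul φ hgm
    (g := fun x => (ENNReal.ofReal (a4.eval x))⁻¹) (by fun_prop) hFm
  have e2 := setLIntegral_withDensity_eq_setLIntegral_mul volume hGm
    (g := fun x => (ENNReal.ofReal (a4.eval x))⁻¹) (by fun_prop) hFm
  rw [h.eta, e2] at e1
  have e3 : ∫⁻ x in F, ((fun x : ℝ => ENNReal.ofReal (a4.eval x)) *
      fun x => (ENNReal.ofReal (a4.eval x))⁻¹) x ∂φ = φ F := by
    have : ∀ᵐ x ∂(φ.restrict F), ((fun x : ℝ => ENNReal.ofReal (a4.eval x)) *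
      fun x => (ENNReal.ofReal (a4.eval x))⁻¹) x = 1 := by
      filter_upwards [ae_restrict_of_ae h.pos, ae_restrict_mem hFm] with x hx1 hx2
      simp only [Pi.mul_apply]
      apply ENNReal.mul_inv_cancel
      · have : 0 < a4.eval x := lt_of_le_of_ne hx1 (Ne.symm hx2.2)
        simpa using this
      · exact ENNReal.ofReal_ne_top
    rw [lintegral_congr_ae this, setLIntegral_one]
  have e4 : ∫⁻ x in F, ((fun x : ℝ => ENNReal.ofReal (AA φ a1 a2 x)) *
      fun x => (ENNReal.ofReal (a4.eval x))⁻¹) x = ∫⁻ x in F, ENNReal.ofReal (WW φ a1 a2 a4 x) := by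
    apply setLIntegral_congr_fun hFm
    intro x hx
    simp only [Pi.mul_apply]
    rcases lt_or_ge (a4.eval x) 0 with hx1 | hx1
    · unfold WW
      rw [h.A_zero_of_neg x hx1]
      simp
    · have hx2 : 0 < a4.eval x := lt_of_le_of_ne hx1 (Ne.symm hx.2)
      unfold WW
      rw [ENNReal.ofReal_div_of_pos hx2, ENNReal.div_eq_inv_mul, mul_comm]
  rw [e3, e4] at e1
  exact e1.symm

lemma KD.fw_int (h : KD φ a1 a2 a3 a4) (f : ℝ[X]) :
    IntegrableOn (fun x => f.eval x * WW φ a1 a2 a4 x) {x | a4.eval x ≠ 0} volume := by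
  have h1 : Integrable (fun x => f.eval x) (φ.restrict {x | a4.eval x ≠ 0}) :=
    (h.poly_int f).restrict
  rw [h.dens, integrable_withDensity_iff (by have := h.W_meas; fun_prop)
    (Eventually.of_forall fun y => ENNReal.ofReal_lt_top)] at h1
  refine h1.congr (Eventually.of_forall fun x => ?_)
  simp only
  rw [ENNReal.toReal_ofReal (h.W_nonneg x)]

lemma KD.decomp (h : KD φ a1 a2 a3 a4) (f : ℝ[X]) :
    ∫ x, f.eval x ∂φ = (∫ x in {x | a4.eval x ≠ 0}, f.eval x * WW φ a1 a2 a4 x) +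
      ∫ x in {x | a4.eval x = 0}, f.eval x ∂φ := by
  have hUm : MeasurableSet {x : ℝ | a4.eval x ≠ 0} :=
    (isOpen_ne_fun a4.continuous continuous_const).measurableSet
  have hc : {x : ℝ | a4.eval x = 0} = {x : ℝ | a4.eval x ≠ 0}ᶜ := by
    ext x
    simp
  rw [← integral_add_compl hUm (h.poly_int f),
    h.set_int _ hUm (fun x hx => hx) (fun x => f.eval x), hc]

/-- the mass at an end point `c` -/
theorem KD.mass (h : KD φ a1 a2 a3 a4) (c ε : ℝ) (hε : 0 < ε) (S S' : Set ℝ)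
    (hS : (S = Ioo c (c + ε) ∧ S' = Ioo (c - ε) c) ∨ (S = Ioo (c - ε) c ∧ S' = Ioo c (c + ε)))
    (hne : ∀ x ∈ Ioo (c - ε) (c + ε), x ≠ c → a4.eval x ≠ 0) (hz : ∀ x ∈ S', AA φ a1 a2 x = 0)
    (hh N1 : ℝ[X]) (h4 : a4 = (X - C c) ^ 2 * hh) (hN : NN a3 a4 = (X - C c) * N1)
    (hlim : Tendsto (fun x => (x - c) * WW φ a1 a2 a4 x) (𝓝[S] c) (𝓝 0)) :
    a2.eval c * (φ {c}).toReal = 0 := by
  have hfin := h.fin
  have hSU : ∀ x ∈ S, a4.eval x ≠ 0 := by
    rcases hS with ⟨h1, _⟩ | ⟨h1, _⟩ <;> rw [h1] <;> intro x hx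
    · exact hne x ⟨by linarith [hx.1], hx.2⟩ hx.1.ne'
    · exact hne x ⟨hx.1, by linarith [hx.2]⟩ hx.2.ne
  have hSU' : ∀ x ∈ S', a4.eval x ≠ 0 := by
    rcases hS with ⟨_, h1⟩ | ⟨_, h1⟩ <;> rw [h1] <;> intro x hx
    · exact hne x ⟨hx.1, by linarith [hx.2]⟩ hx.2.ne
    · exact hne x ⟨by linarith [hx.1], hx.2⟩ hx.1.ne'
  have hV' : Tendsto (VV φ a1 a2) (𝓝[S'] c) (𝓝 0) := by
    apply tendsto_const_nhds.congr'
    filter_upwards [self_mem_nhdsWithin] with x hx
    rw [h.V_eq x (hSU' x hx)]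
    unfold WW
    rw [hz x hx]
    simp
  have hVS : Tendsto (VV φ a1 a2) (𝓝[S] c) (𝓝 0) := by
    have hp : Tendsto (fun x => (-(N1 + 2 * hh + (X - C c) * derivative hh)).eval x) (𝓝[S] c)
        (𝓝 ((-(N1 + 2 * hh + (X - C c) * derivative hh)).eval c)) :=
      (Polynomial.continuous _).continuousAt.tendsto.mono_left nhdsWithin_le_nhds
    have := hp.mul hlim
    rw [mul_zero] at this
    refine this.congr' ?_
    filter_upwards [self_mem_nhdsWithin] with x hx
    rw [h.V_eq x (hSU x hx)]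
    have e3 : (1 / 2) * a3.eval x = (NN a3 a4).eval x + (derivative a4).eval x := by
      simp only [NN, eval_sub, eval_mul, eval_C]; ring
    rw [e3, hN, h4]
    simp only [derivative_mul, derivative_pow, derivative_sub, derivative_X, derivative_C, eval_add,
      eval_mul, eval_sub, eval_X, eval_C, eval_pow, eval_neg, eval_ofNat, Nat.cast_ofNat, sub_zero,
      mul_one, eval_one]
    ring
  have vr := h.V_right c
  have vl := h.V_left c
  rcases hS with ⟨h1, h2⟩ | ⟨h1, h2⟩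
  · rw [h2, nhdsWithin_Ioo_eq_nhdsLT (by linarith)] at hV'
    rw [h1, nhdsWithin_Ioo_eq_nhdsGT (by linarith)] at hVS
    have e1 := tendsto_nhds_unique vl hV'
    have e2 := tendsto_nhds_unique vr hVS
    rw [e2, zero_add] at e1
    exact e1
  · rw [h2, nhdsWithin_Ioo_eq_nhdsGT (by linarith)] at hV'
    rw [h1, nhdsWithin_Ioo_eq_nhdsLT (by linarith)] at hVS
    have e1 := tendsto_nhds_unique vl hVS
    have e2 := tendsto_nhds_unique vr hV'
    rw [e2, zero_add] at e1
    exact e1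

/-- the indicial equation -/
theorem KD.indicial (h : KD φ a1 a2 a3 a4) (c : ℝ) (hh N1 : ℝ[X]) (h4 : a4 = (X - C c) ^ 2 * hh)
    (hN : NN a3 a4 = (X - C c) * N1) :
    N1.eval c * ((N1.eval c + 2 * hh.eval c) * (N1.eval c + hh.eval c) - a2.eval c * hh.eval c) = 0 := by
  set Y : ℝ[X] := X - C c with hY
  have hdY : derivative Y = 1 := by simp [hY]
  have hYe : Y.eval c = 0 := by simp [hY]
  have hYne : Y ≠ 0 := X_sub_C_ne_zero c
  set Q1 : ℝ[X] := (derivative (NN a3 a4) + derivative (derivative a4)) * hh +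
    (N1 + (2 * hh + Y * derivative hh)) * N1 - a2 * hh with hQ1
  have hd4 : derivative a4 = Y * (2 * hh + Y * derivative hh) := by
    rw [h4, derivative_mul, derivative_pow, hdY]
    simp only [Nat.cast_ofNat, map_ofNat]
    ring
  have hQ : QQ a2 a3 a4 = Y ^ 2 * Q1 := by
    unfold QQ
    rw [hQ1]
    have e1 : (derivative (NN a3 a4) + derivative (derivative a4)) * a4 =
        (derivative (NN a3 a4) + derivative (derivative a4)) * (Y ^ 2 * hh) := by rw [← h4]
    rw [e1, hd4, hN]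
    have e2 : a2 * a4 = a2 * (Y ^ 2 * hh) := by rw [← h4]
    rw [e2]
    ring
  have hs := h.star
  have hd' : derivative (QQ a2 a3 a4) = 2 * Y * Q1 + Y ^ 2 * derivative Q1 := by
    rw [hQ, derivative_mul, derivative_pow, hdY]
    simp only [Nat.cast_ofNat, map_ofNat]
    ring
  have key : Y ^ 3 * (2 * Q1 * hh + Y * (derivative Q1 * hh) + Q1 * (N1 - (2 * hh + Y * derivative hh))
      + Y * (a1 * hh ^ 2)) = 0 := by
    rw [hd', hQ, hd4, hN] at hs
    have e4 : (2 * Y * Q1 + Y ^ 2 * derivative Q1) * a4 =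
      (2 * Y * Q1 + Y ^ 2 * derivative Q1) * (Y ^ 2 * hh) := by rw [← h4]
    have e5 : a1 * a4 ^ 2 = a1 * (Y ^ 2 * hh) ^ 2 := by rw [← h4]
    rw [e4, e5] at hs
    linear_combination hs
  have key2 := (mul_eq_zero.1 key).resolve_left (pow_ne_zero 3 hYne)
  have key3 := congrArg (fun P : ℝ[X] => P.eval c) key2
  simp only [eval_add, eval_mul, eval_sub, hYe, zero_mul, add_zero, eval_zero, eval_ofNat] at key3
  have hQ1c : Q1.eval c = (N1.eval c + 2 * hh.eval c) * (N1.eval c + hh.eval c) - a2.eval c * hh.eval c := by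
    have e6 : (derivative (NN a3 a4)).eval c = N1.eval c := by
      rw [hN, derivative_mul, hdY]
      simp [hYe]
    have e7 : (derivative (derivative a4)).eval c = 2 * hh.eval c := by
      rw [hd4, derivative_mul, hdY]
      simp [hYe]
    rw [hQ1]
    simp only [eval_sub, eval_add, eval_mul, e6, e7, hYe, zero_mul, add_zero, eval_ofNat]
    ring
  rw [← hQ1c]
  linear_combination key3

end Pool.Agent.W2helper99.Kr
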