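import Mathlib

/-!
# Moment determinacy with exponential moments (after `Pool.Agent.Helper5.PG.moment_det`)
and exponential moments from factorial bounds on the even moments.
-/

set_option autoImplicit false
open MeasureTheory Set Filter Topology

namespace Pool.Agent.W2helper99.Kr

theorem moment_det (μ ν : Measure ℝ) [IsFiniteMeasure μ] [IsFiniteMeasure ν] (δ : ℝ) (hδ : 0 < δ)
    (hμ : Integrable (fun y : ℝ => Real.exp (δ * |y|)) μ)
    (hν : Integrable (fun y : ℝ => Real.exp (δ * |y|)) ν)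
    (h : ∀ n : ℕ, ∫ y, y ^ n ∂μ = ∫ y, y ^ n ∂ν) : μ = ν := by
  have hsub : ∀ (ρ : Measure ℝ), Integrable (fun y : ℝ => Real.exp (δ * |y|)) ρ →
      Ioo (-δ) δ ⊆ interior (ProbabilityTheory.integrableExpSet id ρ) := by
    intro ρ hρ
    apply interior_maximal _ isOpen_Ioo
    intro t ht
    show Integrable (fun y : ℝ => Real.exp (t * id y)) ρ
    refine hρ.mono' (by fun_prop) (Eventually.of_forall fun y => ?_)
    rw [Real.norm_of_nonneg (Real.exp_pos _).le]
    apply Real.exp_le_exp.2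
    calc t * id y ≤ |t * y| := le_abs_self _
      _ = |t| * |y| := abs_mul _ _
      _ ≤ δ * |y| := mul_le_mul_of_nonneg_right (abs_lt.2 ht).le (abs_nonneg _)
  have hμs := hsub μ hμ
  have hνs := hsub ν hν
  have h0 : (0 : ℝ) ∈ Ioo (-δ) δ := ⟨by linarith, hδ⟩
  set S : Set ℂ := {z : ℂ | z.re ∈ Ioo (-δ) δ} with hS
  have hSpre : IsPreconnected S := by
    have hc : Convex ℝ S := (convex_Ioo (-δ) δ).linear_preimage Complex.reLm
    exact hc.isPreconnected
  have haμ : AnalyticOnNhd ℂ (ProbabilityTheory.complexMGF id μ) S := fun z hz =>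
    ProbabilityTheory.analyticAt_complexMGF (hμs hz)
  have haν : AnalyticOnNhd ℂ (ProbabilityTheory.complexMGF id ν) S := fun z hz =>
    ProbabilityTheory.analyticAt_complexMGF (hνs hz)
  have h0S : (0 : ℂ) ∈ S := by
    show (0 : ℂ).re ∈ Ioo (-δ) δ
    rw [Complex.zero_re]
    exact h0
  have hder : ∀ n, iteratedDeriv n (ProbabilityTheory.complexMGF id μ) 0 =
      iteratedDeriv n (ProbabilityTheory.complexMGF id ν) 0 := by
    intro n
    rw [ProbabilityTheory.iteratedDeriv_complexMGF (hμs h0S),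
      ProbabilityTheory.iteratedDeriv_complexMGF (hνs h0S)]
    have e : ∀ ρ : Measure ℝ, ∫ ω : ℝ, ((id ω : ℝ) : ℂ) ^ n * Complex.exp (0 * ((id ω : ℝ) : ℂ)) ∂ρ =
        ((∫ y, y ^ n ∂ρ : ℝ) : ℂ) := by
      intro ρ
      rw [← integral_complex_ofReal]
      congr 1
      ext y
      simp
    rw [e μ, e ν, h n]
  have hev : ProbabilityTheory.complexMGF id μ =ᶠ[𝓝 0] ProbabilityTheory.complexMGF id ν := by
    have p1 := (haμ 0 h0S).hasFPowerSeriesAt
    have p2 := (haν 0 h0S).hasFPowerSeriesAt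
    simp only [hder] at p1
    have p3 := p1.sub p2
    rw [sub_self] at p3
    have p4 := p3.eventually_eq_zero
    filter_upwards [p4] with z hz
    exact sub_eq_zero.1 hz
  have heq := haμ.eqOn_of_preconnected_of_eventuallyEq haν hSpre h0S hev
  apply Measure.ext_of_charFun
  ext t
  rw [← ProbabilityTheory.complexMGF_id_mul_I, ← ProbabilityTheory.complexMGF_id_mul_I]
  apply heq
  show ((t : ℂ) * Complex.I).re ∈ Ioo (-δ) δ
  have : ((t : ℂ) * Complex.I).re = 0 := by simp
  rw [this]
  exact h0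

/-- exponential moments from factorial bounds of the even moments -/
theorem expmom (μ : Measure ℝ) (hint : ∀ k : ℕ, Integrable (fun x : ℝ => x ^ k) μ)
    (D K : ℝ) (hD : 0 ≤ D) (hK : 0 < K)
    (hb : ∀ n : ℕ, ∫ x, x ^ (2 * n) ∂μ ≤ D * K ^ (2 * n) * (Nat.factorial (2 * n) : ℝ)) :
    Integrable (fun y : ℝ => Real.exp ((1 / (2 * K)) * |y|)) μ := by
  set δ : ℝ := 1 / (2 * K) with hδ
  have hδ0 : 0 < δ := by positivity
  have hcosh : Integrable (fun y : ℝ => Real.cosh (δ * y)) μ := by
    refine ⟨by fun_prop, ?_⟩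
    rw [hasFiniteIntegral_iff_norm]
    have e1 : ∀ y : ℝ, ENNReal.ofReal ‖Real.cosh (δ * y)‖ =
        ∑' n : ℕ, ENNReal.ofReal ((δ * y) ^ (2 * n) / (Nat.factorial (2 * n) : ℝ)) := by
      intro y
      rw [Real.norm_of_nonneg (Real.cosh_pos _).le]
      have h := Real.hasSum_cosh (δ * y)
      rw [← h.tsum_eq, ENNReal.ofReal_tsum_of_nonneg _ h.summable]
      intro n
      have : 0 ≤ (δ * y) ^ (2 * n) := by rw [pow_mul]; positivity
      positivity
    simp_rw [e1]
    rw [lintegral_tsum (fun n => by fun_prop)]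
    have e2 : ∀ n : ℕ, ∫⁻ y, ENNReal.ofReal ((δ * y) ^ (2 * n) / (Nat.factorial (2 * n) : ℝ)) ∂μ
        ≤ ENNReal.ofReal (D * (1 / 4) ^ n) := by
      intro n
      rw [← ofReal_integral_eq_lintegral_ofReal]
      · apply ENNReal.ofReal_le_ofReal
        have e3 : ∫ y, (δ * y) ^ (2 * n) / (Nat.factorial (2 * n) : ℝ) ∂μ =
            δ ^ (2 * n) / (Nat.factorial (2 * n) : ℝ) * ∫ y, y ^ (2 * n) ∂μ := by
          rw [← integral_const_mul]
          congr 1
          ext y
          rw [mul_pow]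
          ring
        rw [e3]
        have hf : (0 : ℝ) < (Nat.factorial (2 * n) : ℝ) := by positivity
        calc δ ^ (2 * n) / (Nat.factorial (2 * n) : ℝ) * ∫ y, y ^ (2 * n) ∂μ
            ≤ δ ^ (2 * n) / (Nat.factorial (2 * n) : ℝ) *
              (D * K ^ (2 * n) * (Nat.factorial (2 * n) : ℝ)) := by
              apply mul_le_mul_of_nonneg_left (hb n) (by positivity)
          _ = D * (δ * K) ^ (2 * n) := by
              rw [mul_pow]
              field_simp
          _ = D * (1 / 4) ^ n := by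
              have : δ * K = 1 / 2 := by rw [hδ]; field_simp
              rw [this, pow_mul]
              norm_num
          _ ≤ D * (1 / 4) ^ n := le_refl _
      · have := (hint (2 * n)).const_mul (δ ^ (2 * n) / (Nat.factorial (2 * n) : ℝ))
        refine this.congr (Eventually.of_forall fun y => ?_)
        simp only
        rw [mul_pow]
        ring
      · refine Eventually.of_forall fun y => ?_
        have : 0 ≤ (δ * y) ^ (2 * n) := by rw [pow_mul]; positivity
        simp only [Pi.zero_apply]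
        positivity
    refine lt_of_le_of_lt (ENNReal.tsum_le_tsum e2) ?_
    rw [← ENNReal.ofReal_tsum_of_nonneg]
    · exact ENNReal.ofReal_lt_top
    · intro n; positivity
    · exact (summable_geometric_of_lt_one (by norm_num) (by norm_num)).mul_left D
  refine (hcosh.const_mul 2).mono' (by fun_prop) (Eventually.of_forall fun y => ?_)
  rw [Real.norm_of_nonneg (Real.exp_pos _).le, Real.cosh_eq]
  have h1 := Real.exp_pos (δ * y)
  have h2 := Real.exp_pos (-(δ * y))
  rcases le_total 0 y with hy | hy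
  · rw [abs_of_nonneg hy]
    linarith
  · rw [abs_of_nonpos hy]
    have : δ * -y = -(δ * y) := by ring
    rw [this]
    linarith

/-- signed determinacy -/
theorem det2 (μ ν : Measure ℝ) (f g : ℝ → ℝ) (δ : ℝ) (hδ : 0 < δ)
    (hfm : Measurable f) (hgm : Measurable g)
    (hf : Integrable (fun y => Real.exp (δ * |y|) * f y) μ)
    (hg : Integrable (fun y => Real.exp (δ * |y|) * g y) ν)
    (h : ∀ n : ℕ, ∫ y, y ^ n * f y ∂μ = ∫ y, y ^ n * g y ∂ν) (E : Set ℝ) (hE : MeasurableSet E) :
    ∫ y in E, f y ∂μ = ∫ y in E, g y ∂ν := by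
  have hint : ∀ (ρ : Measure ℝ) (u : ℝ → ℝ), Measurable u →
      Integrable (fun y => Real.exp (δ * |y|) * u y) ρ → ∀ n : ℕ,
      Integrable (fun y => y ^ n * u y) ρ := by
    intro ρ u hum hu n
    have hb : ∀ y : ℝ, |y| ^ n ≤ (Nat.factorial n : ℝ) / δ ^ n * Real.exp (δ * |y|) := by
      intro y
      have h1 := Real.pow_div_factorial_le_exp (δ * |y|) (by positivity) n
      rw [mul_pow] at h1
      have hf0 : (0 : ℝ) < (Nat.factorial n : ℝ) := by positivity
      rw [div_le_iff₀ hf0] at h1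
      have hd : 0 < δ ^ n := by positivity
      rw [div_mul_eq_mul_div, le_div_iff₀ hd]
      linarith
    refine (hu.norm.const_mul ((Nat.factorial n : ℝ) / δ ^ n)).mono'
      (by fun_prop) (Eventually.of_forall fun y => ?_)
    rw [norm_mul, norm_mul, norm_pow, Real.norm_eq_abs, Real.norm_eq_abs, Real.norm_eq_abs,
      abs_of_pos (Real.exp_pos _), ← mul_assoc]
    exact mul_le_mul_of_nonneg_right (hb y) (abs_nonneg _)
  have hexp1 : ∀ y : ℝ, 1 ≤ Real.exp (δ * |y|) := fun y => by
    rw [← Real.exp_zero]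
    exact Real.exp_le_exp.2 (by positivity)
  have hpos : ∀ (ρ : Measure ℝ) (u : ℝ → ℝ), Measurable u →
      Integrable (fun y => Real.exp (δ * |y|) * u y) ρ →
      Integrable (fun y => Real.exp (δ * |y|) * max (u y) 0) ρ := by
    intro ρ u hum hu
    refine hu.norm.mono' (by fun_prop) (Eventually.of_forall fun y => ?_)
    rw [norm_mul, norm_mul]
    apply mul_le_mul_of_nonneg_left _ (norm_nonneg _)
    rw [Real.norm_eq_abs, Real.norm_eq_abs, abs_of_nonneg (le_max_right _ _)]
    exact max_le (le_abs_self _) (abs_nonneg _)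
  have hneg : ∀ (ρ : Measure ℝ) (u : ℝ → ℝ), Integrable (fun y => Real.exp (δ * |y|) * u y) ρ →
      Integrable (fun y => Real.exp (δ * |y|) * (-u y)) ρ := by
    intro ρ u hu
    refine hu.neg.congr (Eventually.of_forall fun y => ?_)
    simp
  set fp : ℝ → ℝ := fun y => max (f y) 0
  set fn : ℝ → ℝ := fun y => max (-f y) 0
  set gp : ℝ → ℝ := fun y => max (g y) 0
  set gn : ℝ → ℝ := fun y => max (-g y) 0
  have hfpm : Measurable fp := by fun_prop
  have hfnm : Measurable fn := by fun_prop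
  have hgpm : Measurable gp := by fun_prop
  have hgnm : Measurable gn := by fun_prop
  have hfp := hpos μ f hfm hf
  have hfn := hpos μ (fun y => -f y) hfm.neg (hneg μ f hf)
  have hgp := hpos ν g hgm hg
  have hgn := hpos ν (fun y => -g y) hgm.neg (hneg ν g hg)
  have hsplit : ∀ a : ℝ, a = max a 0 - max (-a) 0 := by
    intro a
    rcases le_total 0 a with h0 | h0
    · rw [max_eq_left h0, max_eq_right (by linarith)]; ring
    · rw [max_eq_right h0, max_eq_left (by linarith)]; ring
  set M : (ρ : Measure ℝ) → (ℝ → ℝ) → Measure ℝ :=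
    fun ρ u => ρ.withDensity (fun y => ENNReal.ofReal (u y)) with hMdef
  have hMint : ∀ (ρ : Measure ℝ) (u : ℝ → ℝ), Measurable u → (∀ y, 0 ≤ u y) → ∀ (k : ℝ → ℝ),
      (Integrable k (M ρ u) ↔ Integrable (fun y => k y * u y) ρ) ∧
      ∫ y, k y ∂(M ρ u) = ∫ y, k y * u y ∂ρ := by
    intro ρ u hu h0 k
    constructor
    · rw [hMdef]
      simp only
      rw [integrable_withDensity_iff (by fun_prop) (Eventually.of_forall fun y => ENNReal.ofReal_lt_top)]
      simp only [ENNReal.toReal_ofReal (h0 _)]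
    · rw [hMdef]
      simp only
      rw [integral_withDensity_eq_integral_toReal_smul (by fun_prop)
        (Eventually.of_forall fun y => ENNReal.ofReal_lt_top)]
      congr 1
      ext y
      rw [ENNReal.toReal_ofReal (h0 _), smul_eq_mul, mul_comm]
  have hMfin : ∀ (ρ : Measure ℝ) (u : ℝ → ℝ), Measurable u → (∀ y, 0 ≤ u y) →
      Integrable (fun y => Real.exp (δ * |y|) * u y) ρ → IsFiniteMeasure (M ρ u) := by
    intro ρ u hu h0 hi
    have h1 : Integrable (fun y : ℝ => Real.exp (δ * |y|)) (M ρ u) := (hMint ρ u hu h0 _).1.2 hi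
    have h2 : Integrable (fun _ : ℝ => (1 : ℝ)) (M ρ u) := by
      refine h1.mono' (by fun_prop) (Eventually.of_forall fun y => ?_)
      simpa using hexp1 y
    exact (integrable_const_iff_isFiniteMeasure one_ne_zero).1 h2
  have hfp0 : ∀ y, 0 ≤ fp y := fun y => le_max_right _ _
  have hfn0 : ∀ y, 0 ≤ fn y := fun y => le_max_right _ _
  have hgp0 : ∀ y, 0 ≤ gp y := fun y => le_max_right _ _
  have hgn0 : ∀ y, 0 ≤ gn y := fun y => le_max_right _ _
  have := hMfin μ fp hfpm hfp0 hfp
  have := hMfin μ fn hfnm hfn0 hfn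
  have := hMfin ν gp hgpm hgp0 hgp
  have := hMfin ν gn hgnm hgn0 hgn
  have key : M μ fp + M ν gn = M μ fn + M ν gp := by
    apply moment_det _ _ δ hδ
    · exact ((hMint μ fp hfpm hfp0 _).1.2 hfp).add_measure ((hMint ν gn hgnm hgn0 _).1.2 hgn)
    · exact ((hMint μ fn hfnm hfn0 _).1.2 hfn).add_measure ((hMint ν gp hgpm hgp0 _).1.2 hgp)
    · intro n
      have i1 := hint μ fp hfpm hfp n
      have i2 := hint μ fn hfnm hfn n
      have i3 := hint ν gp hgpm hgp n
      have i4 := hint ν gn hgnm hgn n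
      rw [integral_add_measure ((hMint μ fp hfpm hfp0 _).1.2 i1) ((hMint ν gn hgnm hgn0 _).1.2 i4),
        integral_add_measure ((hMint μ fn hfnm hfn0 _).1.2 i2) ((hMint ν gp hgpm hgp0 _).1.2 i3),
        (hMint μ fp hfpm hfp0 _).2, (hMint ν gn hgnm hgn0 _).2, (hMint μ fn hfnm hfn0 _).2,
        (hMint ν gp hgpm hgp0 _).2]
      have e1 : ∫ y, y ^ n * f y ∂μ = ∫ y, y ^ n * fp y ∂μ - ∫ y, y ^ n * fn y ∂μ := by
        rw [← integral_sub i1 i2]
        congr 1
        ext y
        rw [← mul_sub, ← hsplit]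
      have e2 : ∫ y, y ^ n * g y ∂ν = ∫ y, y ^ n * gp y ∂ν - ∫ y, y ^ n * gn y ∂ν := by
        rw [← integral_sub i3 i4]
        congr 1
        ext y
        rw [← mul_sub, ← hsplit]
      have := h n
      rw [e1, e2] at this
      linarith
  have hint1 : ∀ (ρ : Measure ℝ) (u : ℝ → ℝ), Measurable u →
      Integrable (fun y => Real.exp (δ * |y|) * u y) ρ → Integrable u ρ := by
    intro ρ u hum hu
    simpa using hint ρ u hum hu 0
  have hset : ∀ (ρ : Measure ℝ) (u : ℝ → ℝ) (hu : Measurable u) (h0 : ∀ y, 0 ≤ u y),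
      Integrable u ρ → (M ρ u E).toReal = ∫ y in E, u y ∂ρ := by
    intro ρ u hu h0 hi
    rw [hMdef]
    simp only
    rw [withDensity_apply _ hE, ← ofReal_integral_eq_lintegral_ofReal hi.restrict
      (Eventually.of_forall h0), ENNReal.toReal_ofReal (integral_nonneg h0)]
  have k2 := congrArg (fun m : Measure ℝ => (m E).toReal) key
  simp only [Measure.add_apply] at k2
  rw [ENNReal.toReal_add (measure_ne_top _ _) (measure_ne_top _ _),
    ENNReal.toReal_add (measure_ne_top _ _) (measure_ne_top _ _),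
    hset μ fp hfpm hfp0 (hint1 _ _ hfpm hfp), hset μ fn hfnm hfn0 (hint1 _ _ hfnm hfn),
    hset ν gp hgpm hgp0 (hint1 _ _ hgpm hgp), hset ν gn hgnm hgn0 (hint1 _ _ hgnm hgn)] at k2
  have e1 : ∫ y in E, f y ∂μ = ∫ y in E, fp y ∂μ - ∫ y in E, fn y ∂μ := by
    rw [← integral_sub (hint1 _ _ hfpm hfp).restrict (hint1 _ _ hfnm hfn).restrict]
    congr 1
    ext y
    exact hsplit (f y)
  have e2 : ∫ y in E, g y ∂ν = ∫ y in E, gp y ∂ν - ∫ y in E, gn y ∂ν := by
    rw [← integral_sub (hint1 _ _ hgpm hgp).restrict (hint1 _ _ hgnm hgn).restrict]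
    congr 1
    ext y
    exact hsplit (g y)
  rw [e1, e2]
  linarith

end Pool.Agent.W2helper99.Kr
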