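import Pool.Agent.W2helper99.Kr.Ode

/-!
# The analysis at infinity and the degree constraints
-/

set_option autoImplicit false
open MeasureTheory Set Filter Topology Polynomial

namespace Pool.Agent.W2helper99.Kr

lemma growth_top (A u : ℝ → ℝ) (M K : ℝ) (hM : 0 < M) (hA : ∀ x, M < x → 0 < A x)
    (hd : ∀ x, M < x → HasDerivAt A (u x * A x) x) (hu : ∀ x, M < x → -K / x ≤ u x)
    (hint : ∀ n : ℕ, Integrable (fun x => x ^ n * A x) volume) : False := by
  obtain ⟨n, hn⟩ := exists_nat_ge K
  set G : ℝ → ℝ := fun x => x ^ n * A x with hG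
  have hGd : ∀ x, M < x → HasDerivAt G ((n : ℝ) * x ^ (n - 1) * A x + x ^ n * (u x * A x)) x := by
    intro x hx
    exact (hasDerivAt_pow n x).mul (hd x hx)
  have hmono : MonotoneOn G (Ioi M) := by
    apply monotoneOn_of_deriv_nonneg (convex_Ioi M)
    · intro x hx
      exact (hGd x hx).continuousAt.continuousWithinAt
    · rw [interior_Ioi]
      intro x hx
      exact (hGd x hx).differentiableAt.differentiableWithinAt
    · rw [interior_Ioi]
      intro x hx
      rw [(hGd x hx).deriv]
      have hx0 : 0 < x := hM.trans hx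
      have h1 := hu x hx
      have h2 := hA x hx
      rcases Nat.eq_zero_or_pos n with h0 | h0
      · subst h0
        simp only [Nat.cast_zero, zero_mul, pow_zero, one_mul, zero_add]
        apply mul_nonneg _ h2.le
        refine le_trans ?_ h1
        apply div_nonneg _ hx0.le
        simp only [Nat.cast_zero] at hn
        linarith
      · have e : (n : ℝ) * x ^ (n - 1) * A x + x ^ n * (u x * A x) = x ^ n * A x * ((n : ℝ) / x + u x) := by
          have : x ^ n = x ^ (n - 1) * x := by rw [← pow_succ]; congr 1; omega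
          rw [this]
          field_simp
        rw [e]
        apply mul_nonneg (mul_nonneg (pow_nonneg hx0.le n) h2.le)
        have h3 : -K / x = -(K / x) := by ring
        have h4 : K / x ≤ n / x := div_le_div_of_nonneg_right hn hx0.le
        linarith
  have hg : 0 < G (M + 1) := mul_pos (pow_pos (by linarith) n) (hA _ (by linarith))
  have hi : IntegrableOn (fun _ : ℝ => G (M + 1)) (Ioi (M + 1)) volume := by
    refine Integrable.mono' (hint n).norm.integrableOn (by fun_prop) ?_
    refine (ae_restrict_iff' measurableSet_Ioi).2 (Eventually.of_forall fun x hx => ?_)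
    have hx' : M + 1 < x := hx
    rw [Real.norm_of_nonneg hg.le]
    refine le_trans (hmono (show M + 1 ∈ Ioi M by simp) (show x ∈ Ioi M from by
      simp only [mem_Ioi]; linarith) hx'.le) ?_
    exact le_abs_self _
  rw [integrableOn_const_iff] at hi
  rcases hi with h | h
  · exact hg.ne' (by simpa using h)
  · simp at h

lemma growth_bot (A u : ℝ → ℝ) (M K : ℝ) (hM : 0 < M) (hA : ∀ x, x < -M → 0 < A x)
    (hd : ∀ x, x < -M → HasDerivAt A (u x * A x) x) (hu : ∀ x, x < -M → u x ≤ K / (-x))
    (hint : ∀ n : ℕ, Integrable (fun x => x ^ n * A x) volume) : False := by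
  apply growth_top (fun x => A (-x)) (fun x => -u (-x)) M K hM
  · intro x hx
    exact hA _ (by linarith)
  · intro x hx
    have h1 := (hd (-x) (by linarith)).scomp x (hasDerivAt_neg x)
    convert! h1 using 1
    simp
  · intro x hx
    have := hu (-x) (by linarith)
    rw [neg_neg] at this
    have e : -K / x = -(K / x) := by ring
    show -K / x ≤ -u (-x)
    linarith
  · intro n
    have h1 := (hint n).comp_neg
    have h2 := h1.const_mul ((-1) ^ n)
    refine h2.congr (Eventually.of_forall fun x => ?_)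
    simp only
    rw [← mul_assoc, ← mul_pow]
    simp

variable {φ : Measure ℝ} {a1 a2 a3 a4 : ℝ[X]}

/-- the logarithmic derivative of `A` -/
noncomputable def uA (a3 a4 : ℝ[X]) (x : ℝ) : ℝ := a3.eval x / (2 * a4.eval x)

lemma KD.A_deriv2 (h : KD φ a1 a2 a3 a4) (x : ℝ) (hx : a4.eval x ≠ 0) :
    HasDerivAt (AA φ a1 a2) (uA a3 a4 x * AA φ a1 a2 x) x := by
  have := h.A_deriv' x hx
  convert! this using 1
  unfold uA WW
  field_simp

lemma KD.xA_int (h : KD φ a1 a2 a3 a4) (n : ℕ) : Integrable (fun x => x ^ n * AA φ a1 a2 x) volume := by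
  simpa using h.basic.2.2.2.2.2.1 (X ^ n)

/-- no slow decay at `+∞` -/
def GT (a3 a4 : ℝ[X]) : Prop := ∀ K M : ℝ, 0 < M → ¬ (∀ x, M < x → -K / x ≤ uA a3 a4 x)

/-- no slow decay at `-∞` -/
def GB (a3 a4 : ℝ[X]) : Prop := ∀ K M : ℝ, 0 < M → ¬ (∀ x, x < -M → uA a3 a4 x ≤ K / (-x))

lemma KD.gt (h : KD φ a1 a2 a3 a4) (M0 : ℝ) (hne : ∀ x, M0 < x → a4.eval x ≠ 0) (x0 : ℝ)
    (hx0 : M0 < x0) (hA : AA φ a1 a2 x0 ≠ 0) : GT a3 a4 := by
  intro K M hM hu
  have hw := h.W_ne_prop (Ioi M0) isOpen_Ioi ordConnected_Ioi (fun x hx => hne x hx) x0 hx0 hA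
  have hApos : ∀ x, M0 < x → 0 < AA φ a1 a2 x := by
    intro x hx
    have h1 := hw x hx
    have h2 : AA φ a1 a2 x ≠ 0 := fun h0 => h1 (by unfold WW; rw [h0, zero_div])
    exact lt_of_le_of_ne (h.A_nonneg x) h2.symm
  apply growth_top (AA φ a1 a2) (uA a3 a4) (max M M0) K (lt_max_of_lt_left hM)
  · intro x hx
    exact hApos x ((le_max_right _ _).trans_lt hx)
  · intro x hx
    exact h.A_deriv2 x (hne x ((le_max_right _ _).trans_lt hx))
  · intro x hx
    exact hu x ((le_max_left _ _).trans_lt hx)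
  · exact h.xA_int

lemma KD.gb (h : KD φ a1 a2 a3 a4) (M0 : ℝ) (hne : ∀ x, x < -M0 → a4.eval x ≠ 0) (x0 : ℝ)
    (hx0 : x0 < -M0) (hA : AA φ a1 a2 x0 ≠ 0) : GB a3 a4 := by
  intro K M hM hu
  have hw := h.W_ne_prop (Iio (-M0)) isOpen_Iio ordConnected_Iio (fun x hx => hne x hx) x0 hx0 hA
  have hApos : ∀ x, x < -M0 → 0 < AA φ a1 a2 x := by
    intro x hx
    have h1 := hw x hx
    have h2 : AA φ a1 a2 x ≠ 0 := fun h0 => h1 (by unfold WW; rw [h0, zero_div])
    exact lt_of_le_of_ne (h.A_nonneg x) h2.symm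
  have hlt : ∀ x, x < -(max M M0) → x < -M ∧ x < -M0 := by
    intro x hx
    constructor
    · have := le_max_left M M0; linarith
    · have := le_max_right M M0; linarith
  apply growth_bot (AA φ a1 a2) (uA a3 a4) (max M M0) K (lt_max_of_lt_left hM)
  · intro x hx
    exact hApos x (hlt x hx).2
  · intro x hx
    exact h.A_deriv2 x (hne x (hlt x hx).2)
  · intro x hx
    exact hu x (hlt x hx).1
  · exact h.xA_int

lemma deg_lt_bound (hne : a4 ≠ 0) (hlt : a3.degree < a4.degree) :
    ∃ K M : ℝ, 0 < M ∧ (∀ x, M < x → |uA a3 a4 x| ≤ K / x) ∧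
      (∀ x, x < -M → |uA a3 a4 x| ≤ K / (-x)) := by
  have hle : (X * a3).degree ≤ a4.degree := by
    rw [degree_mul, degree_X]
    rcases eq_or_ne a3 0 with h0 | h0
    · rw [h0, degree_zero]; simp
    · rw [degree_eq_natDegree h0, degree_eq_natDegree hne] at hlt
      rw [degree_eq_natDegree h0, degree_eq_natDegree hne]
      norm_cast at hlt ⊢
      omega
  obtain ⟨C1, hC1⟩ := (isBigO_atTop_of_degree_le (X * a3) a4 hle).bound
  obtain ⟨C2, hC2⟩ := (isBigO_atBot_of_degree_le (X * a3) a4 hle).bound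
  obtain ⟨M1, hM1⟩ := eventually_atTop.1 (hC1.and (eventually_atTop_not_isRoot a4 hne))
  obtain ⟨M2, hM2⟩ := eventually_atBot.1 (hC2.and (eventually_atBot_not_isRoot a4 hne))
  refine ⟨max C1 C2, max (max M1 (-M2)) 1, by positivity, ?_, ?_⟩
  · intro x hx
    have h1 : M1 ≤ x := ((le_max_left _ _).trans (le_max_left _ _)).trans hx.le
    have h2 : 1 < x := (le_max_right _ _).trans_lt hx
    obtain ⟨h3, h4⟩ := hM1 x h1
    have h4' : a4.eval x ≠ 0 := h4
    have hx0 : 0 < x := by linarith
    simp only [eval_mul, eval_X, Real.norm_eq_abs, abs_mul, abs_of_pos hx0] at h3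
    unfold uA
    rw [le_div_iff₀ hx0, abs_div, abs_mul, abs_two, div_mul_eq_mul_div,
      div_le_iff₀ (by positivity)]
    have h5 : C1 * |a4.eval x| ≤ max C1 C2 * |a4.eval x| :=
      mul_le_mul_of_nonneg_right (le_max_left _ _) (abs_nonneg _)
    have h6 : 0 ≤ x * |a3.eval x| := by positivity
    nlinarith
  · intro x hx
    have h1 : x ≤ M2 := by
      have := (le_max_right M1 (-M2)).trans (le_max_left (max M1 (-M2)) 1)
      linarith
    have h2 : 1 < -x := by
      have := le_max_right (max M1 (-M2)) 1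
      linarith
    obtain ⟨h3, h4⟩ := hM2 x h1
    have h4' : a4.eval x ≠ 0 := h4
    have hx0 : 0 < -x := by linarith
    have hx1 : |x| = -x := abs_of_neg (by linarith)
    simp only [eval_mul, eval_X, Real.norm_eq_abs, abs_mul, hx1] at h3
    unfold uA
    rw [le_div_iff₀ hx0, abs_div, abs_mul, abs_two, div_mul_eq_mul_div,
      div_le_iff₀ (by positivity)]
    have h5 : C2 * |a4.eval x| ≤ max C1 C2 * |a4.eval x| :=
      mul_le_mul_of_nonneg_right (le_max_right _ _) (abs_nonneg _)
    have h6 : 0 ≤ -x * |a3.eval x| := by positivity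
    nlinarith

lemma GT.deg (hg : GT a3 a4) (hne : a4 ≠ 0) : a4.degree ≤ a3.degree := by
  by_contra hcon
  push Not at hcon
  obtain ⟨K, M, hM, h1, _⟩ := deg_lt_bound hne hcon
  apply hg K M hM
  intro x hx
  have := (abs_le.1 (h1 x hx)).1
  have e : -K / x = -(K / x) := by ring
  rw [e]; exact this

lemma GB.deg (hg : GB a3 a4) (hne : a4 ≠ 0) : a4.degree ≤ a3.degree := by
  by_contra hcon
  push Not at hcon
  obtain ⟨K, M, hM, _, h1⟩ := deg_lt_bound hne hcon
  apply hg K M hM
  intro x hx
  exact (abs_le.1 (h1 x hx)).2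

lemma two_sided (hne : a4 ≠ 0) (ht : GT a3 a4) (hb : GB a3 a4) : a4.degree < a3.degree := by
  rcases lt_or_eq_of_le (ht.deg hne) with h | h
  · exact h
  · exfalso
    have h3 : a3 ≠ 0 := by
      intro h0
      rw [h0, degree_zero] at h
      exact hne (degree_eq_bot.1 h)
    have hdeg : a3.degree = (C 2 * a4).degree := by
      rw [degree_C_mul two_ne_zero, h]
    have l1 := div_tendsto_atTop_leadingCoeff_div_of_degree_eq a3 (C 2 * a4) hdeg
    have l2 := div_tendsto_atBot_leadingCoeff_div_of_degree_eq (P := a3) (Q := C 2 * a4) hdeg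
    set c0 := a3.leadingCoeff / (C 2 * a4).leadingCoeff with hc0
    have hc0' : c0 ≠ 0 := div_ne_zero (leadingCoeff_ne_zero.2 h3)
      (leadingCoeff_ne_zero.2 (mul_ne_zero (C_ne_zero.2 two_ne_zero) hne))
    have e : ∀ x, a3.eval x / (C 2 * a4).eval x = uA a3 a4 x := fun x => by simp [uA]
    rcases lt_or_gt_of_ne hc0' with hn | hp
    · -- negative limit: contradiction at -∞
      have := l2.eventually (eventually_lt_nhds hn)
      obtain ⟨M, hM⟩ := eventually_atBot.1 this
      apply hb 0 (max (-M) 1) (by positivity)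
      intro x hx
      have h1 : x ≤ M := by
        have := le_max_left (-M) 1
        linarith
      have h2 := hM x h1
      rw [← e]
      simp only [zero_div]
      exact h2.le
    · have := l1.eventually (eventually_gt_nhds hp)
      obtain ⟨M, hM⟩ := eventually_atTop.1 this
      apply ht 0 (max M 1) (by positivity)
      intro x hx
      have h1 : M ≤ x := (le_max_left _ _).trans hx.le
      have h2 := hM x h1
      rw [← e]
      simp only [neg_zero, zero_div]
      exact h2.le

/-- degree constraints from the star identity -/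
theorem KD.deg_constraint (h : KD φ a1 a2 a3 a4) (hd : a4.degree ≤ a3.degree) :
    2 * a3.natDegree ≤ a4.natDegree + 2 ∧ (NN a3 a4).natDegree ≤ a3.natDegree := by
  have hne := h.ne
  have h3 : a3 ≠ 0 := by
    intro h0
    rw [h0, degree_zero] at hd
    exact hne (degree_eq_bot.1 (le_bot_iff.1 hd))
  have hdn : a4.natDegree ≤ a3.natDegree := natDegree_le_natDegree hd
  set d := a4.natDegree with hd'
  set e := a3.natDegree with he'
  set D := derivative a4 with hD
  have hD0 : D = 0 ∨ D.natDegree < e := by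
    rcases Nat.eq_zero_or_pos d with h0 | h0
    · left
      rw [hD, eq_C_of_natDegree_eq_zero (p := a4) (by rw [← hd']; exact h0), derivative_C]
    · right
      have : D.natDegree < a4.natDegree := natDegree_derivative_lt (p := a4) (by omega)
      omega
  have hC3 : (C (1 / 2 : ℝ) * a3).natDegree = e := by
    rw [natDegree_C_mul (by norm_num)]
  have hC3' : (C (1 / 2 : ℝ) * a3) ≠ 0 := mul_ne_zero (C_ne_zero.2 (by norm_num)) h3
  -- N, N + D, N - D all of degree e
  have key : ∀ P : ℝ[X], (P = 0 ∨ P.natDegree < e) → (C (1 / 2 : ℝ) * a3 + P) ≠ 0 ∧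
      (C (1 / 2 : ℝ) * a3 + P).natDegree = e := by
    rintro P (h0 | h0)
    · rw [h0, add_zero]; exact ⟨hC3', hC3⟩
    · have h1 : (C (1 / 2 : ℝ) * a3 + P).natDegree = e := by
        rw [natDegree_add_eq_left_of_natDegree_lt (by rw [hC3]; exact h0), hC3]
      refine ⟨fun h2 => ?_, h1⟩
      rw [h2, natDegree_zero] at h1
      omega
  have hN : NN a3 a4 ≠ 0 ∧ (NN a3 a4).natDegree = e := by
    have := key (-D) (by
      rcases hD0 with h0 | h0
      · left; rw [h0, neg_zero]
      · right; rwa [natDegree_neg])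
    rwa [← sub_eq_add_neg] at this
  have hND : (NN a3 a4 + D) ≠ 0 ∧ (NN a3 a4 + D).natDegree = e := by
    have := key 0 (Or.inl rfl)
    have e2 : NN a3 a4 + D = C (1 / 2 : ℝ) * a3 + 0 := by
      simp only [NN, ← hD]; ring
    rwa [e2]
  have hNmD : (NN a3 a4 - D) ≠ 0 ∧ (NN a3 a4 - D).natDegree = e := by
    have := key (-(C 2 * D)) (by
      rcases hD0 with h0 | h0
      · left; rw [h0]; simp
      · right; rwa [natDegree_neg, natDegree_C_mul (by norm_num)])
    have e2 : NN a3 a4 - D = C (1 / 2 : ℝ) * a3 + -(C 2 * D) := by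
      simp only [NN, ← hD]
      have : (C (2 : ℝ) : ℝ[X]) = 2 := map_ofNat C 2
      rw [this]
      ring
    rwa [e2]
  refine ⟨?_, hN.2.le⟩
  have hL : ((NN a3 a4 + D) * NN a3 a4 * (NN a3 a4 - D)).natDegree = 3 * e := by
    rw [natDegree_mul (mul_ne_zero hND.1 hN.1) hNmD.1, natDegree_mul hND.1 hN.1, hND.2, hN.2, hNmD.2]
    ring
  set S := derivative (QQ a2 a3 a4) + (derivative (NN a3 a4) + derivative D - a2) * (NN a3 a4 - D)
    + a1 * a4 with hS
  have hLS : (NN a3 a4 + D) * NN a3 a4 * (NN a3 a4 - D) = -(S * a4) := by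
    have := h.star
    simp only [QQ, ← hD] at this
    rw [hS]
    simp only [QQ, ← hD]
    linear_combination this
  have h1 := h.d1
  have h2 := h.d2
  have he3 : e ≤ 3 := h.d3
  have hd4 : d ≤ 4 := h.d4
  have bN : (NN a3 a4).natDegree ≤ e := hN.2.le
  have bD : D.natDegree ≤ d - 1 := natDegree_derivative_le a4
  have bN' : (derivative (NN a3 a4)).natDegree ≤ e - 1 := by
    have := natDegree_derivative_le (NN a3 a4)
    omega
  have bD' : (derivative D).natDegree ≤ d - 1 - 1 := by
    have := natDegree_derivative_le D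
    omega
  have b1 : (derivative (NN a3 a4) + derivative D).natDegree ≤ max (e - 1) (d - 1 - 1) :=
    natDegree_add_le_of_le bN' bD'
  have bQ : (QQ a2 a3 a4).natDegree ≤ max (max (max (e - 1) (d - 1 - 1) + d) (e + e)) (2 + d) := by
    unfold QQ
    refine natDegree_sub_le_of_le (natDegree_add_le_of_le (natDegree_mul_le_of_le b1 le_rfl)
      (natDegree_mul_le_of_le hND.2.le bN)) (natDegree_mul_le_of_le h2 le_rfl)
  have bQ' : (derivative (QQ a2 a3 a4)).natDegree ≤
      max (max (max (e - 1) (d - 1 - 1) + d) (e + e)) (2 + d) - 1 := by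
    have := natDegree_derivative_le (QQ a2 a3 a4)
    omega
  have b2 : ((derivative (NN a3 a4) + derivative D - a2) * (NN a3 a4 - D)).natDegree ≤
      max (max (e - 1) (d - 1 - 1)) 2 + e :=
    natDegree_mul_le_of_le (natDegree_sub_le_of_le b1 h2) hNmD.2.le
  have b3 : (a1 * a4).natDegree ≤ 1 + d := natDegree_mul_le_of_le h1 le_rfl
  have bS : S.natDegree ≤ max (max (max (max (max (e - 1) (d - 1 - 1) + d) (e + e)) (2 + d) - 1)
      (max (max (e - 1) (d - 1 - 1)) 2 + e)) (1 + d) :=
    natDegree_add_le_of_le (natDegree_add_le_of_le bQ' b2) b3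
  have bSa : (S * a4).natDegree ≤ max (max (max (max (max (e - 1) (d - 1 - 1) + d) (e + e)) (2 + d) - 1)
      (max (max (e - 1) (d - 1 - 1)) 2 + e)) (1 + d) + d := natDegree_mul_le_of_le bS le_rfl
  have hfin : 3 * e = (S * a4).natDegree := by
    rw [← hL, hLS, natDegree_neg]
  rw [← hfin] at bSa
  omega

end Pool.Agent.W2helper99.Kr
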