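import Pool.Agent.W2helper99.Kr.Concl

/-!
# The case of a bounded support
-/

set_option autoImplicit false
open MeasureTheory Set Filter Topology Polynomial

namespace Pool.Agent.W2helper99.Kr

variable {φ : Measure ℝ} {a1 a2 a3 a4 : ℝ[X]}

lemma rpow_int_left (α γ ρ : ℝ) (hlt : α < γ)
    (h2 : IntegrableOn (fun x => (x - α) ^ ρ) (Ioo α γ) volume) : -1 < ρ := by
  have h3 : IntegrableOn (fun x : ℝ => x ^ ρ) (Ioo 0 (γ - α)) volume := by
    rw [← integrable_indicator_iff measurableSet_Ioo] at h2 ⊢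
    have := h2.comp_add_right α
    refine this.congr (Eventually.of_forall fun x => ?_)
    simp only
    by_cases hx : x ∈ Ioo (0 : ℝ) (γ - α)
    · rw [indicator_of_mem hx, indicator_of_mem (show x + α ∈ Ioo α γ from
        ⟨by linarith [hx.1], by linarith [hx.2]⟩)]
      congr 1; ring
    · rw [indicator_of_notMem hx, indicator_of_notMem]
      rintro ⟨h5, h6⟩
      exact hx ⟨by linarith, by linarith⟩
  exact (intervalIntegral.integrableOn_Ioo_rpow_iff (by linarith)).1 h3

lemma rpow_int_right (γ β ρ : ℝ) (hlt : γ < β)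
    (h2 : IntegrableOn (fun x => (β - x) ^ ρ) (Ioo γ β) volume) : -1 < ρ := by
  apply rpow_int_left (-β) (-γ) ρ (by linarith)
  rw [← integrable_indicator_iff measurableSet_Ioo] at h2 ⊢
  have := h2.comp_neg
  refine this.congr (Eventually.of_forall fun x => ?_)
  simp only
  by_cases hx : x ∈ Ioo (-β) (-γ)
  · rw [indicator_of_mem hx, indicator_of_mem (show -x ∈ Ioo γ β from
      ⟨by linarith [hx.2], by linarith [hx.1]⟩)]
    congr 1; ring
  · rw [indicator_of_notMem hx, indicator_of_notMem]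
    rintro ⟨h5, h6⟩
    exact hx ⟨by linarith, by linarith⟩

lemma pos_min (f : ℝ → ℝ) (a b : ℝ) (hab : a ≤ b) (hf : ContinuousOn f (Icc a b))
    (hpos : ∀ x ∈ Icc a b, 0 < f x) : ∃ c > 0, ∀ x ∈ Icc a b, c ≤ f x := by
  obtain ⟨x0, hx0, hmin⟩ := isCompact_Icc.exists_isMinOn (nonempty_Icc.2 hab) hf
  exact ⟨f x0, hpos x0 hx0, fun x hx => hmin hx⟩

lemma dd_eval (k α β x : ℝ) : (derivative (derivative (C k * ((X - C α) ^ 2 * (X - C β) ^ 2)))).eval x =
    k * (2 * (x - β) ^ 2 + 8 * ((x - α) * (x - β)) + 2 * (x - α) ^ 2) := by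
  have e1 : derivative (C k * ((X - C α) ^ 2 * (X - C β) ^ 2)) =
      C (2 * k) * ((X - C α) * (X - C β) ^ 2 + (X - C α) ^ 2 * (X - C β)) := by
    have h2 : (C (2 : ℝ) : ℝ[X]) = 2 := map_ofNat C 2
    simp only [derivative_mul, derivative_C, derivative_pow, derivative_sub, derivative_X, C_mul,
      Nat.cast_ofNat, h2]
    ring
  rw [e1]
  simp only [derivative_mul, derivative_C, derivative_pow, derivative_sub, derivative_X, derivative_add,
        eval_add, eval_mul, eval_sub, eval_X, eval_C, eval_pow, Nat.cast_ofNat, map_ofNat,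
        eval_ofNat, zero_mul, zero_add, sub_zero, mul_one, one_mul]
  ring

/-- the bounded case -/
theorem KD.jacobi (h : KD φ a1 a2 a3 a4) (α β k : ℝ) (hlt : α < β) (hk : k ≠ 0)
    (e4 : a4 = C k * ((X - C α) ^ 2 * (X - C β) ^ 2))
    (hNα : (NN a3 a4).eval α = 0) (hNβ : (NN a3 a4).eval β = 0)
    (hz1 : ∀ x, x ≤ α → AA φ a1 a2 x = 0) (hz2 : ∀ x, β ≤ x → AA φ a1 a2 x = 0)
    (hA : ∀ x ∈ Ioo α β, AA φ a1 a2 x ≠ 0) : Concl φ := by
  have hfin := h.fin
  have hαβ : α - β ≠ 0 := sub_ne_zero.2 hlt.ne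
  have hβα : β - α ≠ 0 := sub_ne_zero.2 hlt.ne'
  obtain ⟨N1, hN1⟩ := dvd_iff_isRoot.2 (show (NN a3 a4).IsRoot α from hNα)
  have hN1β : N1.IsRoot β := by
    rw [hN1] at hNβ
    simp only [eval_mul, eval_sub, eval_X, eval_C] at hNβ
    exact (mul_eq_zero.1 hNβ).resolve_left hβα
  obtain ⟨ℓ, hℓ⟩ := dvd_iff_isRoot.2 hN1β
  have hN3 : (NN a3 a4).natDegree ≤ 3 := by
    unfold NN
    refine natDegree_sub_le_of_le (m := 3) (n := 3) ?_ ?_ |>.trans (by simp)
    · exact (natDegree_C_mul_le _ _).trans h.d3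
    · have := natDegree_derivative_le a4
      have := h.d4
      omega
  have hℓd : ℓ.natDegree ≤ 1 := by
    rcases eq_or_ne ℓ 0 with h0 | h0
    · rw [h0]; simp
    · have h1 := (monic_X_sub_C β).natDegree_mul' h0
      have h2 := (monic_X_sub_C α).natDegree_mul' (q := (X - C β) * ℓ)
        (mul_ne_zero (X_sub_C_ne_zero β) h0)
      rw [← hℓ] at h1 h2
      rw [← hN1, natDegree_X_sub_C] at h2
      rw [natDegree_X_sub_C] at h1
      omega
  obtain ⟨l1, l0, hℓe⟩ := exists_eq_X_add_C_of_natDegree_le_one hℓd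
  have hℓx : ∀ x, ℓ.eval x = l1 * x + l0 := fun x => by rw [hℓe]; simp
  have hNx : ∀ x, (NN a3 a4).eval x = (x - α) * ((x - β) * (l1 * x + l0)) := fun x => by
    rw [hN1, hℓ]
    simp only [eval_mul, eval_sub, eval_X, eval_C, hℓx]
  have h4x : ∀ x, a4.eval x = k * ((x - α) ^ 2 * (x - β) ^ 2) := fun x => by
    rw [e4]; simp only [eval_mul, eval_sub, eval_X, eval_C, eval_pow]
  have h4ne : ∀ x, x ≠ α → x ≠ β → a4.eval x ≠ 0 := fun x hx hx' => by
    rw [h4x]
    exact mul_ne_zero hk (mul_ne_zero (pow_ne_zero 2 (sub_ne_zero.2 hx)) (pow_ne_zero 2 (sub_ne_zero.2 hx')))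
  set ρ1 := (l1 * α + l0) / (k * (α - β)) with hρ1
  set ρ2 := (l1 * β + l0) / (k * (β - α)) with hρ2
  have hu : ∀ x, x ≠ α → x ≠ β → (NN a3 a4).eval x / a4.eval x = ρ1 / (x - α) - ρ2 / (β - x) := by
    intro x hx hx'
    have h1 := sub_ne_zero.2 hx
    have h2 := sub_ne_zero.2 hx'
    have h3 : β - x ≠ 0 := sub_ne_zero.2 hx'.symm
    have e1 : ρ1 * (x - β) + ρ2 * (x - α) = (l1 * x + l0) / k := by
      rw [hρ1, hρ2]
      field_simp
      ring
    have e2 : ρ1 / (x - α) - ρ2 / (β - x) = (ρ1 * (x - β) + ρ2 * (x - α)) / ((x - α) * (x - β)) := by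
      have : β - x = -(x - β) := by ring
      rw [this, div_neg]
      field_simp
      ring
    rw [e2, e1, hNx, h4x]
    field_simp
  set w0 : ℝ → ℝ := fun x => (x - α) ^ ρ1 * (β - x) ^ ρ2 with hw0
  have hw0d : ∀ x ∈ Ioo α β, HasDerivAt w0 ((NN a3 a4).eval x / a4.eval x * w0 x) x := by
    intro x hx
    have hx1 : 0 < x - α := by linarith [hx.1]
    have hx2 : 0 < β - x := by linarith [hx.2]
    have h1 : HasDerivAt (fun y : ℝ => (y - α) ^ ρ1) (1 * ρ1 * (x - α) ^ (ρ1 - 1)) x :=
      ((hasDerivAt_id x).sub_const α).rpow_const (Or.inl hx1.ne')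
    have h2 : HasDerivAt (fun y : ℝ => (β - y) ^ ρ2) (-1 * ρ2 * (β - x) ^ (ρ2 - 1)) x :=
      ((hasDerivAt_id x).const_sub β).rpow_const (Or.inl hx2.ne')
    have h3 := h1.mul h2
    convert! h3 using 1
    rw [hu x (by linarith [hx.1] : α < x).ne' (by linarith [hx.2] : x < β).ne, hw0,
      Real.rpow_sub_one hx1.ne', Real.rpow_sub_one hx2.ne']
    field_simp
    ring
  have hIne : ∀ x ∈ Ioo α β, a4.eval x ≠ 0 := fun x hx => h4ne x hx.1.ne' hx.2.ne
  set x0 : ℝ := (α + β) / 2 with hx0
  have hx0m : x0 ∈ Ioo α β := ⟨by rw [hx0]; linarith, by rw [hx0]; linarith⟩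
  have hw0pos : ∀ x ∈ Ioo α β, 0 < w0 x := by
    intro x hx
    have hx1 : 0 < x - α := by linarith [hx.1]
    have hx2 : 0 < β - x := by linarith [hx.2]
    exact mul_pos (Real.rpow_pos_of_pos hx1 _) (Real.rpow_pos_of_pos hx2 _)
  have hw := ode_unique (Ioo α β) isOpen_Ioo ordConnected_Ioo
    (fun x => (NN a3 a4).eval x / a4.eval x) (WW φ a1 a2 a4) w0
    (ContinuousOn.div (by fun_prop) (by fun_prop) hIne)
    (fun x hx => h.W_deriv x (hIne x hx)) hw0d x0 hx0m (hw0pos x0 hx0m).ne'
  set K := WW φ a1 a2 a4 x0 / w0 x0 with hK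
  have hKpos : 0 < K := by
    have h1 : 0 ≤ K := div_nonneg (h.W_nonneg _) (hw0pos x0 hx0m).le
    have h2 : K ≠ 0 := div_ne_zero (div_ne_zero (hA _ hx0m) (hIne _ hx0m)) (hw0pos x0 hx0m).ne'
    exact lt_of_le_of_ne h1 h2.symm
  have hwx : ∀ x, α < x → x < β → WW φ a1 a2 a4 x = K * ((x - α) ^ ρ1 * (β - x) ^ ρ2) :=
    fun x hx hx' => hw x ⟨hx, hx'⟩
  have hwz1 : ∀ x, x ≤ α → WW φ a1 a2 a4 x = 0 := fun x hx => by unfold WW; rw [hz1 x hx, zero_div]
  have hwz2 : ∀ x, β ≤ x → WW φ a1 a2 a4 x = 0 := fun x hx => by unfold WW; rw [hz2 x hx, zero_div]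
  have hU : {x : ℝ | a4.eval x ≠ 0} = ({α, β} : Set ℝ)ᶜ := by
    ext x
    simp only [mem_ofPred_eq, mem_compl_iff, mem_insert_iff, mem_singleton_iff, not_or]
    constructor
    · intro h1
      exact ⟨fun h2 => h1 (by rw [h4x, h2]; simp), fun h2 => h1 (by rw [h4x, h2]; simp)⟩
    · rintro ⟨h1, h2⟩
      exact h4ne x h1 h2
  have hUc : {x : ℝ | a4.eval x = 0} = ({α, β} : Set ℝ) := by
    have : {x : ℝ | a4.eval x = 0} = {x : ℝ | a4.eval x ≠ 0}ᶜ := by ext x; simp
    rw [this, hU, compl_compl]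
  have hae : (volume : Measure ℝ).restrict (({α, β} : Set ℝ)ᶜ) = volume := by
    have : (({α, β}ᶜ : Set ℝ)) =ᵐ[volume] univ := by
      rw [ae_eq_univ, compl_compl]
      exact (Set.toFinite ({α, β} : Set ℝ)).measure_zero volume
    rw [Measure.restrict_congr_set this, Measure.restrict_univ]
  have hfi : ∀ f : ℝ[X], Integrable (fun x => f.eval x * WW φ a1 a2 a4 x) volume := by
    intro f
    have := h.fw_int f
    rw [hU] at this
    unfold IntegrableOn at this
    rwa [hae] at this
  set m1 : ℝ := (φ {α}).toReal with hm1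
  set m2 : ℝ := (φ {β}).toReal with hm2
  have hdec : ∀ f : ℝ[X], ∫ x, f.eval x ∂φ =
      (∫ x, f.eval x * WW φ a1 a2 a4 x) + (f.eval α * m1 + f.eval β * m2) := by
    intro f
    have e : ({α, β} : Set ℝ) = {α} ∪ {β} := rfl
    rw [h.decomp f, hU, hUc, hae, e, setIntegral_union (by simpa using hlt.ne) (measurableSet_singleton β)
      (h.poly_int f).integrableOn (h.poly_int f).integrableOn, integral_singleton, integral_singleton,
      smul_eq_mul, smul_eq_mul]
    simp only [Measure.real, hm1, hm2]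
    ring
  -- exponents > -1
  have hWi : Integrable (WW φ a1 a2 a4) volume := by simpa using hfi 1
  have hρ1' : -1 < ρ1 := by
    apply rpow_int_left α x0 ρ1 hx0m.1
    obtain ⟨c, hc, hcm⟩ := pos_min (fun x => (β - x) ^ ρ2) α x0 hx0m.1.le
      (fun x hx => by
        have hx2 : 0 < β - x := by linarith [hx.2, hx0m.2]
        have hc : ContinuousAt (fun x : ℝ => (β - x) ^ ρ2) x :=
          ContinuousAt.rpow_const (by fun_prop) (Or.inl hx2.ne')
        exact hc.continuousWithinAt)
      (fun x hx => Real.rpow_pos_of_pos (by linarith [hx.2, hx0m.2]) _)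
    refine Integrable.mono' ((hWi.integrableOn (s := Ioo α x0)).const_mul (K * c)⁻¹)
      ((measurable_id.sub_const α).pow_const ρ1).aestronglyMeasurable ?_
    refine (ae_restrict_iff' measurableSet_Ioo).2 (Eventually.of_forall fun x hx => ?_)
    have hx' : 0 < x - α := by linarith [hx.1]
    rw [Real.norm_of_nonneg (Real.rpow_nonneg hx'.le _), hwx x hx.1 (hx.2.trans hx0m.2)]
    have h5 : 0 < (x - α) ^ ρ1 := Real.rpow_pos_of_pos hx' _
    rw [inv_mul_eq_div, le_div_iff₀ (by positivity)]
    calc (x - α) ^ ρ1 * (K * c) = K * ((x - α) ^ ρ1 * c) := by ring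
      _ ≤ K * ((x - α) ^ ρ1 * (β - x) ^ ρ2) := by
          apply mul_le_mul_of_nonneg_left _ hKpos.le
          exact mul_le_mul_of_nonneg_left (hcm x ⟨hx.1.le, hx.2.le⟩) h5.le
  have hρ2' : -1 < ρ2 := by
    apply rpow_int_right x0 β ρ2 hx0m.2
    obtain ⟨c, hc, hcm⟩ := pos_min (fun x => (x - α) ^ ρ1) x0 β hx0m.2.le
      (fun x hx => by
        have hx2 : 0 < x - α := by linarith [hx.1, hx0m.1]
        have hc : ContinuousAt (fun x : ℝ => (x - α) ^ ρ1) x :=
          ContinuousAt.rpow_const (by fun_prop) (Or.inl hx2.ne')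
        exact hc.continuousWithinAt)
      (fun x hx => Real.rpow_pos_of_pos (by linarith [hx.1, hx0m.1]) _)
    refine Integrable.mono' ((hWi.integrableOn (s := Ioo x0 β)).const_mul (K * c)⁻¹)
      ((measurable_const.sub measurable_id).pow_const ρ2).aestronglyMeasurable ?_
    refine (ae_restrict_iff' measurableSet_Ioo).2 (Eventually.of_forall fun x hx => ?_)
    have hx' : 0 < β - x := by linarith [hx.2]
    rw [Real.norm_of_nonneg (Real.rpow_nonneg hx'.le _), hwx x (hx0m.1.trans hx.1) hx.2]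
    have h5 : 0 < (β - x) ^ ρ2 := Real.rpow_pos_of_pos hx' _
    rw [inv_mul_eq_div, le_div_iff₀ (by positivity)]
    calc (β - x) ^ ρ2 * (K * c) = K * (c * (β - x) ^ ρ2) := by ring
      _ ≤ K * ((x - α) ^ ρ1 * (β - x) ^ ρ2) := by
          apply mul_le_mul_of_nonneg_left _ hKpos.le
          exact mul_le_mul_of_nonneg_right (hcm x ⟨hx.1.le, hx.2.le⟩) h5.le
  -- the masses
  have hS1 : Ioo α (α + (β - α)) = Ioo α β := by congr 1; ring
  have hS2 : Ioo (β - (β - α)) β = Ioo α β := by congr 1; ring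
  have hlim1 : Tendsto (fun x => (x - α) * WW φ a1 a2 a4 x) (𝓝[Ioo α (α + (β - α))] α) (𝓝 0) := by
    rw [hS1]
    have h1 : Tendsto (fun x : ℝ => K * ((x - α) ^ (ρ1 + 1) * (β - x) ^ ρ2)) (𝓝 α)
        (𝓝 (K * ((α - α) ^ (ρ1 + 1) * (β - α) ^ ρ2))) := by
      apply Tendsto.const_mul
      apply Tendsto.mul
      · have h2 : ContinuousAt (fun x : ℝ => x ^ (ρ1 + 1)) (α - α) :=
          Real.continuousAt_rpow_const _ _ (Or.inr (by linarith))
        have h3 : Tendsto (fun x : ℝ => x - α) (𝓝 α) (𝓝 (α - α)) :=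
          (continuous_id.sub continuous_const).tendsto α
        exact h2.tendsto.comp h3
      · have : ContinuousAt (fun x : ℝ => (β - x) ^ ρ2) α :=
          ContinuousAt.rpow_const (by fun_prop) (Or.inl hβα)
        exact this.tendsto
    rw [sub_self, Real.zero_rpow (by linarith), zero_mul, mul_zero] at h1
    refine (h1.mono_left nhdsWithin_le_nhds).congr' ?_
    filter_upwards [self_mem_nhdsWithin] with x hx
    have hx' : 0 < x - α := by linarith [hx.1]
    rw [hwx x hx.1 hx.2, Real.rpow_add_one hx'.ne']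
    ring
  have hlim2 : Tendsto (fun x => (x - β) * WW φ a1 a2 a4 x) (𝓝[Ioo (β - (β - α)) β] β) (𝓝 0) := by
    rw [hS2]
    have h1 : Tendsto (fun x : ℝ => -K * ((x - α) ^ ρ1 * (β - x) ^ (ρ2 + 1))) (𝓝 β)
        (𝓝 (-K * ((β - α) ^ ρ1 * (β - β) ^ (ρ2 + 1)))) := by
      apply Tendsto.const_mul
      apply Tendsto.mul
      · have : ContinuousAt (fun x : ℝ => (x - α) ^ ρ1) β :=
          ContinuousAt.rpow_const (by fun_prop) (Or.inl hβα)
        exact this.tendsto
      · have h2 : ContinuousAt (fun x : ℝ => x ^ (ρ2 + 1)) (β - β) :=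
          Real.continuousAt_rpow_const _ _ (Or.inr (by linarith))
        have h3 : Tendsto (fun x : ℝ => β - x) (𝓝 β) (𝓝 (β - β)) :=
          (continuous_const.sub continuous_id).tendsto β
        exact h2.tendsto.comp h3
    rw [sub_self, Real.zero_rpow (by linarith), mul_zero, mul_zero] at h1
    refine (h1.mono_left nhdsWithin_le_nhds).congr' ?_
    filter_upwards [self_mem_nhdsWithin] with x hx
    have hx' : 0 < β - x := by linarith [hx.2]
    rw [hwx x hx.1 hx.2, Real.rpow_add_one hx'.ne']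
    ring
  have hfac1 : a4 = (X - C α) ^ 2 * (C k * (X - C β) ^ 2) := by rw [e4]; ring
  have hfac2 : a4 = (X - C β) ^ 2 * (C k * (X - C α) ^ 2) := by rw [e4]; ring
  have hNf1 : NN a3 a4 = (X - C α) * ((X - C β) * ℓ) := by rw [hN1, hℓ]
  have hNf2 : NN a3 a4 = (X - C β) * ((X - C α) * ℓ) := by rw [hN1, hℓ]; ring
  have hmass1 := h.mass α (β - α) (by linarith) (Ioo α (α + (β - α))) (Ioo (α - (β - α)) α)
    (Or.inl ⟨rfl, rfl⟩) (fun x hx hxα => h4ne x hxα (by have := hx.2; intro h0; rw [h0] at this; linarith))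
    (fun x hx => hz1 x hx.2.le) _ _ hfac1 hNf1 hlim1
  have hmass2 := h.mass β (β - α) (by linarith) (Ioo (β - (β - α)) β) (Ioo β (β + (β - α)))
    (Or.inr ⟨rfl, rfl⟩) (fun x hx hxβ => h4ne x (by have := hx.1; intro h0; rw [h0] at this; linarith) hxβ)
    (fun x hx => hz2 x hx.1.le) _ _ hfac2 hNf2 hlim2
  rw [← hm1] at hmass1
  rw [← hm2] at hmass2
  have hind1 := h.indicial α _ _ hfac1 hNf1
  have hind2 := h.indicial β _ _ hfac2 hNf2
  simp only [eval_mul, eval_sub, eval_X, eval_C, eval_pow, hℓx] at hind1 hind2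
  have hl1 : l1 * α + l0 = ρ1 * (k * (α - β)) := by rw [hρ1]; field_simp
  have hl2 : l1 * β + l0 = ρ2 * (k * (β - α)) := by rw [hρ2]; field_simp
  rw [hl1] at hind1
  rw [hl2] at hind2
  have hρ1z : m1 ≠ 0 → ρ1 = 0 ∧ a2.eval α = 0 := by
    intro hm0
    have ha2 : a2.eval α = 0 := (mul_eq_zero.1 hmass1).resolve_right hm0
    rw [ha2] at hind1
    have h1 : ρ1 * ((ρ1 + 2) * (ρ1 + 1)) * (k * (α - β) ^ 2) ^ 3 = 0 := by linear_combination hind1
    rcases mul_eq_zero.1 h1 with h2 | h2
    · rcases mul_eq_zero.1 h2 with h3 | h3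
      · exact ⟨h3, ha2⟩
      · have : 0 < (ρ1 + 2) * (ρ1 + 1) := mul_pos (by linarith) (by linarith)
        exact absurd h3 this.ne'
    · exact absurd h2 (pow_ne_zero 3 (mul_ne_zero hk (pow_ne_zero 2 hαβ)))
  have hρ2z : m2 ≠ 0 → ρ2 = 0 ∧ a2.eval β = 0 := by
    intro hm0
    have ha2 : a2.eval β = 0 := (mul_eq_zero.1 hmass2).resolve_right hm0
    rw [ha2] at hind2
    have h1 : ρ2 * ((ρ2 + 2) * (ρ2 + 1)) * (k * (β - α) ^ 2) ^ 3 = 0 := by linear_combination hind2
    rcases mul_eq_zero.1 h1 with h2 | h2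
    · rcases mul_eq_zero.1 h2 with h3 | h3
      · exact ⟨h3, ha2⟩
      · have : 0 < (ρ2 + 2) * (ρ2 + 1) := mul_pos (by linarith) (by linarith)
        exact absurd h3 this.ne'
    · exact absurd h2 (pow_ne_zero 3 (mul_ne_zero hk (pow_ne_zero 2 hβα)))
  have hm10 : 0 ≤ m1 := ENNReal.toReal_nonneg
  have hm20 : 0 ≤ m2 := ENNReal.toReal_nonneg
  -- the change of variables
  set Λ : ℝ := β - α with hΛ
  have hΛ0 : 0 < Λ := by rw [hΛ]; linarith
  have hLp : 0 < Λ / 2 := by positivity
  have hLa : ∀ y, -1 < y → α < Λ / 2 * y + x0 := fun y hy => by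
    have h1 := mul_pos hLp (show 0 < 1 + y by linarith)
    have h2 : Λ / 2 * y + x0 = α + Λ / 2 * (1 + y) := by rw [hΛ, hx0]; ring
    linarith
  have hLb : ∀ y, y < 1 → Λ / 2 * y + x0 < β := fun y hy => by
    have h1 := mul_pos hLp (show 0 < 1 - y by linarith)
    have h2 : Λ / 2 * y + x0 = β - Λ / 2 * (1 - y) := by rw [hΛ, hx0]; ring
    linarith
  have hLa' : ∀ y, y < -1 → Λ / 2 * y + x0 ≤ α := fun y hy => by
    have h1 := mul_pos hLp (show 0 < -1 - y by linarith)
    have h2 : Λ / 2 * y + x0 = α - Λ / 2 * (-1 - y) := by rw [hΛ, hx0]; ring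
    linarith
  have hLb' : ∀ y, 1 < y → β ≤ Λ / 2 * y + x0 := fun y hy => by
    have h1 := mul_pos hLp (show 0 < y - 1 by linarith)
    have h2 : Λ / 2 * y + x0 = β + Λ / 2 * (y - 1) := by rw [hΛ, hx0]; ring
    linarith
  rcases hm10.eq_or_lt with hm1e | hm1p <;> rcases hm20.eq_or_lt with hm2e | hm2p
  · -- Jacobi
    set L : ℝ := Λ / 2 with hL
    have hL0 : 0 < L := by rw [hL]; positivity
    set κ : ℝ := (K * (L ^ ρ1 * L ^ ρ2))⁻¹ with hκ
    have hLρ1 : 0 < L ^ ρ1 := Real.rpow_pos_of_pos hL0 _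
    have hLρ2 : 0 < L ^ ρ2 := Real.rpow_pos_of_pos hL0 _
    have hκ0 : κ ≠ 0 := by rw [hκ]; positivity
    refine ⟨_, Or.inl ⟨ρ2, ρ1, hρ2', hρ1', rfl⟩, L, x0, κ * |L⁻¹|, hL0.ne', ?_, ?_⟩
    · exact mul_ne_zero hκ0 (abs_ne_zero.2 (inv_ne_zero hL0.ne'))
    · intro f
      rw [hdec, ← hm1e, ← hm2e, mul_zero, mul_zero, add_zero, add_zero]
      refine (ac_map ((Icc (-1 : ℝ) 1).indicator (fun y : ℝ => (1 - y) ^ ρ2 * (1 + y) ^ ρ1))
        (WW φ a1 a2 a4) ?_ ?_ L x0 κ hL0.ne' ?_ hfi f).2
      · exact Measurable.indicator (by fun_prop) measurableSet_Icc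
      · intro y
        apply indicator_nonneg
        intro z hz'
        have h1 : 0 ≤ 1 - z := by linarith [hz'.2]
        have h2 : 0 ≤ 1 + z := by linarith [hz'.1]
        positivity
      · have hnull := (Set.toFinite ({-1, 1} : Set ℝ)).countable.ae_notMem volume
        filter_upwards [hnull] with y hy
        simp only [mem_insert_iff, mem_singleton_iff, not_or] at hy
        by_cases hy1 : y ∈ Icc (-1 : ℝ) 1
        · have hy2 : -1 < y := lt_of_le_of_ne hy1.1 (Ne.symm hy.1)
          have hy3 : y < 1 := lt_of_le_of_ne hy1.2 hy.2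
          rw [indicator_of_mem hy1, hwx _ (hLa y hy2) (hLb y hy3)]
          have e1 : L * y + x0 - α = L * (1 + y) := by rw [hL, hΛ, hx0]; ring
          have e2 : β - (L * y + x0) = L * (1 - y) := by rw [hL, hΛ, hx0]; ring
          rw [e1, e2, Real.mul_rpow hL0.le (by linarith), Real.mul_rpow hL0.le (by linarith), hκ]
          field_simp
        · rw [indicator_of_notMem hy1]
          have : WW φ a1 a2 a4 (L * y + x0) = 0 := by
            rw [mem_Icc, not_and_or, not_le, not_le] at hy1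
            rcases hy1 with h1 | h1
            · exact hwz1 _ (hLa' y h1)
            · exact hwz2 _ (hLb' y h1)
          rw [this, mul_zero]
  · -- mass at β only
    obtain ⟨hρz, _⟩ := hρ2z hm2p.ne'
    have hΛρ : 0 < Λ ^ ρ1 := Real.rpow_pos_of_pos hΛ0 _
    set κ : ℝ := (K * Λ ^ ρ1)⁻¹ with hκ
    have hκ0 : 0 < κ := by rw [hκ]; positivity
    have ha0 : -Λ ≠ 0 := neg_ne_zero.2 hΛ0.ne'
    have hai : 0 < |(-Λ)⁻¹| := abs_pos.2 (inv_ne_zero ha0)
    set c : ℝ := κ * |(-Λ)⁻¹| with hc
    have hc0 : 0 < c := by positivity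
    refine ⟨_, Or.inr (Or.inr (Or.inr (Or.inr (Or.inr ⟨ρ1, 1 / (c * m2), hρ1', by positivity, rfl⟩)))),
      -Λ, β, c, ha0, hc0.ne', ?_⟩
    intro f
    have hac := ac_map ((Ico (0 : ℝ) 1).indicator (fun y : ℝ => (1 - y) ^ ρ1)) (WW φ a1 a2 a4)
        (Measurable.indicator (by fun_prop) measurableSet_Ico)
        (fun y => indicator_nonneg (fun z hz' => Real.rpow_nonneg (by linarith [hz'.2]) _) y)
        (-Λ) β κ ha0
        (by
          have hnull := (Set.toFinite ({0, 1} : Set ℝ)).countable.ae_notMem volume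
          filter_upwards [hnull] with y hy
          simp only [mem_insert_iff, mem_singleton_iff, not_or] at hy
          by_cases hy1 : y ∈ Ico (0 : ℝ) 1
          · have hy2 : 0 < y := lt_of_le_of_ne hy1.1 (Ne.symm hy.1)
            have hp1 := mul_pos hΛ0 (show 0 < 1 - y by linarith [hy1.2])
            have hp2 := mul_pos hΛ0 hy2
            have e1 : -Λ * y + β - α = Λ * (1 - y) := by rw [hΛ]; ring
            rw [indicator_of_mem hy1, hwx _ (by linarith) (by linarith)]
            rw [e1, hρz, Real.rpow_zero, mul_one, Real.mul_rpow hΛ0.le (by linarith [hy1.2]), hκ]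
            field_simp
          · rw [indicator_of_notMem hy1]
            have : WW φ a1 a2 a4 (-Λ * y + β) = 0 := by
              rw [mem_Ico, not_and_or, not_le, not_lt] at hy1
              rcases hy1 with h1 | h1
              · apply hwz2
                have hp1 := mul_pos hΛ0 (show 0 < -y by linarith)
                linarith
              · apply hwz1
                have hp1 := mul_nonneg hΛ0.le (show 0 ≤ y - 1 by linarith)
                have e1 : -Λ * y + β = α - Λ * (y - 1) := by rw [hΛ]; ring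
                linarith
            rw [this, mul_zero]) hfi f
    rw [integral_add_measure hac.1, hac.2, integral_smul_measure, integral_dirac, hdec, smul_eq_mul,
      ENNReal.toReal_ofReal (by positivity), mul_zero, zero_add, one_div_one_div, ← hm1e, mul_zero,
      zero_add]
    · ring
    · apply Integrable.smul_measure _ ENNReal.ofReal_ne_top
      exact integrable_dirac (by simp)
  · -- mass at α only
    obtain ⟨hρz, _⟩ := hρ1z hm1p.ne'
    have hΛρ : 0 < Λ ^ ρ2 := Real.rpow_pos_of_pos hΛ0 _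
    set κ : ℝ := (K * Λ ^ ρ2)⁻¹ with hκ
    have hκ0 : 0 < κ := by rw [hκ]; positivity
    have ha0 : Λ ≠ 0 := hΛ0.ne'
    have hai : 0 < |Λ⁻¹| := abs_pos.2 (inv_ne_zero ha0)
    set c : ℝ := κ * |Λ⁻¹| with hc
    have hc0 : 0 < c := by positivity
    refine ⟨_, Or.inr (Or.inr (Or.inr (Or.inr (Or.inr ⟨ρ2, 1 / (c * m1), hρ2', by positivity, rfl⟩)))),
      Λ, α, c, ha0, hc0.ne', ?_⟩
    intro f
    have hac := ac_map ((Ico (0 : ℝ) 1).indicator (fun y : ℝ => (1 - y) ^ ρ2)) (WW φ a1 a2 a4)
        (Measurable.indicator (by fun_prop) measurableSet_Ico)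
        (fun y => indicator_nonneg (fun z hz' => Real.rpow_nonneg (by linarith [hz'.2]) _) y)
        Λ α κ ha0
        (by
          have hnull := (Set.toFinite ({0, 1} : Set ℝ)).countable.ae_notMem volume
          filter_upwards [hnull] with y hy
          simp only [mem_insert_iff, mem_singleton_iff, not_or] at hy
          by_cases hy1 : y ∈ Ico (0 : ℝ) 1
          · have hy2 : 0 < y := lt_of_le_of_ne hy1.1 (Ne.symm hy.1)
            have hp1 := mul_pos hΛ0 (show 0 < 1 - y by linarith [hy1.2])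
            have hp2 := mul_pos hΛ0 hy2
            have e1 : β - (Λ * y + α) = Λ * (1 - y) := by rw [hΛ]; ring
            rw [indicator_of_mem hy1, hwx _ (by linarith) (by linarith)]
            rw [e1, hρz, Real.rpow_zero, one_mul, Real.mul_rpow hΛ0.le (by linarith [hy1.2]), hκ]
            field_simp
          · rw [indicator_of_notMem hy1]
            have : WW φ a1 a2 a4 (Λ * y + α) = 0 := by
              rw [mem_Ico, not_and_or, not_le, not_lt] at hy1
              rcases hy1 with h1 | h1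
              · apply hwz1
                have hp1 := mul_pos hΛ0 (show 0 < -y by linarith)
                linarith
              · apply hwz2
                have hp1 := mul_nonneg hΛ0.le (show 0 ≤ y - 1 by linarith)
                have e1 : Λ * y + α = β + Λ * (y - 1) := by rw [hΛ]; ring
                linarith
            rw [this, mul_zero]) hfi f
    rw [integral_add_measure hac.1, hac.2, integral_smul_measure, integral_dirac, hdec, smul_eq_mul,
      ENNReal.toReal_ofReal (by positivity), mul_zero, zero_add, one_div_one_div, ← hm2e, mul_zero,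
      add_zero]
    · ring
    · apply Integrable.smul_measure _ ENNReal.ofReal_ne_top
      exact integrable_dirac (by simp)
  · -- masses at both ends: Legendre type
    obtain ⟨hρ1e, ha2α⟩ := hρ1z hm1p.ne'
    obtain ⟨hρ2e, ha2β⟩ := hρ2z hm2p.ne'
    have hN0 : NN a3 a4 = 0 := by
      rw [hρ1e, zero_mul] at hl1
      rw [hρ2e, zero_mul] at hl2
      have h1 : l1 * (α - β) = 0 := by linarith
      have h2 : l1 = 0 := (mul_eq_zero.1 h1).resolve_right hαβ
      have h3 : l0 = 0 := by rw [h2] at hl1; linarith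
      rw [hN1, hℓ, hℓe, h2, h3]
      simp
    have hwK : ∀ x, α < x → x < β → WW φ a1 a2 a4 x = K := fun x hx hx' => by
      rw [hwx x hx hx', hρ1e, hρ2e, Real.rpow_zero, Real.rpow_zero]; ring
    set P : ℝ[X] := derivative (derivative a4) - a2 with hP
    have hQP : QQ a2 a3 a4 = P * a4 := by
      unfold QQ
      rw [hN0, hP]
      simp
      ring
    have hPd : derivative P = -a1 := by
      have hs := h.star
      rw [hQP, hN0, derivative_mul] at hs
      have h1 : a4 ^ 2 * (derivative P + a1) = 0 := by linear_combination hs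
      have h2 := (mul_eq_zero.1 h1).resolve_left (pow_ne_zero 2 h.ne)
      exact eq_neg_of_add_eq_zero_left h2
    have hBK : ∀ x, α < x → x < β → BB φ a1 x = K * P.eval x := by
      intro x hx hx'
      have h1 := h.B_eq x (hIne x ⟨hx, hx'⟩)
      rw [hQP, hwK x hx hx', eval_mul] at h1
      have h2 := hIne x ⟨hx, hx'⟩
      have h3 : a4.eval x * (BB φ a1 x - K * P.eval x) = 0 := by linear_combination h1
      linarith [(mul_eq_zero.1 h3).resolve_left h2]
    have hPt : ∀ c (S : Set ℝ), Tendsto (fun x => K * P.eval x) (𝓝[S] c) (𝓝 (K * P.eval c)) := fun c S =>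
      (continuous_const.mul P.continuous).continuousAt.tendsto.mono_left nhdsWithin_le_nhds
    -- zero of B outside
    have hBz : ∀ x, a4.eval x ≠ 0 → WW φ a1 a2 a4 x = 0 → BB φ a1 x = 0 := by
      intro x hx hw'
      have h1 := h.B_eq x hx
      rw [hw', mul_zero] at h1
      exact (mul_eq_zero.1 h1).resolve_left hx
    have b1 : BB φ a1 α = K * P.eval α := by
      have h1 := h.B_right α
      have h2 : Tendsto (BB φ a1) (𝓝[>] α) (𝓝 (K * P.eval α)) := by
        refine (hPt α (Ioi α)).congr' ?_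
        filter_upwards [Ioo_mem_nhdsGT hlt] with x hx
        exact (hBK x hx.1 hx.2).symm
      exact tendsto_nhds_unique h1 h2
    have b2 : BB φ a1 α + a1.eval α * m1 = 0 := by
      have h1 := h.B_left α
      have h2 : Tendsto (BB φ a1) (𝓝[<] α) (𝓝 0) := by
        apply tendsto_const_nhds.congr'
        filter_upwards [self_mem_nhdsWithin] with x hx
        have hx' : x < α := hx
        exact (hBz x (h4ne x hx'.ne (hx'.trans hlt).ne) (hwz1 x hx'.le)).symm
      exact tendsto_nhds_unique h1 h2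
    have b3 : BB φ a1 β = 0 := by
      have h1 := h.B_right β
      have h2 : Tendsto (BB φ a1) (𝓝[>] β) (𝓝 0) := by
        apply tendsto_const_nhds.congr'
        filter_upwards [self_mem_nhdsWithin] with x hx
        have hx' : β < x := hx
        exact (hBz x (h4ne x (hlt.trans hx').ne' hx'.ne') (hwz2 x hx'.le)).symm
      exact tendsto_nhds_unique h1 h2
    have b4 : BB φ a1 β + a1.eval β * m2 = K * P.eval β := by
      have h1 := h.B_left β
      have h2 : Tendsto (BB φ a1) (𝓝[<] β) (𝓝 (K * P.eval β)) := by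
        refine (hPt β (Iio β)).congr' ?_
        filter_upwards [Ioo_mem_nhdsLT hlt] with x hx
        exact (hBK x hx.1 hx.2).symm
      exact tendsto_nhds_unique h1 h2
    -- value of P at the ends
    have hdd : ∀ x, (derivative (derivative a4)).eval x =
        k * (2 * (x - β) ^ 2 + 8 * ((x - α) * (x - β)) + 2 * (x - α) ^ 2) := by
      intro x
      rw [e4, dd_eval]
    have hPα : P.eval α = 2 * k * Λ ^ 2 := by
      rw [hP, eval_sub, hdd, ha2α, hΛ]; ring
    have hPβ : P.eval β = 2 * k * Λ ^ 2 := by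
      rw [hP, eval_sub, hdd, ha2β, hΛ]; ring
    have hP2 : P.natDegree ≤ 2 := by
      rw [hP]
      refine (natDegree_sub_le_of_le (m := 2) (n := 2) ?_ h.d2).trans (by simp)
      have h1 := natDegree_derivative_le (derivative a4)
      have h2 := natDegree_derivative_le a4
      have := h.d4
      omega
    have hPe : ∀ x, P.eval x = P.coeff 2 * x ^ 2 + P.coeff 1 * x + P.coeff 0 := by
      intro x
      rw [eval_eq_sum_range' (n := 3) (by omega)]
      simp [Finset.sum_range_succ]
      ring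
    have hPde : ∀ x, (derivative P).eval x = 2 * P.coeff 2 * x + P.coeff 1 := by
      intro x
      have h1 : (derivative P).natDegree < 2 := by
        have := natDegree_derivative_le P
        omega
      rw [eval_eq_sum_range' (n := 2) h1]
      simp [Finset.sum_range_succ, coeff_derivative]
      ring
    have hsum : a1.eval α + a1.eval β = 0 := by
      have h1 := hPde α
      have h2 := hPde β
      rw [hPd, eval_neg] at h1 h2
      have h3 : P.eval β - P.eval α = 0 := by rw [hPα, hPβ]; ring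
      rw [hPe, hPe] at h3
      have h4 : (β - α) * (P.coeff 2 * (α + β) + P.coeff 1) = 0 := by linear_combination h3
      have h5 := (mul_eq_zero.1 h4).resolve_left hβα
      linear_combination -h1 - h2 - 2 * h5
    have hPne : K * P.eval α ≠ 0 := by
      rw [hPα]
      exact mul_ne_zero hKpos.ne' (mul_ne_zero (mul_ne_zero two_ne_zero hk) (pow_ne_zero 2 hΛ0.ne'))
    have hmm : m1 = m2 := by
      have h1 : a1.eval α * m1 = -(K * P.eval α) := by linarith
      have h2 : a1.eval β * m2 = K * P.eval α := by rw [hPα, ← hPβ]; linarith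
      have h3 : a1.eval β = -a1.eval α := by linarith
      rw [h3] at h2
      have h4 : a1.eval α * (m1 - m2) = 0 := by linear_combination h1 + h2
      have h5 : a1.eval α ≠ 0 := by
        intro h0
        rw [h0, zero_mul] at h1
        exact hPne (by linarith)
      linarith [(mul_eq_zero.1 h4).resolve_left h5]
    set L : ℝ := Λ / 2 with hL
    have hL0 : 0 < L := by rw [hL]; positivity
    set κ : ℝ := K⁻¹ with hκ
    have hκ0 : 0 < κ := by rw [hκ]; positivity
    have hai : 0 < |L⁻¹| := abs_pos.2 (inv_ne_zero hL0.ne')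
    set c : ℝ := κ * |L⁻¹| with hc
    have hc0 : 0 < c := by positivity
    refine ⟨_, Or.inr (Or.inr (Or.inr (Or.inl ⟨1 / (c * m1), by positivity, rfl⟩))),
      L, x0, c, hL0.ne', hc0.ne', ?_⟩
    intro f
    have hac := ac_map ((Icc (-1 : ℝ) 1).indicator (fun _ : ℝ => (1 : ℝ))) (WW φ a1 a2 a4)
        (Measurable.indicator (by fun_prop) measurableSet_Icc)
        (fun y => indicator_nonneg (fun z hz' => zero_le_one) y)
        L x0 κ hL0.ne'
        (by
          have hnull := (Set.toFinite ({-1, 1} : Set ℝ)).countable.ae_notMem volume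
          filter_upwards [hnull] with y hy
          simp only [mem_insert_iff, mem_singleton_iff, not_or] at hy
          by_cases hy1 : y ∈ Icc (-1 : ℝ) 1
          · have hy2 : -1 < y := lt_of_le_of_ne hy1.1 (Ne.symm hy.1)
            have hy3 : y < 1 := lt_of_le_of_ne hy1.2 hy.2
            rw [indicator_of_mem hy1, hwK _ (hLa y hy2) (hLb y hy3), hκ]
            field_simp
          · rw [indicator_of_notMem hy1]
            have : WW φ a1 a2 a4 (L * y + x0) = 0 := by
              rw [mem_Icc, not_and_or, not_le, not_le] at hy1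
              rcases hy1 with h1 | h1
              · exact hwz1 _ (hLa' y h1)
              · exact hwz2 _ (hLb' y h1)
            rw [this, mul_zero]) hfi f
    have hwd : volume.withDensity (fun y : ℝ => ENNReal.ofReal
        ((Icc (-1 : ℝ) 1).indicator (fun _ : ℝ => (1 : ℝ)) y)) = volume.restrict (Icc (-1 : ℝ) 1) := by
      rw [← withDensity_indicator_one (measurableSet_Icc : MeasurableSet (Icc (-1 : ℝ) 1))]
      congr 1
      ext y
      by_cases hy : y ∈ Icc (-1 : ℝ) 1
      · rw [indicator_of_mem hy, indicator_of_mem hy]; simp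
      · rw [indicator_of_notMem hy, indicator_of_notMem hy]; simp
    rw [hwd] at hac
    have i1 : Integrable (fun x : ℝ => f.eval (L * x + x0)) (Measure.dirac (-1 : ℝ)) :=
      integrable_dirac (by simp)
    have i2 : Integrable (fun x : ℝ => f.eval (L * x + x0)) (Measure.dirac (1 : ℝ)) :=
      integrable_dirac (by simp)
    have e1 : L * (-1) + x0 = α := by rw [hL, hΛ, hx0]; ring
    have e2 : L * 1 + x0 = β := by rw [hL, hΛ, hx0]; ring
    rw [integral_add_measure hac.1, hac.2, integral_smul_measure, integral_add_measure i1 i2,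
      integral_dirac, integral_dirac, hdec, smul_eq_mul, e1, e2,
      ENNReal.toReal_ofReal (by positivity), one_div_one_div, ← hmm]
    · ring
    · apply Integrable.smul_measure _ ENNReal.ofReal_ne_top
      exact i1.add_measure i2

end Pool.Agent.W2helper99.Kr
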