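import Pool.Agent.W2helper99.Kr.Data

/-!
# The differential equations off the zeros of `a4`
-/

set_option autoImplicit false
open MeasureTheory Set Filter Topology Polynomial

namespace Pool.Agent.W2helper99.Kr

variable {φ : Measure ℝ} {a1 a2 a3 a4 : ℝ[X]}

/-- the numerator of the logarithmic derivative of the weight -/
noncomputable def NN (a3 a4 : ℝ[X]) : ℝ[X] := C (1 / 2) * a3 - derivative a4

/-- the numerator of `B / w` -/
noncomputable def QQ (a2 a3 a4 : ℝ[X]) : ℝ[X] :=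
  (derivative (NN a3 a4) + derivative (derivative a4)) * a4 + (NN a3 a4 + derivative a4) * NN a3 a4
    - a2 * a4

/-- the weight -/
noncomputable def WW (φ : Measure ℝ) (a1 a2 a4 : ℝ[X]) : ℝ → ℝ :=
  fun x => AA φ a1 a2 x / a4.eval x

lemma KD.A_cont (h : KD φ a1 a2 a3 a4) : Continuous (AA φ a1 a2) :=
  tail_vol_cont _ h.basic.2.2.2.2.1

lemma KD.A_meas (h : KD φ a1 a2 a3 a4) : Measurable (AA φ a1 a2) := h.basic.2.2.1

lemma KD.W_meas (h : KD φ a1 a2 a3 a4) : Measurable (WW φ a1 a2 a4) :=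
  h.A_meas.div (by fun_prop)

lemma KD.A_int (h : KD φ a1 a2 a3 a4) : Integrable (AA φ a1 a2) volume := by
  simpa using h.basic.2.2.2.2.2.1 1

lemma KD.M1 (h : KD φ a1 a2 a3 a4) (E : Set ℝ) (hE : MeasurableSet E) :
    ∫ x in E, a4.eval x ∂φ = ∫ x in E, AA φ a1 a2 x := h.basic.2.2.2.2.2.2.2 E hE

lemma KD.M2 (h : KD φ a1 a2 a3 a4) (E : Set ℝ) (hE : MeasurableSet E) :
    ∫ x in E, (-(1 / 2) * a3.eval x) ∂φ = ∫ x in E, VV φ a1 a2 x := h.basic.2.2.2.2.2.2.1 E hE

lemma KD.A_nonneg (h : KD φ a1 a2 a3 a4) (x : ℝ) : 0 ≤ AA φ a1 a2 x := by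
  have h1 : 0 ≤ᵐ[volume] AA φ a1 a2 := by
    apply ae_nonneg_of_forall_setIntegral_nonneg h.A_int
    intro s hs _
    rw [← h.M1 s hs]
    apply integral_nonneg_of_ae
    exact ae_restrict_of_ae h.pos
  by_contra hx
  push Not at hx
  have h2 : {y | AA φ a1 a2 y < 0} ∈ 𝓝 x := h.A_cont.continuousAt.eventually_lt continuousAt_const hx
  have h3 : volume {y | AA φ a1 a2 y < 0} = 0 := by
    have : {y | AA φ a1 a2 y < 0} = {y | ¬ (0 : ℝ → ℝ) y ≤ AA φ a1 a2 y} := by
      ext y; simp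
    rw [this]
    exact h1
  exact (Measure.measure_pos_of_mem_nhds volume h2).ne' h3

lemma KD.eta (h : KD φ a1 a2 a3 a4) :
    φ.withDensity (fun x => ENNReal.ofReal (a4.eval x)) =
      volume.withDensity (fun x => ENNReal.ofReal (AA φ a1 a2 x)) := by
  ext E hE
  rw [withDensity_apply _ hE, withDensity_apply _ hE,
    ← ofReal_integral_eq_lintegral_ofReal (h.poly_int a4).restrict (ae_restrict_of_ae h.pos),
    ← ofReal_integral_eq_lintegral_ofReal h.A_int.restrict (Eventually.of_forall h.A_nonneg),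
    h.M1 E hE]

lemma KD.eta_int (h : KD φ a1 a2 a3 a4) (G : ℝ → ℝ) :
    ∫ x, a4.eval x * G x ∂φ = ∫ x, AA φ a1 a2 x * G x := by
  have e1 := integral_withDensity_eq_integral_toReal_smul (μ := φ)
    (f := fun x => ENNReal.ofReal (a4.eval x)) (by fun_prop)
    (Eventually.of_forall fun y => ENNReal.ofReal_lt_top) G
  have e2 := integral_withDensity_eq_integral_toReal_smul (μ := volume)
    (f := fun x => ENNReal.ofReal (AA φ a1 a2 x)) (by have := h.A_meas; fun_prop)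
    (Eventually.of_forall fun y => ENNReal.ofReal_lt_top) G
  rw [h.eta, e2] at e1
  have e3 : ∫ x, (ENNReal.ofReal (AA φ a1 a2 x)).toReal • G x = ∫ x, AA φ a1 a2 x * G x := by
    congr 1
    ext x
    rw [ENNReal.toReal_ofReal (h.A_nonneg x), smul_eq_mul]
  have e4 : ∫ x, (ENNReal.ofReal (a4.eval x)).toReal • G x ∂φ = ∫ x, a4.eval x * G x ∂φ := by
    apply integral_congr_ae
    filter_upwards [h.pos] with x hx
    rw [ENNReal.toReal_ofReal hx, smul_eq_mul]
  rw [← e3, ← e4, e1]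

lemma KD.set_int (h : KD φ a1 a2 a3 a4) (E : Set ℝ) (hE : MeasurableSet E)
    (hU : ∀ x ∈ E, a4.eval x ≠ 0) (f : ℝ → ℝ) :
    ∫ x in E, f x ∂φ = ∫ x in E, f x * WW φ a1 a2 a4 x := by
  have e := h.eta_int (E.indicator (fun x => f x / a4.eval x))
  have e1 : (fun x => a4.eval x * E.indicator (fun x => f x / a4.eval x) x) = E.indicator f := by
    ext x
    by_cases hx : x ∈ E
    · rw [indicator_of_mem hx, indicator_of_mem hx]
      field_simp [hU x hx]
    · rw [indicator_of_notMem hx, indicator_of_notMem hx, mul_zero]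
  have e2 : (fun x => AA φ a1 a2 x * E.indicator (fun x => f x / a4.eval x) x) =
      E.indicator (fun x => f x * WW φ a1 a2 a4 x) := by
    ext x
    by_cases hx : x ∈ E
    · rw [indicator_of_mem hx, indicator_of_mem hx]
      unfold WW
      ring
    · rw [indicator_of_notMem hx, indicator_of_notMem hx, mul_zero]
  rw [e1, e2, integral_indicator hE, integral_indicator hE] at e
  exact e

lemma KD.atom (h : KD φ a1 a2 a3 a4) (x : ℝ) (hx : a4.eval x ≠ 0) : φ {x} = 0 := by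
  have := h.fin
  have e := h.set_int {x} (measurableSet_singleton x) (fun y hy => by rw [mem_singleton_iff.1 hy]; exact hx)
    (fun _ => 1)
  rw [setIntegral_measure_zero (fun x => (1 : ℝ) * WW φ a1 a2 a4 x) (by simp)] at e
  rw [setIntegral_const, smul_eq_mul, mul_one] at e
  have : (φ {x}).toReal = 0 := e
  exact (ENNReal.toReal_eq_zero_iff _).1 this |>.resolve_right (measure_ne_top _ _)

lemma tail_diff (ρ : Measure ℝ) (f : ℝ → ℝ) (hf : Integrable f ρ) (x y : ℝ) (hxy : x ≤ y) :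
    tail ρ f y = tail ρ f x - ∫ t in Ioc x y, f t ∂ρ := by
  unfold tail
  have : Ioi x = Ioc x y ∪ Ioi y := (Ioc_union_Ioi_eq_Ioi hxy).symm
  rw [this, setIntegral_union _ measurableSet_Ioi hf.integrableOn hf.integrableOn]
  · ring
  · rw [Set.disjoint_left]
    intro z hz hz'
    exact absurd hz.2 (not_le.2 hz')

lemma nhd_of_ne (P : ℝ[X]) (x : ℝ) (hx : P.eval x ≠ 0) :
    ∃ ε > 0, ∀ y ∈ Icc (x - ε) (x + ε), P.eval y ≠ 0 := by
  have h1 : {y | P.eval y ≠ 0} ∈ 𝓝 x := P.continuous.continuousAt.eventually_ne hx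
  obtain ⟨ε, hε, hb⟩ := Metric.mem_nhds_iff.1 h1
  refine ⟨ε / 2, by positivity, fun y hy => hb ?_⟩
  rw [Metric.mem_ball, Real.dist_eq, abs_lt]
  constructor <;> linarith [hy.1, hy.2]

lemma KD.W_contAt (h : KD φ a1 a2 a3 a4) (x : ℝ) (hx : a4.eval x ≠ 0) :
    ContinuousAt (WW φ a1 a2 a4) x :=
  h.A_cont.continuousAt.div a4.continuous.continuousAt hx

lemma KD.tail_deriv (h : KD φ a1 a2 a3 a4) (f : ℝ → ℝ) (hf : Continuous f) (hfi : Integrable f φ)
    (x : ℝ) (hx : a4.eval x ≠ 0) :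
    HasDerivAt (tail φ f) (-(f x * WW φ a1 a2 a4 x)) x := by
  obtain ⟨ε, hε, hb⟩ := nhd_of_ne a4 x hx
  have hcont : ContinuousOn (fun y => f y * WW φ a1 a2 a4 y) (Icc (x - ε) (x + ε)) := fun y hy =>
    (hf.continuousAt.mul (h.W_contAt y (hb y hy))).continuousWithinAt
  have hev : tail φ f =ᶠ[𝓝 x] fun y => tail φ f (x - ε) - ∫ t in (x - ε)..y, f t * WW φ a1 a2 a4 t := by
    have : Icc (x - ε) (x + ε) ∈ 𝓝 x := Icc_mem_nhds (by linarith) (by linarith)
    filter_upwards [this] with y hy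
    rw [tail_diff φ f hfi (x - ε) y hy.1, intervalIntegral.integral_of_le hy.1,
      h.set_int (Ioc (x - ε) y) measurableSet_Ioc (fun z hz => hb z ⟨hz.1.le, hz.2.trans hy.2⟩) f]
  refine HasDerivAt.congr_of_eventuallyEq ?_ hev
  have h1 : HasDerivAt (fun u => ∫ t in (x - ε)..u, f t * WW φ a1 a2 a4 t) (f x * WW φ a1 a2 a4 x) x := by
    apply intervalIntegral.integral_hasDerivAt_right
    · apply ContinuousOn.intervalIntegrable
      rw [uIcc_of_le (by linarith)]
      exact hcont.mono (Icc_subset_Icc_right (by linarith))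
    · exact ((hf.measurable.mul h.W_meas).stronglyMeasurable).stronglyMeasurableAtFilter
    · exact hf.continuousAt.mul (h.W_contAt x hx)
  exact h1.const_sub _

lemma tail_vol_deriv (f : ℝ → ℝ) (hfm : Measurable f) (hfi : Integrable f volume) (x : ℝ)
    (hx : ContinuousAt f x) : HasDerivAt (tail volume f) (-(f x)) x := by
  have hev : tail volume f =ᶠ[𝓝 x] fun y => tail volume f (x - 1) - ∫ t in (x - 1)..y, f t := by
    have : Icc (x - 1) (x + 1) ∈ 𝓝 x := Icc_mem_nhds (by linarith) (by linarith)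
    filter_upwards [this] with y hy
    rw [tail_diff volume f hfi (x - 1) y hy.1, intervalIntegral.integral_of_le hy.1]
  refine HasDerivAt.congr_of_eventuallyEq ?_ hev
  exact (intervalIntegral.integral_hasDerivAt_right (hfi.intervalIntegrable)
    hfm.stronglyMeasurable.stronglyMeasurableAtFilter hx).const_sub _

lemma KD.B_deriv (h : KD φ a1 a2 a3 a4) (x : ℝ) (hx : a4.eval x ≠ 0) :
    HasDerivAt (BB φ a1) (-(a1.eval x * WW φ a1 a2 a4 x)) x :=
  h.tail_deriv _ a1.continuous (h.poly_int a1) x hx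

lemma KD.V_deriv (h : KD φ a1 a2 a3 a4) (x : ℝ) (hx : a4.eval x ≠ 0) :
    HasDerivAt (VV φ a1 a2) (-(a2.eval x * WW φ a1 a2 a4 x) + -(BB φ a1 x)) x :=
  (h.tail_deriv _ a2.continuous (h.poly_int a2) x hx).add
    (tail_vol_deriv _ h.basic.1 h.basic.2.2.2.1 x (h.B_deriv x hx).continuousAt)

lemma KD.A_deriv (h : KD φ a1 a2 a3 a4) (x : ℝ) (hx : a4.eval x ≠ 0) :
    HasDerivAt (AA φ a1 a2) (-(VV φ a1 a2 x)) x :=
  tail_vol_deriv _ h.basic.2.1 h.basic.2.2.2.2.1 x (h.V_deriv x hx).continuousAt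

lemma KD.A_eq (h : KD φ a1 a2 a3 a4) : AA φ a1 a2 = tail φ (fun y => -(1 / 2) * a3.eval y) := by
  ext x
  unfold AA tail
  exact (h.M2 _ measurableSet_Ioi).symm

lemma KD.A_deriv' (h : KD φ a1 a2 a3 a4) (x : ℝ) (hx : a4.eval x ≠ 0) :
    HasDerivAt (AA φ a1 a2) ((1 / 2) * a3.eval x * WW φ a1 a2 a4 x) x := by
  have hi : Integrable (fun y => -(1 / 2) * a3.eval y) φ :=
    (h.poly_int a3).const_mul (-(1 / 2))
  have := h.tail_deriv (fun y => -(1 / 2) * a3.eval y) (by fun_prop) hi x hx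
  rw [← h.A_eq] at this
  convert! this using 1
  ring

lemma KD.V_eq (h : KD φ a1 a2 a3 a4) (x : ℝ) (hx : a4.eval x ≠ 0) :
    VV φ a1 a2 x = -((1 / 2) * a3.eval x * WW φ a1 a2 a4 x) := by
  have := (h.A_deriv x hx).unique (h.A_deriv' x hx)
  linarith

lemma KD.W_deriv (h : KD φ a1 a2 a3 a4) (x : ℝ) (hx : a4.eval x ≠ 0) :
    HasDerivAt (WW φ a1 a2 a4) ((NN a3 a4).eval x / a4.eval x * WW φ a1 a2 a4 x) x := by
  have := (h.A_deriv' x hx).div (a4.hasDerivAt x) hx
  have e : WW φ a1 a2 a4 = (AA φ a1 a2) / (fun x => a4.eval x) := by ext x; rfl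
  rw [e]
  convert! this using 1
  simp only [NN, eval_sub, eval_mul, eval_C, WW, Pi.div_apply]
  field_simp

lemma KD.B_eq (h : KD φ a1 a2 a3 a4) (x : ℝ) (hx : a4.eval x ≠ 0) :
    a4.eval x * BB φ a1 x = (QQ a2 a3 a4).eval x * WW φ a1 a2 a4 x := by
  have h1 := h.V_deriv x hx
  have h2 : HasDerivAt (fun y => -((1 / 2) * a3.eval y * WW φ a1 a2 a4 y))
      (-((1 / 2) * (derivative a3).eval x * WW φ a1 a2 a4 x +
        (1 / 2) * a3.eval x * ((NN a3 a4).eval x / a4.eval x * WW φ a1 a2 a4 x))) x :=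
    (((a3.hasDerivAt x).const_mul (1 / 2)).mul (h.W_deriv x hx)).neg
  have hev : VV φ a1 a2 =ᶠ[𝓝 x] fun y => -((1 / 2) * a3.eval y * WW φ a1 a2 a4 y) := by
    have h3 : {y | a4.eval y ≠ 0} ∈ 𝓝 x := a4.continuous.continuousAt.eventually_ne hx
    filter_upwards [h3] with y hy
    exact h.V_eq y hy
  have h4 := h1.unique (h2.congr_of_eventuallyEq hev)
  have h5 : BB φ a1 x = (1 / 2) * (derivative a3).eval x * WW φ a1 a2 a4 x +
      (1 / 2) * a3.eval x * ((NN a3 a4).eval x / a4.eval x * WW φ a1 a2 a4 x)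
      - a2.eval x * WW φ a1 a2 a4 x := by linarith
  rw [h5]
  simp only [QQ, NN, eval_sub, eval_mul, eval_C, eval_add, derivative_sub, derivative_mul, derivative_C,
    zero_mul, zero_add]
  field_simp
  ring

lemma KD.star_at (h : KD φ a1 a2 a3 a4) (x : ℝ) (hx : a4.eval x ≠ 0) (hA : AA φ a1 a2 x ≠ 0) :
    (derivative (QQ a2 a3 a4) * a4 + QQ a2 a3 a4 * (NN a3 a4 - derivative a4) + a1 * a4 ^ 2).eval x = 0 := by
  have hw : WW φ a1 a2 a4 x ≠ 0 := div_ne_zero hA hx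
  have h1 : HasDerivAt (fun y => a4.eval y * BB φ a1 y)
      ((derivative a4).eval x * BB φ a1 x + a4.eval x * (-(a1.eval x * WW φ a1 a2 a4 x))) x :=
    (a4.hasDerivAt x).mul (h.B_deriv x hx)
  have h2 : HasDerivAt (fun y => (QQ a2 a3 a4).eval y * WW φ a1 a2 a4 y)
      ((derivative (QQ a2 a3 a4)).eval x * WW φ a1 a2 a4 x +
        (QQ a2 a3 a4).eval x * ((NN a3 a4).eval x / a4.eval x * WW φ a1 a2 a4 x)) x :=
    ((QQ a2 a3 a4).hasDerivAt x).mul (h.W_deriv x hx)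
  have hev : (fun y => a4.eval y * BB φ a1 y) =ᶠ[𝓝 x] fun y => (QQ a2 a3 a4).eval y * WW φ a1 a2 a4 y := by
    have h3 : {y | a4.eval y ≠ 0} ∈ 𝓝 x := a4.continuous.continuousAt.eventually_ne hx
    filter_upwards [h3] with y hy
    exact h.B_eq y hy
  have h4 := h1.unique (h2.congr_of_eventuallyEq hev)
  have h5 := h.B_eq x hx
  have h6 : BB φ a1 x = (QQ a2 a3 a4).eval x * WW φ a1 a2 a4 x / a4.eval x := by
    field_simp
    linarith
  rw [h6] at h4
  field_simp at h4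
  simp only [eval_add, eval_mul, eval_sub, eval_pow]
  linarith

lemma KD.exists_A (h : KD φ a1 a2 a3 a4) : ∃ x, a4.eval x ≠ 0 ∧ AA φ a1 a2 x ≠ 0 := by
  by_contra hcon
  push Not at hcon
  have hfin := h.fin
  have hU : MeasurableSet {x : ℝ | a4.eval x ≠ 0} :=
    (isOpen_ne_fun a4.continuous continuous_const).measurableSet
  have e := h.set_int {x : ℝ | a4.eval x ≠ 0} hU (fun x hx => hx) (fun _ => 1)
  have e2 : ∫ x in {x : ℝ | a4.eval x ≠ 0}, (fun _ => (1 : ℝ)) x * WW φ a1 a2 a4 x = 0 := by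
    apply setIntegral_eq_zero_of_forall_eq_zero
    intro x hx
    unfold WW
    rw [hcon x hx]
    simp
  rw [e2, setIntegral_const, smul_eq_mul, mul_one] at e
  have e3 : (φ {x : ℝ | a4.eval x ≠ 0}).toReal = 0 := e
  have e4 := (ENNReal.toReal_eq_zero_iff _).1 e3 |>.resolve_right (measure_ne_top _ _)
  apply h.inf a4.roots.toFinset
  convert! e4 using 2
  ext x
  simp [h.ne]

theorem KD.star (h : KD φ a1 a2 a3 a4) :
    derivative (QQ a2 a3 a4) * a4 + QQ a2 a3 a4 * (NN a3 a4 - derivative a4) + a1 * a4 ^ 2 = 0 := by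
  obtain ⟨x, hx, hA⟩ := h.exists_A
  have h1 : {y | a4.eval y ≠ 0} ∈ 𝓝 x := a4.continuous.continuousAt.eventually_ne hx
  have h2 : {y | AA φ a1 a2 y ≠ 0} ∈ 𝓝 x := h.A_cont.continuousAt.eventually_ne hA
  apply Polynomial.eq_zero_of_infinite_isRoot
  apply Set.Infinite.mono (s := {y | a4.eval y ≠ 0} ∩ {y | AA φ a1 a2 y ≠ 0})
  · rintro y ⟨hy1, hy2⟩
    exact h.star_at y hy1 hy2
  · exact infinite_of_mem_nhds x (inter_mem h1 h2)

end Pool.Agent.W2helper99.Kr
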