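import Pool.Agent.W2helper99.Kr.Local

/-!
# Linear first order equations and the analysis at an end point of the support
-/

set_option autoImplicit false
open MeasureTheory Set Filter Topology Polynomial

namespace Pool.Agent.W2helper99.Kr

lemma prim_deriv (S : Set ℝ) (hS : IsOpen S) (hc : S.OrdConnected) (r : ℝ → ℝ)
    (hr : ContinuousOn r S) (x0 x : ℝ) (hx0 : x0 ∈ S) (hx : x ∈ S) :
    HasDerivAt (fun u => ∫ y in x0..u, r y) (r x) x := by
  apply intervalIntegral.integral_hasDerivAt_right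
  · exact (hr.mono (hc.uIcc_subset hx0 hx)).intervalIntegrable
  · exact hr.stronglyMeasurableAtFilter hS x hx
  · exact hr.continuousAt (hS.mem_nhds hx)

lemma ode_sol (S : Set ℝ) (hS : IsOpen S) (hc : S.OrdConnected) (r G : ℝ → ℝ)
    (hr : ContinuousOn r S) (hG : ∀ x ∈ S, HasDerivAt G (r x * G x) x) (x0 : ℝ) (hx0 : x0 ∈ S) :
    ∀ x ∈ S, G x = G x0 * Real.exp (∫ y in x0..x, r y) := by
  intro x hx
  have hd : ∀ u ∈ S, HasDerivAt (fun u => G u * Real.exp (-∫ y in x0..u, r y)) 0 u := by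
    intro u hu
    have h1 := (hG u hu).mul ((prim_deriv S hS hc r hr x0 u hx0 hu).neg.exp)
    convert! h1 using 1
    ring
  have hconst := hS.is_const_of_deriv_eq_zero hc.isPreconnected
    (fun u hu => (hd u hu).differentiableAt.differentiableWithinAt) (fun u hu => (hd u hu).deriv) hx hx0
  simp only [intervalIntegral.integral_same, neg_zero, Real.exp_zero, mul_one] at hconst
  rw [← hconst, mul_assoc, ← Real.exp_add, neg_add_cancel, Real.exp_zero, mul_one]

lemma zero_prop (S : Set ℝ) (hS : IsOpen S) (hc : S.OrdConnected) (r G : ℝ → ℝ)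
    (hr : ContinuousOn r S) (hG : ∀ x ∈ S, HasDerivAt G (r x * G x) x) (x0 : ℝ) (hx0 : x0 ∈ S)
    (h0 : G x0 ≠ 0) : ∀ x ∈ S, G x ≠ 0 := by
  intro x hx
  rw [ode_sol S hS hc r G hr hG x0 hx0 x hx]
  exact mul_ne_zero h0 (Real.exp_pos _).ne'

lemma lim_side (c ε : ℝ) (hε : 0 < ε) (r G : ℝ → ℝ) (hr : ContinuousOn r (Ioo (c - ε) (c + ε)))
    (S : Set ℝ) (hS : IsOpen S) (hc : S.OrdConnected) (hsub : S ⊆ Ioo (c - ε) (c + ε))
    (hG : ∀ x ∈ S, HasDerivAt G (r x * G x) x) (x0 : ℝ) (hx0 : x0 ∈ S) (h0 : G x0 ≠ 0) :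
    ∃ K : ℝ, K ≠ 0 ∧ Tendsto G (𝓝[S] c) (𝓝 K) := by
  refine ⟨G x0 * Real.exp (∫ y in x0..c, r y), mul_ne_zero h0 (Real.exp_pos _).ne', ?_⟩
  have h1 := prim_deriv (Ioo (c - ε) (c + ε)) isOpen_Ioo ordConnected_Ioo r hr x0 c (hsub hx0)
    ⟨by linarith, by linarith⟩
  have h2 : Tendsto (fun u => G x0 * Real.exp (∫ y in x0..u, r y)) (𝓝[S] c)
      (𝓝 (G x0 * Real.exp (∫ y in x0..c, r y))) :=
    ((h1.continuousAt.rexp).const_mul (G x0)).tendsto.mono_left nhdsWithin_le_nhds
  refine h2.congr' ?_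
  filter_upwards [self_mem_nhdsWithin] with x hx
  exact (ode_sol S hS hc r G (hr.mono hsub) hG x0 hx0 x hx).symm

variable {φ : Measure ℝ} {a1 a2 a3 a4 : ℝ[X]}

lemma KD.W_ne_prop (h : KD φ a1 a2 a3 a4) (S : Set ℝ) (hS : IsOpen S) (hc : S.OrdConnected)
    (hne : ∀ x ∈ S, a4.eval x ≠ 0) (x0 : ℝ) (hx0 : x0 ∈ S) (h0 : AA φ a1 a2 x0 ≠ 0) :
    ∀ x ∈ S, WW φ a1 a2 a4 x ≠ 0 := by
  apply zero_prop S hS hc (fun x => (NN a3 a4).eval x / a4.eval x) (WW φ a1 a2 a4) _
    (fun x hx => h.W_deriv x (hne x hx)) x0 hx0 (div_ne_zero h0 (hne x0 hx0))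
  exact ContinuousOn.div (by fun_prop) (by fun_prop) hne

lemma KD.star_root (h : KD φ a1 a2 a3 a4) (c : ℝ) (hc : a4.eval c = 0) :
    ((NN a3 a4).eval c + (derivative a4).eval c) * (NN a3 a4).eval c *
      ((NN a3 a4).eval c - (derivative a4).eval c) = 0 := by
  have h1 := congrArg (fun P : ℝ[X] => P.eval c) h.star
  simp only [eval_add, eval_mul, eval_sub, eval_pow, hc, QQ, eval_zero] at h1
  linear_combination h1

lemma KD.V_right (h : KD φ a1 a2 a3 a4) (c : ℝ) :
    Tendsto (VV φ a1 a2) (𝓝[>] c) (𝓝 (VV φ a1 a2 c)) :=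
  (tail_right φ _ (h.poly_int a2) c).add
    ((tail_vol_cont _ h.basic.2.2.2.1).continuousAt.tendsto.mono_left nhdsWithin_le_nhds)

lemma KD.V_left (h : KD φ a1 a2 a3 a4) (c : ℝ) :
    Tendsto (VV φ a1 a2) (𝓝[<] c) (𝓝 (VV φ a1 a2 c + a2.eval c * (φ {c}).toReal)) := by
  have := h.fin
  have h1 := (tail_left φ _ (h.poly_int a2) c).add
    ((tail_vol_cont _ h.basic.2.2.2.1).continuousAt.tendsto.mono_left
      (nhdsWithin_le_nhds (a := c) (s := Iio c)))
  have e : VV φ a1 a2 c + a2.eval c * (φ {c}).toReal = tail φ (fun y => a2.eval y) c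
      + a2.eval c * (φ {c}).toReal + tail volume (BB φ a1) c := by
    unfold VV; ring
  rw [e]
  exact h1

lemma KD.B_right (h : KD φ a1 a2 a3 a4) (c : ℝ) :
    Tendsto (BB φ a1) (𝓝[>] c) (𝓝 (BB φ a1 c)) := tail_right φ _ (h.poly_int a1) c

lemma KD.B_left (h : KD φ a1 a2 a3 a4) (c : ℝ) :
    Tendsto (BB φ a1) (𝓝[<] c) (𝓝 (BB φ a1 c + a1.eval c * (φ {c}).toReal)) := by
  have := h.fin
  exact tail_left φ _ (h.poly_int a1) c

lemma KD.a3_atom (h : KD φ a1 a2 a3 a4) (c : ℝ) : a3.eval c * (φ {c}).toReal = 0 := by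
  have := h.fin
  have e := h.M2 {c} (measurableSet_singleton c)
  rw [setIntegral_measure_zero (VV φ a1 a2) (by simp), integral_singleton, smul_eq_mul] at e
  simp only [Measure.real] at e
  linear_combination (-2) * e

/-- an end point of the support is a multiple zero of `a4` and a zero of `N` -/
theorem KD.E3 (h : KD φ a1 a2 a3 a4) (c ε : ℝ) (hε : 0 < ε) (S S' : Set ℝ)
    (hS : (S = Ioo c (c + ε) ∧ S' = Ioo (c - ε) c) ∨ (S = Ioo (c - ε) c ∧ S' = Ioo c (c + ε)))
    (hne : ∀ x ∈ Ioo (c - ε) (c + ε), x ≠ c → a4.eval x ≠ 0) (hz : ∀ x ∈ S', AA φ a1 a2 x = 0)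
    (hnz : ∃ x ∈ S, AA φ a1 a2 x ≠ 0) (hc : a4.eval c = 0) :
    (derivative a4).eval c = 0 ∧ (NN a3 a4).eval c = 0 := by
  have hfin := h.fin
  have hsub : S ⊆ Ioo (c - ε) (c + ε) := by
    rcases hS with ⟨h1, _⟩ | ⟨h1, _⟩ <;> rw [h1] <;> intro x hx
    · exact ⟨by linarith [hx.1], hx.2⟩
    · exact ⟨hx.1, by linarith [hx.2]⟩
  have hsub' : S' ⊆ Ioo (c - ε) (c + ε) := by
    rcases hS with ⟨_, h1⟩ | ⟨_, h1⟩ <;> rw [h1] <;> intro x hx
    · exact ⟨hx.1, by linarith [hx.2]⟩
    · exact ⟨by linarith [hx.1], hx.2⟩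
  have hSc : ∀ x ∈ S, x ≠ c := by
    rcases hS with ⟨h1, _⟩ | ⟨h1, _⟩ <;> rw [h1] <;> intro x hx
    · exact hx.1.ne'
    · exact hx.2.ne
  have hSc' : ∀ x ∈ S', x ≠ c := by
    rcases hS with ⟨_, h1⟩ | ⟨_, h1⟩ <;> rw [h1] <;> intro x hx
    · exact hx.2.ne
    · exact hx.1.ne'
  have hSo : IsOpen S := by
    rcases hS with ⟨h1, _⟩ | ⟨h1, _⟩ <;> rw [h1] <;> exact isOpen_Ioo
  have hSoc : S.OrdConnected := by
    rcases hS with ⟨h1, _⟩ | ⟨h1, _⟩ <;> rw [h1] <;> exact ordConnected_Ioo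
  have hbot : (𝓝[S] c).NeBot := by
    rcases hS with ⟨h1, _⟩ | ⟨h1, _⟩ <;> rw [h1]
    · rw [nhdsWithin_Ioo_eq_nhdsGT (by linarith)]; infer_instance
    · rw [nhdsWithin_Ioo_eq_nhdsLT (by linarith)]; infer_instance
  have hbot' : (𝓝[S'] c).NeBot := by
    rcases hS with ⟨_, h1⟩ | ⟨_, h1⟩ <;> rw [h1]
    · rw [nhdsWithin_Ioo_eq_nhdsLT (by linarith)]; infer_instance
    · rw [nhdsWithin_Ioo_eq_nhdsGT (by linarith)]; infer_instance
  -- A → 0
  have hA0 : AA φ a1 a2 c = 0 := by
    have h1 : Tendsto (AA φ a1 a2) (𝓝[S'] c) (𝓝 (AA φ a1 a2 c)) :=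
      h.A_cont.continuousAt.tendsto.mono_left nhdsWithin_le_nhds
    have h2 : Tendsto (AA φ a1 a2) (𝓝[S'] c) (𝓝 0) := by
      apply tendsto_const_nhds.congr'
      filter_upwards [self_mem_nhdsWithin] with x hx
      exact (hz x hx).symm
    exact tendsto_nhds_unique h1 h2
  have hAl : Tendsto (AA φ a1 a2) (𝓝[S] c) (𝓝 0) := by
    rw [← hA0]
    exact h.A_cont.continuousAt.tendsto.mono_left nhdsWithin_le_nhds
  -- V and B tend to zero if a3 c ≠ 0
  have hVB : a3.eval c ≠ 0 → Tendsto (VV φ a1 a2) (𝓝[S] c) (𝓝 0) ∧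
      Tendsto (BB φ a1) (𝓝[S] c) (𝓝 0) := by
    intro h3
    have hm : (φ {c}).toReal = 0 := (mul_eq_zero.1 (h.a3_atom c)).resolve_left h3
    have vr := h.V_right c
    have vl := h.V_left c
    have br := h.B_right c
    have bl := h.B_left c
    rw [hm, mul_zero, add_zero] at vl bl
    have hw0 : ∀ x ∈ S', WW φ a1 a2 a4 x = 0 := fun x hx => by
      unfold WW; rw [hz x hx, zero_div]
    have hV0 : ∀ x ∈ S', VV φ a1 a2 x = 0 := fun x hx => by
      rw [h.V_eq x (hne x (hsub' hx) (hSc' x hx)), hw0 x hx]; ring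
    have hB0 : ∀ x ∈ S', BB φ a1 x = 0 := fun x hx => by
      have h4 := h.B_eq x (hne x (hsub' hx) (hSc' x hx))
      rw [hw0 x hx, mul_zero] at h4
      exact (mul_eq_zero.1 h4).resolve_left (hne x (hsub' hx) (hSc' x hx))
    have hV1 : Tendsto (VV φ a1 a2) (𝓝[S'] c) (𝓝 0) := by
      apply tendsto_const_nhds.congr'
      filter_upwards [self_mem_nhdsWithin] with x hx
      exact (hV0 x hx).symm
    have hB1 : Tendsto (BB φ a1) (𝓝[S'] c) (𝓝 0) := by
      apply tendsto_const_nhds.congr'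
      filter_upwards [self_mem_nhdsWithin] with x hx
      exact (hB0 x hx).symm
    rcases hS with ⟨h1, h2⟩ | ⟨h1, h2⟩
    · rw [h2, nhdsWithin_Ioo_eq_nhdsLT (by linarith)] at hV1 hB1
      have e1 := tendsto_nhds_unique vl hV1
      have e2 := tendsto_nhds_unique bl hB1
      rw [h1, nhdsWithin_Ioo_eq_nhdsGT (by linarith)]
      rw [e1] at vr
      rw [e2] at br
      exact ⟨vr, br⟩
    · rw [h2, nhdsWithin_Ioo_eq_nhdsGT (by linarith)] at hV1 hB1
      have e1 := tendsto_nhds_unique vr hV1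
      have e2 := tendsto_nhds_unique br hB1
      rw [h1, nhdsWithin_Ioo_eq_nhdsLT (by linarith)]
      rw [e1] at vl
      rw [e2] at bl
      exact ⟨vl, bl⟩
  have ha3 : a3.eval c = 2 * ((NN a3 a4).eval c + (derivative a4).eval c) := by
    simp only [NN, eval_sub, eval_mul, eval_C]; ring
  obtain ⟨x0, hx0, hAx0⟩ := hnz
  have hstar := h.star_root c hc
  by_cases hd : (derivative a4).eval c = 0
  · refine ⟨hd, ?_⟩
    rw [hd] at hstar
    have : ((NN a3 a4).eval c) ^ 3 = 0 := by linear_combination hstar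
    exact pow_eq_zero_iff (by norm_num) |>.1 this
  · exfalso
    -- factor a4
    obtain ⟨hh, hhe⟩ := dvd_iff_isRoot.2 hc
    have hhc : hh.eval c = (derivative a4).eval c := by
      rw [hhe]
      simp
    have hhc0 : hh.eval c ≠ 0 := by rw [hhc]; exact hd
    have ha4e : ∀ x, a4.eval x = (x - c) * hh.eval x := fun x => by rw [hhe]; simp
    have hhne : ∀ x ∈ Ioo (c - ε) (c + ε), hh.eval x ≠ 0 := by
      intro x hx
      by_cases hxc : x = c
      · rw [hxc]; exact hhc0
      · have := hne x hx hxc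
        rw [ha4e] at this
        exact right_ne_zero_of_mul this
    have hneS : ∀ x ∈ S, a4.eval x ≠ 0 := fun x hx => hne x (hsub hx) (hSc x hx)
    have hwne := h.W_ne_prop S hSo hSoc hneS x0 hx0 hAx0
    have hlimpoly : ∀ P : ℝ[X], Tendsto (fun x => P.eval x) (𝓝[S] c) (𝓝 (P.eval c)) := fun P =>
      P.continuous.continuousAt.tendsto.mono_left nhdsWithin_le_nhds
    -- three cases
    have hcases : (NN a3 a4).eval c = 0 ∨ (NN a3 a4).eval c = hh.eval c ∨
        (NN a3 a4).eval c = -hh.eval c := by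
      rw [hhc]
      rcases mul_eq_zero.1 hstar with h1 | h1
      · rcases mul_eq_zero.1 h1 with h2 | h2
        · exact Or.inr (Or.inr (by linarith))
        · exact Or.inl h2
      · exact Or.inr (Or.inl (by linarith))
    rcases hcases with hN | hN | hN
    · -- exponent 0
      obtain ⟨R, hR⟩ := dvd_iff_isRoot.2 (show (NN a3 a4).IsRoot c from hN)
      obtain ⟨K, hK, hlim⟩ := lim_side c ε hε (fun x => R.eval x / hh.eval x) (WW φ a1 a2 a4)
        (ContinuousOn.div (by fun_prop) (by fun_prop) hhne) S hSo hSoc hsub (fun x hx => by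
          have := h.W_deriv x (hneS x hx)
          convert! this using 2
          rw [hR, ha4e]
          simp only [eval_mul, eval_sub, eval_X, eval_C]
          have h1 := sub_ne_zero.2 (hSc x hx)
          have h2 := hhne x (hsub hx)
          field_simp) x0 hx0 (hwne x0 hx0)
      have h3 : a3.eval c ≠ 0 := by
        rw [ha3, hN, ← hhc, zero_add]
        exact mul_ne_zero two_ne_zero hhc0
      have hV := (hVB h3).1
      have hV2 : Tendsto (VV φ a1 a2) (𝓝[S] c) (𝓝 (-((1 / 2) * a3.eval c * K))) := by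
        have := (((hlimpoly a3).const_mul (1 / 2)).mul hlim).neg
        refine this.congr' ?_
        filter_upwards [self_mem_nhdsWithin] with x hx
        exact (h.V_eq x (hneS x hx)).symm
      have := tendsto_nhds_unique hV hV2
      have h4 : (1 / 2) * a3.eval c * K = 0 := by linarith
      exact mul_ne_zero (mul_ne_zero (by norm_num) h3) hK h4
    · -- exponent 1
      have hroot : (NN a3 a4 - hh).IsRoot c := by
        simp only [IsRoot, eval_sub]; rw [hN]; ring
      obtain ⟨R, hR⟩ := dvd_iff_isRoot.2 hroot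
      have hNe : ∀ x, (NN a3 a4).eval x = hh.eval x + (x - c) * R.eval x := by
        intro x
        have := congrArg (fun P : ℝ[X] => P.eval x) hR
        simp only [eval_sub, eval_mul, eval_X, eval_C] at this
        linarith
      obtain ⟨K, hK, hlim⟩ := lim_side c ε hε (fun x => R.eval x / hh.eval x)
        (fun x => WW φ a1 a2 a4 x / (x - c))
        (ContinuousOn.div (by fun_prop) (by fun_prop) hhne) S hSo hSoc hsub (fun x hx => by
          have h1 := sub_ne_zero.2 (hSc x hx)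
          have h2 := hhne x (hsub hx)
          have := (h.W_deriv x (hneS x hx)).div ((hasDerivAt_id x).sub_const c) h1
          convert! this using 1
          simp only [id]
          rw [hNe, ha4e]
          field_simp
          ring) x0 hx0 (div_ne_zero (hwne x0 hx0) (sub_ne_zero.2 (hSc x0 hx0)))
      have h3 : a3.eval c ≠ 0 := by
        rw [ha3, hN, ← hhc, ← two_mul]
        exact mul_ne_zero two_ne_zero (mul_ne_zero two_ne_zero hhc0)
      have hB := (hVB h3).2
      have hB2 : Tendsto (BB φ a1) (𝓝[S] c) (𝓝 ((QQ a2 a3 a4).eval c / hh.eval c * K)) := by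
        have := ((hlimpoly (QQ a2 a3 a4)).div (hlimpoly hh) hhc0).mul hlim
        refine this.congr' ?_
        filter_upwards [self_mem_nhdsWithin] with x hx
        have h4 := h.B_eq x (hneS x hx)
        rw [ha4e] at h4
        have h1 := sub_ne_zero.2 (hSc x hx)
        have h2 := hhne x (hsub hx)
        simp only [Pi.div_apply]
        field_simp
        linarith
      have := tendsto_nhds_unique hB hB2
      have hQ : (QQ a2 a3 a4).eval c = 2 * hh.eval c * hh.eval c := by
        simp only [QQ, eval_sub, eval_add, eval_mul, hc, mul_zero]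
        rw [hN, ← hhc]; ring
      rw [hQ] at this
      have h5 : 2 * hh.eval c * hh.eval c / hh.eval c * K ≠ 0 := by
        apply mul_ne_zero _ hK
        apply div_ne_zero _ hhc0
        exact mul_ne_zero (mul_ne_zero two_ne_zero hhc0) hhc0
      exact h5 this.symm
    · -- exponent -1
      have hroot : (NN a3 a4 + hh).IsRoot c := by
        simp only [IsRoot, eval_add]; rw [hN]; ring
      obtain ⟨R, hR⟩ := dvd_iff_isRoot.2 hroot
      have hNe : ∀ x, (NN a3 a4).eval x = -hh.eval x + (x - c) * R.eval x := by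
        intro x
        have := congrArg (fun P : ℝ[X] => P.eval x) hR
        simp only [eval_add, eval_mul, eval_X, eval_C, eval_sub] at this
        linarith
      obtain ⟨K, hK, hlim⟩ := lim_side c ε hε (fun x => R.eval x / hh.eval x)
        (fun x => WW φ a1 a2 a4 x * (x - c))
        (ContinuousOn.div (by fun_prop) (by fun_prop) hhne) S hSo hSoc hsub (fun x hx => by
          have h1 := sub_ne_zero.2 (hSc x hx)
          have h2 := hhne x (hsub hx)
          have := (h.W_deriv x (hneS x hx)).mul ((hasDerivAt_id x).sub_const c)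
          convert! this using 1
          simp only [id]
          rw [hNe, ha4e]
          field_simp
          ring) x0 hx0 (mul_ne_zero (hwne x0 hx0) (sub_ne_zero.2 (hSc x0 hx0)))
      have hA2 : Tendsto (AA φ a1 a2) (𝓝[S] c) (𝓝 (hh.eval c * K)) := by
        have := (hlimpoly hh).mul hlim
        refine this.congr' ?_
        filter_upwards [self_mem_nhdsWithin] with x hx
        have h4 : AA φ a1 a2 x = a4.eval x * WW φ a1 a2 a4 x := by
          unfold WW
          field_simp [hneS x hx]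
        rw [h4, ha4e]
        ring
      have := tendsto_nhds_unique hAl hA2
      exact mul_ne_zero hhc0 hK this.symm

end Pool.Agent.W2helper99.Kr
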