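import Pool.Agent.W2helper99.Kr.Jacobi

/-!
# Reflection, and the classification
-/

set_option autoImplicit false
open MeasureTheory Set Filter Topology Polynomial

namespace Pool.Agent.W2helper99.Kr

lemma int_neg (φ : Measure ℝ) (f : ℝ → ℝ) :
    ∫ x, f x ∂(φ.map (fun x : ℝ => -x)) = ∫ x, f (-x) ∂φ :=
  (MeasurableEquiv.neg ℝ).measurableEmbedding.integral_map f

lemma eval_compneg (P : ℝ[X]) (x : ℝ) : (P.comp (-X)).eval x = P.eval (-x) := by
  rw [eval_comp]; simp

lemma natDegree_compneg (P : ℝ[X]) : (P.comp (-X)).natDegree = P.natDegree := by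
  rw [natDegree_comp]; simp

lemma deriv_compneg (P : ℝ[X]) : derivative (P.comp (-X)) = -((derivative P).comp (-X)) := by
  rw [derivative_comp]; simp

variable {φ : Measure ℝ} {a1 a2 a3 a4 : ℝ[X]}

theorem KD.reflect (h : KD φ a1 a2 a3 a4) :
    KD (φ.map (fun x : ℝ => -x)) (-(a1.comp (-X))) (a2.comp (-X)) (-(a3.comp (-X)))
      (a4.comp (-X)) := by
  have hfin := h.fin
  refine ⟨?_, ?_, ?_, ?_, ?_, ?_, ?_, ?_, ?_, ?_, ?_⟩
  · exact Measure.isFiniteMeasure_map φ _
  · obtain ⟨δ, hδ, hi⟩ := h.expi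
    refine ⟨δ, hδ, ?_⟩
    have e : (MeasurableEquiv.neg ℝ : ℝ → ℝ) = fun x : ℝ => -x := rfl
    rw [← e, (MeasurableEquiv.neg ℝ).measurableEmbedding.integrable_map_iff]
    refine hi.congr (Eventually.of_forall fun y => ?_)
    simp [e]
  · intro s hs
    apply h.inf (s.image (fun x => -x))
    rw [Measure.map_apply measurable_neg (s.finite_toSet.measurableSet.compl)] at hs
    refine le_antisymm ((measure_mono ?_).trans hs.le) zero_le'
    intro x hx
    simp only [mem_preimage, mem_compl_iff, Finset.mem_coe] at hx ⊢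
    intro hcon
    apply hx
    exact Finset.mem_image.2 ⟨-x, hcon, by simp⟩
  · rw [natDegree_neg, natDegree_compneg]; exact h.d1
  · rw [natDegree_compneg]; exact h.d2
  · rw [natDegree_neg, natDegree_compneg]; exact h.d3
  · rw [natDegree_compneg]; exact h.d4
  · intro h0
    apply h.ne
    have := congrArg (fun P : ℝ[X] => P.comp (-X)) h0
    simp only [comp_assoc, neg_comp, X_comp, neg_neg, comp_X, zero_comp] at this
    exact this
  · have e : (MeasurableEquiv.neg ℝ : ℝ → ℝ) = fun x : ℝ => -x := rfl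
    rw [← e, (MeasurableEquiv.neg ℝ).measurableEmbedding.ae_map_iff]
    filter_upwards [h.pos] with x hx
    rw [eval_compneg, e]
    simpa using hx
  · intro g
    rw [int_neg]
    have h1 := h.hE (g.comp (-X))
    rw [← neg_eq_zero, ← integral_neg] at h1
    rw [← h1]
    congr 1
    ext x
    rw [deriv_compneg]
    simp only [eval_add, eval_mul, eval_neg, eval_compneg, neg_neg, eval_ofNat]
    ring
  · intro g
    rw [int_neg]
    have h1 := h.hF (g.comp (-X))
    rw [← neg_eq_zero, ← integral_neg] at h1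
    rw [← h1]
    congr 1
    ext x
    rw [deriv_compneg, derivative_neg, deriv_compneg]
    simp only [eval_add, eval_mul, eval_neg, eval_compneg, neg_neg, eval_ofNat]
    ring

lemma Concl.reflect (h : Concl (φ.map (fun x : ℝ => -x))) : Concl φ := by
  obtain ⟨μ, hμ, a, b, c, ha, hc, hf⟩ := h
  refine ⟨μ, hμ, -a, -b, c, neg_ne_zero.2 ha, hc, fun f => ?_⟩
  have h1 := hf (f.comp (-X))
  rw [int_neg] at h1
  simp only [eval_compneg, neg_neg] at h1
  rw [← h1]
  congr 1
  ext x
  congr 1
  ring

lemma uA_reflect (x : ℝ) : uA (-(a3.comp (-X))) (a4.comp (-X)) x = -uA a3 a4 (-x) := by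
  unfold uA
  rw [eval_neg, eval_compneg, eval_compneg, neg_div]

/-- the classification -/
theorem KD.concl (h : KD φ a1 a2 a3 a4) : Concl φ := by
  rcases h.cases with ⟨α, β, k, hlt, hk, e4, hNα, hNβ, hz1, hz2, hA⟩ |
    ⟨α, k, hk, e4, hN, hd3, hN2, hz, hA, hg⟩ | ⟨β, k, hk, e4, hN, hd3, hN2, hz, hA, hg⟩ |
    ⟨k, hk, e4, hN1, hA, ht, hb⟩
  · exact h.jacobi α β k hlt hk e4 hNα hNβ hz1 hz2 hA
  · exact h.laguerre α k hk e4 hN hN2 hz hA hg
  · apply Concl.reflect
    have h' := h.reflect
    have hd2 : a4.natDegree = 2 := by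
      rw [e4, natDegree_C_mul hk, (monic_X_sub_C β).natDegree_pow, natDegree_X_sub_C]
    have hd2' : (a4.comp (-X)).natDegree = 2 := by rw [natDegree_compneg, hd2]
    rcases h'.cases with ⟨α', β', k', hlt', hk', e4', -⟩ |
      ⟨α', k', hk', e4', hN', hd3', hN2', hz', hA', hg'⟩ | ⟨β', k', hk', e4', hN', hd3', hN2', hz', hA', hg'⟩ |
      ⟨k', hk', e4', -⟩
    · exfalso
      rw [e4', natDegree_C_mul hk', ((monic_X_sub_C α').pow 2).natDegree_mul ((monic_X_sub_C β').pow 2),
        (monic_X_sub_C α').natDegree_pow, (monic_X_sub_C β').natDegree_pow, natDegree_X_sub_C,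
        natDegree_X_sub_C] at hd2'
      omega
    · exact h'.laguerre α' k' hk' e4' hN' hN2' hz' hA' hg'
    · exfalso
      have ht : GT a3 a4 := by
        intro K M hM hu
        apply hg' K M hM
        intro x hx
        rw [uA_reflect]
        have := hu (-x) (by linarith)
        have e : -K / -x = -(K / -x) := by ring
        rw [e] at this
        linarith
      have hlt := two_sided h.ne ht hg
      have := natDegree_lt_natDegree h.ne hlt
      omega
    · exfalso
      rw [e4', natDegree_C] at hd2'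
      omega
  · exact h.hermite k hk e4 hN1 hA ht hb

end Pool.Agent.W2helper99.Kr
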