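import Pool.Agent.W2helper99.Kr.Det

/-!
# Tails of measures with density, and integration by parts against them
-/

set_option autoImplicit false
open MeasureTheory Set Filter Topology

namespace Pool.Agent.W2helper99.Kr

/-- the kernel -/
noncomputable def Kk (x y : ℝ) : ℝ := (Ico (0 : ℝ) y).indicator (fun _ => (1 : ℝ)) x
  - (Ico y 0).indicator (fun _ => (1 : ℝ)) x

/-- the centred tail -/
noncomputable def TT (ρ : Measure ℝ) (f : ℝ → ℝ) (x : ℝ) : ℝ :=
  if x < 0 then - ∫ y in Iic x, f y ∂ρ else ∫ y in Ioi x, f y ∂ρ

/-- the tail -/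
noncomputable def tail (ρ : Measure ℝ) (f : ℝ → ℝ) (x : ℝ) : ℝ := ∫ y in Ioi x, f y ∂ρ

lemma TT_eq (ρ : Measure ℝ) (f : ℝ → ℝ) (x : ℝ) : TT ρ f x = ∫ y, Kk x y * f y ∂ρ := by
  unfold TT Kk
  split_ifs with hx
  · have e : ∀ y, ((Ico (0 : ℝ) y).indicator (fun _ => (1 : ℝ)) x
        - (Ico y 0).indicator (fun _ => (1 : ℝ)) x) * f y = -((Iic x).indicator f y) := by
      intro y
      have h1 : x ∉ Ico (0 : ℝ) y := fun h => absurd h.1 (not_le.2 hx)
      rw [indicator_of_notMem h1]
      by_cases hy : y ≤ x
      · rw [indicator_of_mem (show x ∈ Ico y 0 from ⟨hy, hx⟩), indicator_of_mem (show y ∈ Iic x from hy)]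
        ring
      · rw [indicator_of_notMem (show x ∉ Ico y 0 from fun h => hy h.1),
          indicator_of_notMem (show y ∉ Iic x from hy)]
        ring
    simp_rw [e]
    rw [integral_neg, integral_indicator measurableSet_Iic]
  · have hx' : 0 ≤ x := not_lt.1 hx
    have e : ∀ y, ((Ico (0 : ℝ) y).indicator (fun _ => (1 : ℝ)) x
        - (Ico y 0).indicator (fun _ => (1 : ℝ)) x) * f y = ((Ioi x).indicator f y) := by
      intro y
      have h1 : x ∉ Ico y 0 := fun h => absurd h.2 hx
      rw [indicator_of_notMem h1]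
      by_cases hy : x < y
      · rw [indicator_of_mem (show x ∈ Ico (0 : ℝ) y from ⟨hx', hy⟩),
          indicator_of_mem (show y ∈ Ioi x from hy)]
        ring
      · rw [indicator_of_notMem (show x ∉ Ico (0 : ℝ) y from fun h => hy h.2),
          indicator_of_notMem (show y ∉ Ioi x from hy)]
        ring
    simp_rw [e]
    rw [integral_indicator measurableSet_Ioi]

lemma int_Kk (g : ℝ → ℝ) (hg : Continuous g) (y : ℝ) :
    Integrable (fun x => g x * Kk x y) volume ∧ ∫ x, g x * Kk x y = ∫ x in (0 : ℝ)..y, g x := by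
  have e : (fun x => g x * Kk x y) = fun x => (Ico (0 : ℝ) y).indicator g x - (Ico y 0).indicator g x := by
    ext x
    unfold Kk
    by_cases h1 : x ∈ Ico (0 : ℝ) y <;> by_cases h2 : x ∈ Ico y 0 <;>
      simp [h1, h2]
  have i1 : Integrable ((Ico (0 : ℝ) y).indicator g) volume := by
    rw [integrable_indicator_iff measurableSet_Ico]
    exact (hg.continuousOn.integrableOn_Icc (a := 0) (b := y)).mono_set Ico_subset_Icc_self
  have i2 : Integrable ((Ico y 0).indicator g) volume := by
    rw [integrable_indicator_iff measurableSet_Ico]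
    exact (hg.continuousOn.integrableOn_Icc (a := y) (b := 0)).mono_set Ico_subset_Icc_self
  rw [e]
  refine ⟨i1.sub i2, ?_⟩
  rw [integral_sub i1 i2, integral_indicator measurableSet_Ico, integral_indicator measurableSet_Ico,
    intervalIntegral, integral_Ico_eq_integral_Ioc, integral_Ico_eq_integral_Ioc]

lemma int_abs_Kk (g : ℝ → ℝ) (hg : Continuous g) (δ : ℝ) (hδ : 0 < δ) (C : ℝ) (hC0 : 0 ≤ C)
    (hC : ∀ x, |g x| ≤ C * Real.exp (δ * |x|)) (y : ℝ) :
    ∫ x, |g x * Kk x y| ≤ C / δ * Real.exp (δ * |y|) := by
  have e : (fun x => |g x * Kk x y|) =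
      fun x => (Ico (0 : ℝ) y).indicator (fun x => |g x|) x + (Ico y 0).indicator (fun x => |g x|) x := by
    ext x
    unfold Kk
    by_cases h1 : x ∈ Ico (0 : ℝ) y <;> by_cases h2 : x ∈ Ico y 0
    · exact absurd h2.2 (not_lt.2 h1.1)
    · simp [h1, h2]
    · simp [h1, h2]
    · simp [h1, h2]
  have hga : Continuous (fun x => |g x|) := hg.abs
  have i1 : Integrable ((Ico (0 : ℝ) y).indicator (fun x => |g x|)) volume := by
    rw [integrable_indicator_iff measurableSet_Ico]
    exact (hga.continuousOn.integrableOn_Icc (a := 0) (b := y)).mono_set Ico_subset_Icc_self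
  have i2 : Integrable ((Ico y 0).indicator (fun x => |g x|)) volume := by
    rw [integrable_indicator_iff measurableSet_Ico]
    exact (hga.continuousOn.integrableOn_Icc (a := y) (b := 0)).mono_set Ico_subset_Icc_self
  rw [e, integral_add i1 i2, integral_indicator measurableSet_Ico, integral_indicator measurableSet_Ico]
  rcases le_total 0 y with hy | hy
  · rw [Ico_eq_empty (not_lt.2 hy), setIntegral_empty, add_zero, abs_of_nonneg hy]
    have h1 : ∫ x in Ico 0 y, |g x| ≤ ∫ x in Iic y, C * Real.exp (δ * x) := by
      calc ∫ x in Ico 0 y, |g x| ≤ ∫ x in Ico 0 y, C * Real.exp (δ * x) := by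
            apply setIntegral_mono_on
            · exact (hga.continuousOn.integrableOn_Icc (a := 0) (b := y)).mono_set Ico_subset_Icc_self
            · exact ((by fun_prop : Continuous fun x : ℝ => C * Real.exp (δ * x)).continuousOn.integrableOn_Icc
                (a := 0) (b := y)).mono_set Ico_subset_Icc_self
            · exact measurableSet_Ico
            · intro x hx
              have := hC x
              rwa [abs_of_nonneg hx.1] at this
        _ ≤ ∫ x in Iic y, C * Real.exp (δ * x) := by
            apply setIntegral_mono_set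
            · exact (integrableOn_exp_mul_Iic hδ y).const_mul C
            · exact Eventually.of_forall fun x => by positivity
            · exact LE.le.eventuallyLE (fun x hx => hx.2.le)
    rw [integral_const_mul, integral_exp_mul_Iic hδ] at h1
    calc _ ≤ _ := h1
      _ = C / δ * Real.exp (δ * y) := by ring
  · rw [Ico_eq_empty (not_lt.2 hy), setIntegral_empty, zero_add, abs_of_nonpos hy]
    have h1 : ∫ x in Ico y 0, |g x| ≤ ∫ x in Ioi y, C * Real.exp (-δ * x) := by
      calc ∫ x in Ico y 0, |g x| = ∫ x in Ioc y 0, |g x| := integral_Ico_eq_integral_Ioc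
        _ ≤ ∫ x in Ioc y 0, C * Real.exp (-δ * x) := by
            apply setIntegral_mono_on
            · exact (hga.continuousOn.integrableOn_Icc (a := y) (b := 0)).mono_set Ioc_subset_Icc_self
            · exact ((by fun_prop : Continuous fun x : ℝ => C * Real.exp (-δ * x)).continuousOn.integrableOn_Icc
                (a := y) (b := 0)).mono_set Ioc_subset_Icc_self
            · exact measurableSet_Ioc
            · intro x hx
              have := hC x
              rw [abs_of_nonpos hx.2] at this
              calc |g x| ≤ _ := this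
                _ = _ := by ring_nf
        _ ≤ ∫ x in Ioi y, C * Real.exp (-δ * x) := by
            apply setIntegral_mono_set
            · exact (integrableOn_exp_mul_Ioi (neg_lt_zero.2 hδ) y).const_mul C
            · exact Eventually.of_forall fun x => by positivity
            · exact LE.le.eventuallyLE (fun x hx => hx.1)
    rw [integral_const_mul, integral_exp_mul_Ioi (neg_lt_zero.2 hδ)] at h1
    calc _ ≤ _ := h1
      _ = C / δ * Real.exp (δ * -y) := by
        rw [show -δ * y = δ * -y by ring]
        field_simp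

lemma measurable_Kk : Measurable (fun p : ℝ × ℝ => Kk p.1 p.2) := by
  unfold Kk
  have h1 : MeasurableSet {p : ℝ × ℝ | p.1 ∈ Ico (0 : ℝ) p.2} := by
    have : {p : ℝ × ℝ | p.1 ∈ Ico (0 : ℝ) p.2} = {p | 0 ≤ p.1} ∩ {p | p.1 < p.2} := by
      ext p; simp
    rw [this]
    exact (measurableSet_le measurable_const measurable_fst).inter
      (measurableSet_lt measurable_fst measurable_snd)
  have h2 : MeasurableSet {p : ℝ × ℝ | p.1 ∈ Ico p.2 (0 : ℝ)} := by
    have : {p : ℝ × ℝ | p.1 ∈ Ico p.2 (0 : ℝ)} = {p | p.2 ≤ p.1} ∩ {p | p.1 < 0} := by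
      ext p; simp
    rw [this]
    exact (measurableSet_le measurable_snd measurable_fst).inter
      (measurableSet_lt measurable_fst measurable_const)
  have e1 : (fun p : ℝ × ℝ => (Ico (0 : ℝ) p.2).indicator (fun _ => (1 : ℝ)) p.1) =
      {p : ℝ × ℝ | p.1 ∈ Ico (0 : ℝ) p.2}.indicator (fun _ => (1 : ℝ)) := by
    ext p
    rfl
  have e2 : (fun p : ℝ × ℝ => (Ico p.2 (0 : ℝ)).indicator (fun _ => (1 : ℝ)) p.1) =
      {p : ℝ × ℝ | p.1 ∈ Ico p.2 (0 : ℝ)}.indicator (fun _ => (1 : ℝ)) := by
    ext p
    rfl
  have m1 : Measurable (fun p : ℝ × ℝ => (Ico (0 : ℝ) p.2).indicator (fun _ => (1 : ℝ)) p.1) := by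
    rw [e1]; exact measurable_const.indicator h1
  have m2 : Measurable (fun p : ℝ × ℝ => (Ico p.2 (0 : ℝ)).indicator (fun _ => (1 : ℝ)) p.1) := by
    rw [e2]; exact measurable_const.indicator h2
  exact m1.sub m2

theorem ibp (ρ : Measure ℝ) [SFinite ρ] (f : ℝ → ℝ) (hfm : Measurable f) (δ : ℝ) (hδ : 0 < δ)
    (hf : Integrable (fun y => Real.exp (δ * |y|) * f y) ρ) (g : ℝ → ℝ) (hg : Continuous g)
    (C : ℝ) (hC : ∀ x, |g x| ≤ C * Real.exp (δ * |x|)) :
    Integrable (fun x => g x * TT ρ f x) volume ∧
      ∫ x, g x * TT ρ f x = ∫ y, f y * (∫ x in (0 : ℝ)..y, g x) ∂ρ := by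
  have hC0 : 0 ≤ C := by
    have h := hC 0
    simp only [abs_zero, mul_zero, Real.exp_zero, mul_one] at h
    exact (abs_nonneg _).trans h
  set F : ℝ × ℝ → ℝ := fun p => g p.1 * (Kk p.1 p.2 * f p.2) with hF
  have hFm : Measurable F := by
    exact (hg.measurable.comp measurable_fst).mul (measurable_Kk.mul (hfm.comp measurable_snd))
  have hFi : Integrable F (volume.prod ρ) := by
    rw [integrable_prod_iff' hFm.aestronglyMeasurable]
    constructor
    · refine Eventually.of_forall fun y => ?_
      have := (int_Kk g hg y).1.mul_const (f y)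
      refine this.congr (Eventually.of_forall fun x => ?_)
      simp only [hF]
      ring
    · have hm : AEStronglyMeasurable (fun y => ∫ x, ‖F (x, y)‖ ∂volume) ρ := by
        exact (hFm.norm.aestronglyMeasurable (μ := volume.prod ρ)).prod_swap.integral_prod_right'
      refine (hf.norm.const_mul (C / δ)).mono' hm (Eventually.of_forall fun y => ?_)
      rw [Real.norm_of_nonneg (integral_nonneg fun x => norm_nonneg _)]
      have e : (fun x => ‖F (x, y)‖) = fun x => |g x * Kk x y| * |f y| := by
        ext x
        simp only [hF, Real.norm_eq_abs]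
        rw [← mul_assoc, abs_mul]
      rw [e, integral_mul_const]
      have h := int_abs_Kk g hg δ hδ C hC0 hC y
      calc (∫ x, |g x * Kk x y|) * |f y| ≤ (C / δ * Real.exp (δ * |y|)) * |f y| :=
            mul_le_mul_of_nonneg_right h (abs_nonneg _)
        _ = C / δ * ‖Real.exp (δ * |y|) * f y‖ := by
            rw [Real.norm_eq_abs, abs_mul, abs_of_pos (Real.exp_pos _)]
            ring
  have e1 : ∀ x, g x * TT ρ f x = ∫ y, F (x, y) ∂ρ := by
    intro x
    rw [TT_eq, ← integral_const_mul]
  simp_rw [e1]
  refine ⟨hFi.integral_prod_left, ?_⟩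
  rw [← integral_prod F hFi, integral_prod_symm F hFi]
  congr 1
  ext y
  have e2 : (fun x => F (x, y)) = fun x => (g x * Kk x y) * f y := by
    ext x
    simp only [hF]
    ring
  rw [e2, integral_mul_const, (int_Kk g hg y).2]
  ring

lemma TT_measurable (ρ : Measure ℝ) [SFinite ρ] (f : ℝ → ℝ) (hfm : Measurable f) :
    Measurable (TT ρ f) := by
  have : TT ρ f = fun x => ∫ y, Kk x y * f y ∂ρ := by
    ext x; exact TT_eq ρ f x
  rw [this]
  exact ((measurable_Kk.mul (hfm.comp measurable_snd)).stronglyMeasurable.integral_prod_right').measurable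

/-- one-sided limits of the tail -/
lemma tail_right (ρ : Measure ℝ) (f : ℝ → ℝ) (hf : Integrable f ρ) (c : ℝ) :
    Tendsto (tail ρ f) (𝓝[>] c) (𝓝 (tail ρ f c)) := by
  unfold tail
  simp_rw [← integral_indicator (measurableSet_Ioi (a := _))]
  apply tendsto_integral_filter_of_dominated_convergence (fun y => ‖f y‖)
  · exact Eventually.of_forall fun x => hf.aestronglyMeasurable.indicator measurableSet_Ioi
  · exact Eventually.of_forall fun x => Eventually.of_forall fun y => norm_indicator_le_norm_self _ _
  · exact hf.norm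
  · refine Eventually.of_forall fun y => ?_
    apply tendsto_nhds_of_eventually_eq
    by_cases hy : c < y
    · filter_upwards [Ioo_mem_nhdsGT hy] with x hx
      rw [indicator_of_mem (show y ∈ Ioi x from hx.2), indicator_of_mem (show y ∈ Ioi c from hy)]
    · filter_upwards [self_mem_nhdsWithin] with x hx
      have hx' : c < x := hx
      rw [indicator_of_notMem (show y ∉ Ioi x from fun h => hy (hx'.trans h)),
        indicator_of_notMem (show y ∉ Ioi c from hy)]

lemma tail_left (ρ : Measure ℝ) [IsFiniteMeasure ρ] (f : ℝ → ℝ) (hf : Integrable f ρ) (c : ℝ) :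
    Tendsto (tail ρ f) (𝓝[<] c) (𝓝 (tail ρ f c + f c * (ρ {c}).toReal)) := by
  have hval : tail ρ f c + f c * (ρ {c}).toReal = ∫ y in Ici c, f y ∂ρ := by
    have h1 : (Ici c : Set ℝ) = {c} ∪ Ioi c := by
      ext x
      simp only [mem_Ici, mem_union, mem_singleton_iff, mem_Ioi]
      constructor
      · intro h; rcases h.eq_or_lt with h | h
        · exact Or.inl h.symm
        · exact Or.inr h
      · rintro (h | h)
        · exact h.ge
        · exact h.le
    rw [h1, setIntegral_union (by simp) measurableSet_Ioi hf.integrableOn hf.integrableOn,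
      integral_singleton, smul_eq_mul, tail]
    simp only [Measure.real]
    ring
  rw [hval]
  unfold tail
  simp_rw [← integral_indicator (measurableSet_Ioi (a := _))]
  rw [← integral_indicator measurableSet_Ici]
  apply tendsto_integral_filter_of_dominated_convergence (fun y => ‖f y‖)
  · exact Eventually.of_forall fun x => hf.aestronglyMeasurable.indicator measurableSet_Ioi
  · exact Eventually.of_forall fun x => Eventually.of_forall fun y => norm_indicator_le_norm_self _ _
  · exact hf.norm
  · refine Eventually.of_forall fun y => ?_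
    apply tendsto_nhds_of_eventually_eq
    by_cases hy : c ≤ y
    · filter_upwards [self_mem_nhdsWithin] with x hx
      have hx' : x < c := hx
      rw [indicator_of_mem (show y ∈ Ioi x from hx'.trans_le hy), indicator_of_mem (show y ∈ Ici c from hy)]
    · filter_upwards [Ioo_mem_nhdsLT (not_le.1 hy)] with x hx
      rw [indicator_of_notMem (show y ∉ Ioi x from fun h => absurd h (not_lt.2 hx.1.le)),
        indicator_of_notMem (show y ∉ Ici c from hy)]

lemma tail_vol_cont (f : ℝ → ℝ) (hf : Integrable f volume) : Continuous (tail volume f) := by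
  have e : ∀ x, tail volume f x = tail volume f 0 - ∫ y in (0 : ℝ)..x, f y := by
    intro x
    unfold tail
    have h := intervalIntegral.integral_Ioi_sub_Ioi' (a := 0) (b := x) (f := f) (μ := volume)
      hf.integrableOn hf.integrableOn
    linarith
  have : tail volume f = fun x => tail volume f 0 - ∫ y in (0 : ℝ)..x, f y := by
    ext x; exact e x
  rw [this]
  exact continuous_const.sub (intervalIntegral.continuous_primitive
    (fun a b => hf.intervalIntegrable) 0)

end Pool.Agent.W2helper99.Kr
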